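import Pool.Agent.Lib_helper86.CMT.Large2

set_option autoImplicit false
set_option linter.unusedSectionVars false

/-!
Counting degenerate CM types on a finite transitive `G`-set with `2 r q ^ m` points, `2 r < q`.
-/

namespace Pool.Agent.CMT.Large

open Finset

variable {G S : Type} [Group G] [MulAction G S] [Fintype S] [DecidableEq S]

/-- a `q`-group fixes a nonzero vector of a nonzero space of functions with values in `ZMod q` -/
theorem exists_fixed {q : ℕ} [hq : Fact q.Prime] (P : Subgroup G) (hP : IsPGroup q P)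
    (M : AddSubgroup (S → ZMod q)) (hM : ∀ x ∈ P, ∀ f ∈ M, (fun s => f (x • s)) ∈ M)
    (f₀ : S → ZMod q) (hf₀ : f₀ ∈ M) (hne : f₀ ≠ 0) :
    ∃ f ∈ M, f ≠ 0 ∧ ∀ x ∈ P, ∀ s, f (x • s) = f s := by
  classical
  let act : MulAction P M :=
    { smul := fun g x => ⟨fun h => x.1 ((g⁻¹ : P) • h), hM _ (g⁻¹ : P).2 x.1 x.2⟩
      one_smul := (by
        intro x
        apply Subtype.ext
        funext h
        change x.1 (((1 : P)⁻¹ : P) • h) = x.1 h
        rw [inv_one, one_smul])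
      mul_smul := (by
        intro g g' x
        apply Subtype.ext
        funext h
        change x.1 (((g * g')⁻¹ : P) • h) = x.1 ((g'⁻¹ : P) • ((g⁻¹ : P) • h))
        rw [mul_inv_rev, mul_smul]) }
  have hsmul : ∀ (g : P) (x : M) (h : S), (g • x).1 h = x.1 ((g⁻¹ : P) • h) := fun _ _ _ => rfl
  let w : M := ⟨f₀, hf₀⟩
  have hw : w ≠ 0 := fun h => hne (congrArg Subtype.val h)
  have hord : addOrderOf w = q := by
    apply addOrderOf_eq_prime _ hw
    apply Subtype.ext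
    funext h
    change (q • f₀) h = 0
    simp
  have hdvd : q ∣ Nat.card M := (dvd_of_eq hord.symm).trans (addOrderOf_dvd_natCard w)
  have hfix0 : (0 : M) ∈ MulAction.fixedPoints P M := by
    intro g
    apply Subtype.ext
    funext h
    rw [hsmul]
    rfl
  obtain ⟨b, hb, hb0⟩ := hP.exists_fixed_point_of_prime_dvd_card_of_fixed_point M hdvd hfix0
  refine ⟨b.1, b.2, fun h => hb0 (Subtype.ext h.symm), fun x hx s => ?_⟩
  have h1 := hsmul (⟨x, hx⟩⁻¹ : P) b s
  rw [hb, inv_inv] at h1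
  exact h1.symm

section orbits

variable [Finite G]

theorem orbit_size {q : ℕ} [hq : Fact q.Prime] (P : Sylow q G)
    (htr : ∀ s t : S, ∃ x : G, x • s = t) (r m : ℕ) (hr : 2 * r < q)
    (hcard : Fintype.card S = 2 * (r * q ^ m)) (s : S) :
    Nat.card (MulAction.orbit P s) = q ^ m := by
  have horbG : Nat.card (MulAction.orbit G s) = 2 * (r * q ^ m) := by
    have : MulAction.orbit G s = Set.univ := by
      ext t
      simp only [Set.mem_univ, iff_true]
      obtain ⟨g, hg⟩ := htr s t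
      exact ⟨g, hg⟩
    rw [this, Nat.card_univ, Nat.card_eq_fintype_card, hcard]
  have h1 := sylow_orbit P s m (by rw [horbG, ← mul_assoc]; exact Dvd.intro_left _ rfl)
  obtain ⟨i, hi⟩ := P.isPGroup'.card_orbit s
  have hle : Nat.card (MulAction.orbit P s) ≤ 2 * (r * q ^ m) := by
    rw [← hcard, ← Nat.card_eq_fintype_card]
    exact Nat.card_le_card_of_injective (Subtype.val) Subtype.val_injective
  rw [hi] at h1 hle ⊢
  congr 1
  apply le_antisymm
  · by_contra h
    push Not at h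
    have h2 : q ^ (m + 1) ≤ q ^ i := Nat.pow_le_pow_right hq.1.pos h
    have h4 : 0 < q ^ m := pow_pos hq.1.pos m
    have h5 : 2 * (r * q ^ m) < q ^ (m + 1) := by
      rw [pow_succ, ← mul_assoc, mul_comm (q ^ m)]
      exact Nat.mul_lt_mul_of_pos_right hr h4
    omega
  · exact (Nat.pow_dvd_pow_iff_le_right hq.1.one_lt).1 h1

theorem orbit_count {q : ℕ} [hq : Fact q.Prime] (P : Sylow q G)
    (htr : ∀ s t : S, ∃ x : G, x • s = t) (r m : ℕ) (hr : 2 * r < q)
    (hcard : Fintype.card S = 2 * (r * q ^ m)) :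
    Nat.card (MulAction.orbitRel.Quotient P S) = 2 * r := by
  classical
  have h1 := Nat.card_congr (MulAction.selfEquivSigmaOrbits P S)
  let _ : Fintype (MulAction.orbitRel.Quotient P S) := Fintype.ofFinite _
  rw [Nat.card_sigma, Nat.card_eq_fintype_card, hcard] at h1
  have h2 : ∀ ω : Quotient (MulAction.orbitRel P S), Nat.card (MulAction.orbit P ω.out) = q ^ m :=
    fun ω => orbit_size P htr r m hr hcard _
  simp only [h2] at h1
  rw [Finset.sum_const, Finset.card_univ, smul_eq_mul, ← mul_assoc] at h1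
  have h3 := Nat.eq_of_mul_eq_mul_right (pow_pos hq.1.pos m) h1
  rw [Nat.card_eq_fintype_card, h3]

/-- the odd functions which are invariant under `P` -/
def VP (q : ℕ) [Fact q.Prime] (c : S → S) (P : Subgroup G) : Submodule (ZMod q) (S → ZMod q) where
  carrier := {f | (∀ s, f (c s) = - f s) ∧ ∀ x ∈ P, ∀ s, f (x • s) = f s}
  add_mem' := by
    rintro f f' ⟨h1, h2⟩ ⟨h1', h2'⟩
    refine ⟨fun s => ?_, fun x hx s => ?_⟩
    · rw [Pi.add_apply, Pi.add_apply, h1, h1']; ring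
    · rw [Pi.add_apply, Pi.add_apply, h2 x hx, h2' x hx]
  zero_mem' := ⟨fun s => by simp, fun x _ s => rfl⟩
  smul_mem' := by
    rintro a f ⟨h1, h2⟩
    refine ⟨fun s => ?_, fun x hx s => ?_⟩
    · rw [Pi.smul_apply, Pi.smul_apply, h1]; simp
    · rw [Pi.smul_apply, Pi.smul_apply, h2 x hx]

theorem mem_VP {q : ℕ} [Fact q.Prime] {c : S → S} {P : Subgroup G} {f : S → ZMod q} :
    f ∈ VP q c P ↔ (∀ s, f (c s) = - f s) ∧ ∀ x ∈ P, ∀ s, f (x • s) = f s := Iff.rfl

/-- the functions all of whose translates are in `VP` -/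
def WP (q : ℕ) [Fact q.Prime] (c : S → S) (P : Subgroup G) : Submodule (ZMod q) (S → ZMod q) where
  carrier := {f | (∀ s, f (c s) = - f s) ∧ ∀ τ : G, ∀ x ∈ P, ∀ s, f (τ • x • s) = f (τ • s)}
  add_mem' := by
    rintro f f' ⟨h1, h2⟩ ⟨h1', h2'⟩
    refine ⟨fun s => ?_, fun τ x hx s => ?_⟩
    · rw [Pi.add_apply, Pi.add_apply, h1, h1']; ring
    · rw [Pi.add_apply, Pi.add_apply, h2 τ x hx, h2' τ x hx]
  zero_mem' := ⟨fun s => by simp, fun τ x _ s => rfl⟩
  smul_mem' := by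
    rintro a f ⟨h1, h2⟩
    refine ⟨fun s => ?_, fun τ x hx s => ?_⟩
    · rw [Pi.smul_apply, Pi.smul_apply, h1]; simp
    · rw [Pi.smul_apply, Pi.smul_apply, h2 τ x hx]

theorem mem_WP {q : ℕ} [Fact q.Prime] {c : S → S} {P : Subgroup G} {f : S → ZMod q} :
    f ∈ WP q c P ↔ (∀ s, f (c s) = - f s) ∧ ∀ τ : G, ∀ x ∈ P, ∀ s, f (τ • x • s) = f (τ • s) :=
  Iff.rfl

theorem WP_le_VP {q : ℕ} [Fact q.Prime] (c : S → S) (P : Subgroup G) : WP q c P ≤ VP q c P := by
  intro f hf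
  refine ⟨hf.1, fun x hx s => ?_⟩
  have := hf.2 1 x hx s
  simpa only [one_smul] using this

theorem VP_bound {q : ℕ} [hq : Fact q.Prime] (hq2 : q ≠ 2) (P : Sylow q G) (c : S → S)
    (hcc : ∀ s, c (c s) = s) (hc : ∀ s, c s ≠ s) (hcG : ∀ (g : G) s, c (g • s) = g • c s)
    (htr : ∀ s t : S, ∃ x : G, x • s = t) (r m : ℕ) (hr : 2 * r < q)
    (hcard : Fintype.card S = 2 * (r * q ^ m)) :
    Module.finrank (ZMod q) (VP q c (P : Subgroup G)) ≤ r ∧
      Nat.card (VP q c (P : Subgroup G)) ≤ q ^ r ∧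
      ∀ f ∈ VP q c (P : Subgroup G), (univ.image f).card ≤ 2 * r := by
  classical
  let X := MulAction.orbitRel.Quotient P S
  let _ : Fintype X := Fintype.ofFinite _
  have hXcard : Fintype.card X = 2 * r := by
    rw [← Nat.card_eq_fintype_card]; exact orbit_count P htr r m hr hcard
  have hrel : ∀ s t : S, (⟦s⟧ : X) = ⟦t⟧ ↔ ∃ x : P, x • t = s := by
    intro s t
    rw [Quotient.eq]
    exact MulAction.orbitRel_apply
  let cX : X → X := Quotient.map c (by
    rintro s t ⟨x, hx⟩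
    refine ⟨x, ?_⟩
    change (x : G) • c t = c s
    rw [← hcG]
    congr 1)
  have hcX : ∀ s : S, cX ⟦s⟧ = ⟦c s⟧ := fun s => rfl
  have hcXX : ∀ x, cX (cX x) = x := by
    intro x
    induction x using Quotient.inductionOn with
    | _ s => rw [hcX, hcX, hcc]
  have hcXne : ∀ x, cX x ≠ x := by
    intro x
    induction x using Quotient.inductionOn with
    | _ s =>
      rw [hcX]
      intro h
      obtain ⟨x, hx⟩ := (hrel _ _).1 h
      obtain ⟨i, hi⟩ := P.isPGroup' x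
      exact no_odd c hcc hc hcG (x : G) (q ^ i) (hq.1.odd_of_ne_two hq2).pow
        (by have := congrArg Subtype.val hi; simpa using this) s hx
  obtain ⟨H, hH⟩ := exists_half cX hcXX hcXne
  have hHcard : H.card = r := by
    have := card_half cX hcXX H hH
    omega
  let ev : VP q c (P : Subgroup G) →ₗ[ZMod q] (H → ZMod q) :=
    { toFun := fun f x => f.1 x.1.out
      map_add' := fun _ _ => rfl
      map_smul' := fun _ _ => rfl }
  have hconst : ∀ f ∈ VP q c (P : Subgroup G), ∀ s, f s = f ((⟦s⟧ : X).out) := by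
    intro f hf s
    obtain ⟨x, hx⟩ := (hrel _ _).1 ((Quotient.out_eq (⟦s⟧ : X)).symm)
    have h1 := hf.2 x.1 x.2 ((⟦s⟧ : X).out)
    rw [← h1]
    congr 1
    exact hx.symm
  have hinj : Function.Injective ev := by
    rw [← LinearMap.ker_eq_bot, LinearMap.ker_eq_bot']
    intro f hf
    apply Subtype.ext
    have key : ∀ s, (⟦s⟧ : X) ∈ H → f.1 s = 0 := by
      intro s hs
      rw [hconst f.1 f.2 s]
      exact congrFun hf ⟨_, hs⟩
    funext s
    by_cases hs : (⟦s⟧ : X) ∈ H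
    · exact key s hs
    · have h1 : cX ⟦s⟧ ∈ H := by
        by_contra h'
        exact hs ((hH _).2 h')
      have h2 := key (c s) h1
      rw [f.2.1] at h2
      exact neg_eq_zero.1 h2
  refine ⟨?_, ?_, ?_⟩
  · have h1 := LinearMap.finrank_le_finrank_of_injective hinj
    rwa [Module.finrank_pi, Fintype.card_coe, hHcard] at h1
  · have h1 := Nat.card_le_card_of_injective ev hinj
    refine h1.trans (le_of_eq ?_)
    rw [Nat.card_eq_fintype_card, Fintype.card_fun, ZMod.card, Fintype.card_coe, hHcard]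
  · intro f hf
    have h1 : univ.image f ⊆ univ.image (fun x : X => f x.out) := by
      intro y hy
      obtain ⟨s, _, rfl⟩ := mem_image.1 hy
      rw [mem_image]
      exact ⟨⟦s⟧, mem_univ _, (hconst f hf s).symm⟩
    refine (card_le_card h1).trans (card_image_le.trans ?_)
    rw [card_univ, hXcard]

open scoped Classical in
theorem main {q : ℕ} [hq : Fact q.Prime] (c : S → S)
    (hcc : ∀ s, c (c s) = s) (hc : ∀ s, c s ≠ s) (hcG : ∀ (g : G) s, c (g • s) = g • c s)
    (htr : ∀ s t : S, ∃ x : G, x • s = t) (r m : ℕ) (hm : m ≠ 0) (hr : 2 * r < q)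
    (hcard : Fintype.card S = 2 * (r * q ^ m)) :
    (univ.filter fun Φ : Finset S => (∀ s, s ∈ Φ ↔ c s ∉ Φ) ∧ ∃ f : S → ZMod q, f ≠ 0 ∧
      (∀ s, f (c s) = - f s) ∧ ∀ τ : G, ∑ s ∈ Φ, f (τ • s) = 0).card
      ≤ r * (q - 1).choose ((q - 1) / 2) * 2 ^ (r * q ^ m - (q - 1))
        + q ^ r * 2 ^ (r * q ^ m - (q / (2 * r) + 2)) := by
  rcases isEmpty_or_nonempty S with hS | ⟨⟨s₀⟩⟩
  · rw [filter_false_of_mem, card_empty]
    · exact Nat.zero_le _
    · rintro Φ _ ⟨_, f, hf, _⟩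
      exact hf (Subsingleton.elim _ _)
  have hr0 : 0 < r := by
    rcases Nat.eq_zero_or_pos r with rfl | h
    · have := Fintype.card_pos_iff.2 ⟨s₀⟩
      omega
    · exact h
  have hq2 : q ≠ 2 := by omega
  obtain ⟨P⟩ : Nonempty (Sylow q G) := inferInstance
  obtain ⟨hV1, hV2, hV3⟩ := VP_bound hq2 P c hcc hc hcG htr r m hr hcard
  set V := VP q c (P : Subgroup G) with hV
  set W := WP q c (P : Subgroup G) with hW
  have hWr : Module.finrank (ZMod q) W ≤ r :=
    (Submodule.finrank_mono (WP_le_VP c (P : Subgroup G))).trans hV1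
  -- the set `T`
  let O : Finset S := (MulAction.orbit P s₀).toFinset
  have hO : ∀ s, s ∈ O ↔ s ∈ MulAction.orbit P s₀ := fun s => Set.mem_toFinset
  have hOcard : O.card = q ^ m := by
    rw [← orbit_size P htr r m hr hcard s₀, Nat.card_eq_card_toFinset]
  have hle : q - 1 ≤ O.card := by
    rw [hOcard]
    have : q ^ 1 ≤ q ^ m := Nat.pow_le_pow_right hq.1.pos (Nat.one_le_iff_ne_zero.2 hm)
    rw [pow_one] at this
    omega
  obtain ⟨T, hTO, hTcard⟩ := exists_subset_card_eq hle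
  have hT : ∀ s ∈ T, c s ∉ T := by
    intro s hs hs'
    obtain ⟨x, hx⟩ := (hO _).1 (hTO hs)
    obtain ⟨y, hy⟩ := (hO _).1 (hTO hs')
    obtain ⟨i, hi⟩ := P.isPGroup' (y * x⁻¹)
    refine no_odd c hcc hc hcG ((y * x⁻¹ : P) : G) (q ^ i) (hq.1.odd_of_ne_two hq2).pow
      (by have := congrArg Subtype.val hi; simpa using this) s ?_
    change (y * x⁻¹) • s = c s
    rw [← hy, ← hx]
    change (y * x⁻¹) • (x • s₀) = y • s₀
    rw [smul_smul, inv_mul_cancel_right]
  have hTW : ∀ f ∈ W, ∀ (τ : G), ∀ s ∈ T, f (τ • s) = f (τ • s₀) := by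
    intro f hf τ s hs
    obtain ⟨x, rfl⟩ := (hO _).1 (hTO hs)
    exact hf.2 τ x.1 x.2 s₀
  have hB := caseB hq2 c hcc hc hcG (r * q ^ m) hcard htr r W (fun f hf => hf.1) hWr T hTcard hT s₀
    hTW
  -- case A
  have hA : ∀ f ∈ V, f ∉ W → (univ.filter fun Φ : Finset S => (∀ s, s ∈ Φ ↔ c s ∉ Φ) ∧
      ∀ τ : G, ∑ s ∈ Φ, f (τ • s) = 0).card ≤ 2 ^ (r * q ^ m - (q / (2 * r) + 2)) := by
    intro f hf hfW
    have : ∃ (τ x : G), x ∈ P ∧ ∃ s, f (τ • x • s) ≠ f (τ • s) := by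
      by_contra hcon
      push Not at hcon
      exact hfW ⟨hf.1, fun τ x hx s => hcon τ x hx s⟩
    obtain ⟨τ, x, hx, s, hne⟩ := this
    obtain ⟨i, hi⟩ := P.isPGroup' ⟨x, hx⟩
    have hdiv : q / (2 * r) * (2 * r) < q := by
      refine lt_of_le_of_ne (Nat.div_mul_le_self _ _) fun h => ?_
      have h1 : 2 * r ∣ q := Dvd.intro_left _ h
      rcases (Nat.dvd_prime hq.1).1 h1 with h2 | h2 <;> omega
    refine caseA hq2 c hcc hc hcG (r * q ^ m) hcard (2 * r) (q / (2 * r) + 2)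
      (Nat.le_add_left _ _) ?_
      (by rw [Nat.add_sub_cancel]; exact hdiv) f hf.1 (univ.image f) (hV3 f hf)
      (fun s => mem_image_of_mem _ (mem_univ _)) τ x i
      (by have := congrArg Subtype.val hi; simpa using this) s hne
    · have h1 : q / (2 * r) ≤ q / 2 := Nat.div_le_div_left (by omega) (by norm_num)
      have h2 : 3 ≤ q := by omega
      omega
  -- union
  have hsub : (univ.filter fun Φ : Finset S => (∀ s, s ∈ Φ ↔ c s ∉ Φ) ∧ ∃ f : S → ZMod q, f ≠ 0 ∧
      (∀ s, f (c s) = - f s) ∧ ∀ τ : G, ∑ s ∈ Φ, f (τ • s) = 0)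
      ⊆ (univ.filter fun Φ : Finset S => (∀ s, s ∈ Φ ↔ c s ∉ Φ) ∧
          ∃ f ∈ W, f ≠ 0 ∧ ∀ τ : G, ∑ s ∈ Φ, f (τ • s) = 0) ∪
        (univ.filter fun f : S → ZMod q => f ∈ V ∧ f ∉ W).biUnion fun f =>
          univ.filter fun Φ : Finset S => (∀ s, s ∈ Φ ↔ c s ∉ Φ) ∧
            ∀ τ : G, ∑ s ∈ Φ, f (τ • s) = 0 := by
    intro Φ hΦ
    obtain ⟨_, hΦc, f, hf0, hfodd, hfs⟩ := mem_filter.1 hΦ
    let M : AddSubgroup (S → ZMod q) :=
      { carrier := {f | (∀ s, f (c s) = - f s) ∧ ∀ τ : G, ∑ s ∈ Φ, f (τ • s) = 0}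
        add_mem' := (by
          rintro f f' ⟨h1, h2⟩ ⟨h1', h2'⟩
          refine ⟨fun s => ?_, fun τ => ?_⟩
          · rw [Pi.add_apply, Pi.add_apply, h1, h1']; ring
          · simp only [Pi.add_apply, Finset.sum_add_distrib, h2 τ, h2' τ, add_zero])
        zero_mem' := ⟨fun s => by simp, fun τ => by simp⟩
        neg_mem' := (by
          rintro f ⟨h1, h2⟩
          refine ⟨fun s => ?_, fun τ => ?_⟩
          · rw [Pi.neg_apply, Pi.neg_apply, h1]
          · simp only [Pi.neg_apply, Finset.sum_neg_distrib, h2 τ, neg_zero]) }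
    obtain ⟨f', hf'M, hf'0, hf'P⟩ := exists_fixed (P : Subgroup G) P.isPGroup' M (by
      rintro x _ f ⟨h1, h2⟩
      refine ⟨fun s => ?_, fun τ => ?_⟩
      · change f (x • c s) = - f (x • s)
        rw [← hcG, h1]
      · have := h2 (x * τ)
        simpa only [mul_smul] using this) f ⟨hfodd, hfs⟩ hf0
    rw [mem_union]
    by_cases hfW : f' ∈ W
    · left
      rw [mem_filter]
      exact ⟨mem_univ _, hΦc, f', hfW, hf'0, hf'M.2⟩
    · right
      rw [mem_biUnion]
      refine ⟨f', ?_, ?_⟩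
      · rw [mem_filter]
        exact ⟨mem_univ _, ⟨hf'M.1, hf'P⟩, hfW⟩
      · rw [mem_filter]
        exact ⟨mem_univ _, hΦc, hf'M.2⟩
  refine (card_le_card hsub).trans ((card_union_le _ _).trans (Nat.add_le_add hB ?_))
  refine card_biUnion_le.trans ((Finset.sum_le_card_nsmul _ _
    (2 ^ (r * q ^ m - (q / (2 * r) + 2))) fun f hf => ?_).trans ?_)
  · exact hA f (mem_filter.1 hf).2.1 (mem_filter.1 hf).2.2
  · rw [smul_eq_mul]
    refine Nat.mul_le_mul_right _ (le_trans ?_ hV2)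
    rw [Nat.card_eq_fintype_card, Fintype.card_subtype]
    refine card_le_card fun f hf => ?_
    rw [mem_filter] at hf ⊢
    exact ⟨mem_univ _, hf.2.1⟩

theorem main' {q : ℕ} [hq : Fact q.Prime] (c : S → S)
    (hcc : ∀ s, c (c s) = s) (hc : ∀ s, c s ≠ s) (hcG : ∀ (g : G) s, c (g • s) = g • c s)
    (htr : ∀ s t : S, ∃ x : G, x • s = t) (r m : ℕ) (hm : m ≠ 0) (hr : 2 * r < q)
    (hcard : Fintype.card S = 2 * (r * q ^ m)) :
    Nat.card {Φ : Finset S // (∀ s, s ∈ Φ ↔ c s ∉ Φ) ∧ ∃ f : S → ZMod q, f ≠ 0 ∧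
      (∀ s, f (c s) = - f s) ∧ ∀ τ : G, ∑ s ∈ Φ, f (τ • s) = 0}
      ≤ r * (q - 1).choose ((q - 1) / 2) * 2 ^ (r * q ^ m - (q - 1))
        + q ^ r * 2 ^ (r * q ^ m - (q / (2 * r) + 2)) := by
  classical
  refine le_trans (le_of_eq ?_) (main c hcc hc hcG htr r m hm hr hcard)
  rw [Nat.card_eq_fintype_card, Fintype.card_subtype]

end orbits

end Pool.Agent.CMT.Large
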