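import Pool.Agent.Lib_helper86.CMT.Fam
import Pool.Agent.Lib_helper86.CMT.Large3

set_option autoImplicit false
set_option linter.unusedSectionVars false

/-!
Degenerate CM types of a CM field of degree `2 r q ^ m`, `2 r < q` prime.
-/

open NumberField

namespace Pool.Agent.CMT

variable {K : Type} [Field K] [NumberField K] [IsCMField K]
variable {L : Type} [Field L] [NumberField L]

/-- a degenerate CM type is degenerate modulo every prime -/
theorem mod_of_degenerate (Φ : Finset (K →ₐ[ℚ] L)) (hΦ : IsCMType Φ) (q : ℕ) [hq : Fact q.Prime]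
    (h : ¬ Nondegenerate Φ) : ∃ f : (K →ₐ[ℚ] L) → ZMod q, f ≠ 0 ∧ (∀ s, f (cj s) = - f s) ∧
      ∀ τ : Gal(L/ℚ), ∑ s ∈ Φ, f ((τ : L →ₐ[ℚ] L).comp s) = 0 := by
  classical
  by_contra hcon
  push Not at hcon
  apply h
  have key : ∀ (k : ℕ) (ν : (K →ₐ[ℚ] L) → ℤ), (∀ s, ν (cj s) = - ν s) →
      (∀ τ : Gal(L/ℚ), ∑ s ∈ Φ, ν ((τ : L →ₐ[ℚ] L).comp s) = 0) → ∀ s, (q : ℤ) ^ k ∣ ν s := by
    intro k
    induction k with
    | zero => intro ν _ _ s; simp
    | succ k ih =>
      intro ν hodd hν s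
      have h2 : ∀ s, (q : ℤ) ∣ ν s := by
        by_contra hne
        push Not at hne
        obtain ⟨t, ht⟩ := hne
        obtain ⟨τ, hτ⟩ := hcon (fun s => (ν s : ZMod q)) (fun h0 => by
          apply ht
          have := congrFun h0 t
          exact (ZMod.intCast_zmod_eq_zero_iff_dvd _ _).1 this) (fun s => by
          rw [hodd s]
          push_cast
          rfl)
        apply hτ
        have := congrArg (Int.cast : ℤ → ZMod q) (hν τ)
        push_cast at this
        exact this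
      choose ν' hν' using h2
      have hq0 : (q : ℤ) ≠ 0 := by exact_mod_cast hq.1.ne_zero
      have h3 := ih ν' (fun s => by
        have := hodd s
        rw [hν', hν' s, ← mul_neg] at this
        exact mul_left_cancel₀ hq0 this) (fun τ => by
        have := hν τ
        simp only [hν', ← Finset.mul_sum] at this
        exact (mul_eq_zero.1 this).resolve_left hq0) s
      rw [hν' s, pow_succ, mul_comm]
      exact mul_dvd_mul_left _ h3
  intro n hn s
  let ν : (K →ₐ[ℚ] L) → ℤ := fun s => n s - n (cj s)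
  have hodd : ∀ s, ν (cj s) = - ν s := by
    intro s
    simp only [ν, cj_cj]
    ring
  have hν : ∀ τ : Gal(L/ℚ), ∑ s ∈ Φ, ν ((τ : L →ₐ[ℚ] L).comp s) = 0 := by
    intro τ
    simp only [ν, Finset.sum_sub_distrib]
    rw [hn τ, sub_eq_zero]
    exact Finset.sum_congr rfl fun s _ => rfl
  have hz : ν s = 0 := by
    by_contra hne
    have hlt : (2 : ℤ) ^ (ν s).natAbs ≤ (q : ℤ) ^ (ν s).natAbs := by
      apply pow_le_pow_left₀ (by norm_num)
      exact_mod_cast hq.1.two_le
    have h1 := Int.le_of_dvd (abs_pos.2 hne) ((dvd_abs _ _).2 (key (ν s).natAbs ν hodd hν s))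
    have h2 : ((ν s).natAbs : ℤ) < 2 ^ (ν s).natAbs := by exact_mod_cast Nat.lt_two_pow_self
    rw [Int.natCast_natAbs] at h2
    linarith
  have : n s - n (cj s) = 0 := hz
  change n (cj s) = n s
  linarith

variable [Algebra K L] [IsGalois ℚ L]

theorem card_cmTypes (g : ℕ) (hK : Module.finrank ℚ K = 2 * g) :
    Nat.card {Φ : Finset (K →ₐ[ℚ] L) // IsCMType Φ} = 2 ^ g := by
  classical
  obtain ⟨O, hOc⟩ := Large.exists_half (S := K →ₐ[ℚ] L) cj cj_cj cj_ne
  have hOcard : O.card = g := by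
    have h1 := card_half cj cj_cj O hOc
    rw [card_emb, hK] at h1
    omega
  have h3 := (card_types cj cj_cj O hOc (fun _ => True)).trans (card_subsets O fun _ => True)
  rw [Finset.filter_true_of_mem (fun _ _ => trivial), Nat.sum_range_choose, hOcard] at h3
  rw [← h3]
  refine Nat.card_congr (Equiv.subtypeEquivRight fun Φ => ?_)
  exact (and_iff_left trivial).symm

theorem card_degenerate (q r m : ℕ) (hq : q.Prime) (hm : m ≠ 0) (hr : 2 * r < q)
    (hK : Module.finrank ℚ K = 2 * (r * q ^ m)) :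
    Nat.card {Φ : Finset (K →ₐ[ℚ] L) // IsCMType Φ ∧ ¬ Nondegenerate Φ}
      ≤ r * (q - 1).choose ((q - 1) / 2) * 2 ^ (r * q ^ m - (q - 1))
        + q ^ r * 2 ^ (r * q ^ m - (q / (2 * r) + 2)) := by
  classical
  have : Fact q.Prime := ⟨hq⟩
  let _ := galAct K L
  have h1 := Large.main' (G := Gal(L/ℚ)) (S := K →ₐ[ℚ] L) (q := q) cj cj_cj cj_ne (fun g s => rfl)
    (fun s t => gal_trans s t) r m hm hr (by rw [card_emb, hK])
  refine le_trans ?_ h1
  refine Nat.card_le_card_of_injective (fun Φ => ⟨Φ.1, ?_⟩) ?_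
  · exact ⟨Φ.2.1, mod_of_degenerate Φ.1 Φ.2.1 q Φ.2.2⟩
  · intro Φ Ψ h
    exact Subtype.ext (congrArg (fun x => x.1) h)

end Pool.Agent.CMT
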