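import Mathlib

set_option autoImplicit false

/-!
# Hodge classes and Tate classes on powers of abelian varieties with complex multiplication

`K` is a CM field and `L ⊇ K` a number field which is Galois over `ℚ`.  A CM type of `K` is given
as a set `Φ` of embeddings `K → L`; together with an embedding `φ₀ : L →+* ℂ` it gives the usual
CM type `{φ₀ ∘ s : s ∈ Φ}` and the complex abelian variety `A_Φ = ℂ^Φ / 𝓞_K` (up to isogeny), with
`H₁(A_Φ ^ k, ℚ) = K ^ k`.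
-/

open NumberField

namespace Pool.Agent.CMT

/-- complex conjugation of the CM field `K` -/
noncomputable def conjK (K : Type) [Field K] [NumberField K] [IsCMField K] : K →ₐ[ℚ] K :=
  ((IsCMField.complexConj K).restrictScalars ℚ : K ≃ₐ[ℚ] K)

variable {K L : Type} [Field K] [NumberField K] [Field L] [NumberField L]

/-- `Φ` is a CM type: for every embedding `s : K → L`, exactly one of `s` and its complex conjugate
`s ∘ c` lies in `Φ`. -/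
def IsCMType [IsCMField K] (Φ : Finset (K →ₐ[ℚ] L)) : Prop := ∀ s, s ∈ Φ ↔ s.comp (conjK K) ∉ Φ

/-- the map `H₁(A_Φ ^ k, ℚ) = K ^ k → (ℂ ^ Φ) ^ k = Lie (A_Φ ^ k)` -/
def period (φ₀ : L →+* ℂ) (Φ : Finset (K →ₐ[ℚ] L)) (k : ℕ) (v : Fin k → K) : Fin k → Φ → ℂ :=
  fun j s => φ₀ (s.1 (v j))

/-- `ω` is a Hodge class of codimension `p` on `A_Φ ^ k`: a rational alternating `2p`-form on
`H₁(A_Φ ^ k, ℚ) = K ^ k` whose real extension `Ω` to the Lie algebra is of type `(p,p)`, i.e.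
satisfies `Ω(z u₁, …, z u_{2p}) = |z| ^ (2p) Ω(u₁, …, u_{2p})`. -/
def IsHodge (φ₀ : L →+* ℂ) (Φ : Finset (K →ₐ[ℚ] L)) (k p : ℕ)
    (ω : (Fin k → K) [⋀^(Fin p × Fin 2)]→ₗ[ℚ] ℚ) : Prop :=
  ∃ Ω : (Fin k → Φ → ℂ) [⋀^(Fin p × Fin 2)]→ₗ[ℝ] ℝ,
    (∀ v, Ω (fun t => period φ₀ Φ k (v t)) = ω v) ∧
    ∀ (z : ℂ) u, Ω (fun t => z • u t) = ‖z‖ ^ (2 * p) * Ω u

/-- the product of `p` rational alternating `2`-forms (`2 ^ p` times their wedge product) -/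
def wedge {k p : ℕ} (η : Fin p → (Fin k → K) [⋀^(Fin 1 × Fin 2)]→ₗ[ℚ] ℚ)
    (v : Fin p × Fin 2 → Fin k → K) : ℚ :=
  ∑ π : Equiv.Perm (Fin p × Fin 2), (Equiv.Perm.sign π : ℤ) • ∏ i, η i (fun t => v (π (i, t.2)))

/-- products of `p` divisor classes on `A_Φ ^ k` (rational classes of type `(1,1)`), with
coefficients in `F` -/
def divisorProducts (F : Type) [DivisionRing F] (φ₀ : L →+* ℂ) (Φ : Finset (K →ₐ[ℚ] L))
    (k p : ℕ) : Set ((Fin p × Fin 2 → Fin k → K) → F) :=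
  {f | ∃ η : Fin p → (Fin k → K) [⋀^(Fin 1 × Fin 2)]→ₗ[ℚ] ℚ,
    (∀ i, IsHodge φ₀ Φ k 1 (η i)) ∧ f = fun v => ((wedge η v : ℚ) : F)}

/-- `y ∈ K` is the (reflex) type norm `∏ g⁻¹ x` of `x ∈ L`, the product over all
`g ∈ Gal(L/ℚ)` whose restriction to `K` lies in `Φ`. -/
def IsTypeNorm [Algebra K L] (Φ : Finset (K →ₐ[ℚ] L)) (x : L) (y : K) : Prop :=
  open scoped Classical in
  algebraMap K L y = ∏ g ∈ Finset.univ.filter
    (fun g : Gal(L/ℚ) => (g : L →ₐ[ℚ] L).comp (IsScalarTower.toAlgHom ℚ K L) ∈ Φ), g⁻¹ x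

/-- `w` is an `ℓ`-adic Tate class of codimension `p` on `A_Φ ^ k` over some number field: an
alternating `2p`-form on `V_ℓ(A_Φ ^ k) = (ℚ_ℓ ⊗ K) ^ k`, given by its restriction to `K ^ k`, on
which the Galois elements attached to the `x ∈ 𝓞_L`, `x ≡ 1 (mod m)` (for some `m ≠ 0`), act as
they should; by the main theorem of complex multiplication they act on `V_ℓ(A_Φ)` by the type norm
`y` of `x` and on `ℚ_ℓ(1)` by the norm of `x` (both up to inversion). -/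
def IsTate [Algebra K L] (Φ : Finset (K →ₐ[ℚ] L)) (ℓ : ℕ) [Fact ℓ.Prime] (k p : ℕ)
    (w : (Fin k → K) [⋀^(Fin p × Fin 2)]→ₗ[ℚ] ℚ_[ℓ]) : Prop :=
  ∃ m : ℕ, m ≠ 0 ∧ ∀ x : 𝓞 L, (m : 𝓞 L) ∣ x - 1 → ∀ y : K, IsTypeNorm Φ (x : L) y → ∀ v,
    w (fun t => y • v t) = ((Algebra.norm ℚ (x : L) : ℚ) : ℚ_[ℓ]) ^ p * w v

/-- `Φ` is nondegenerate (the Mumford-Tate torus of `A_Φ` has the maximal dimension `g + 1`):
every integral weight `n` whose sums over `τ Φ` and over its complex conjugate agree for all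
`τ ∈ Gal(L/ℚ)` is invariant under complex conjugation. -/
def Nondegenerate [IsCMField K] (Φ : Finset (K →ₐ[ℚ] L)) : Prop :=
  ∀ n : (K →ₐ[ℚ] L) → ℤ, (∀ τ : Gal(L/ℚ), ∑ s ∈ Φ, n ((τ : L →ₐ[ℚ] L).comp s)
      = ∑ s ∈ Φ, n ((τ : L →ₐ[ℚ] L).comp (s.comp (conjK K)))) →
    ∀ s, n (s.comp (conjK K)) = n s

/-- all Hodge classes on all powers of `A_Φ` are generated by divisor classes -/
def HodgeGenerated (Φ : Finset (K →ₐ[ℚ] L)) : Prop :=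
  ∀ (φ₀ : L →+* ℂ) (k p : ℕ) (ω : (Fin k → K) [⋀^(Fin p × Fin 2)]→ₗ[ℚ] ℚ),
    IsHodge φ₀ Φ k p ω →
      (fun v => ω v) ∈ Submodule.span ℚ (divisorProducts ℚ φ₀ Φ k p)

/-- all `ℓ`-adic Tate classes on all powers of `A_Φ` are generated by divisor classes -/
def TateGenerated [Algebra K L] (Φ : Finset (K →ₐ[ℚ] L)) : Prop :=
  ∀ (ℓ : ℕ) [Fact ℓ.Prime] (φ₀ : L →+* ℂ) (k p : ℕ)
    (w : (Fin k → K) [⋀^(Fin p × Fin 2)]→ₗ[ℚ] ℚ_[ℓ]), IsTate Φ ℓ k p w →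
      (fun v => w v) ∈ Submodule.span ℚ_[ℓ] (divisorProducts ℚ_[ℓ] φ₀ Φ k p)

end Pool.Agent.CMT
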