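import Pool.Agent.Lib_helper86.CMT.Fam
import Pool.Agent.Lib_helper86.CM.Grp

set_option autoImplicit false
set_option linter.unusedSectionVars false

/-!
Abelian CM fields: embeddings `K → K` are the elements of the Galois group, and the group level
notions agree with the field level ones.
-/

open NumberField

namespace Pool.Agent.CMT

variable {K : Type} [Field K] [NumberField K] [IsCMField K] [IsGalois ℚ K]

/-- complex conjugation in the Galois group -/
noncomputable def cG (K : Type) [Field K] [NumberField K] [IsCMField K] : Gal(K/ℚ) :=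
  (IsCMField.complexConj K).restrictScalars ℚ

theorem cG_coe (x : K) : cG K x = conjK K x := rfl

theorem cG_mul_self : cG K * cG K = 1 := by
  ext x
  change conjK K (conjK K x) = x
  simp only [conjK_apply]
  exact IsCMField.complexConj_apply_apply K x

theorem cG_ne_one : cG K ≠ 1 := by
  intro h
  apply IsCMField.complexConj_ne_one K
  ext x
  exact congrArg (fun f : Gal(K/ℚ) => f x) h

/-- group elements as embeddings -/
noncomputable def eG (K : Type) [Field K] [NumberField K] [IsGalois ℚ K] :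
    Gal(K/ℚ) ≃ (K →ₐ[ℚ] K) := (algEquivEquivAlgHom ℚ K).toEquiv

theorem eG_apply (g : Gal(K/ℚ)) : eG K g = (g : K →ₐ[ℚ] K) := rfl

variable (hab : ∀ σ τ : Gal(K/ℚ), σ * τ = τ * σ)

include hab in
theorem eG_c (g : Gal(K/ℚ)) : eG K (cG K * g) = (eG K g).comp (conjK K) := by
  rw [hab]
  rfl

theorem eG_mul (τ g : Gal(K/ℚ)) : eG K (τ * g) = (τ : K →ₐ[ℚ] K).comp (eG K g) := rfl

/-- transport of sets -/
noncomputable def eS (K : Type) [Field K] [NumberField K] [IsGalois ℚ K] :
    Finset Gal(K/ℚ) ≃ Finset (K →ₐ[ℚ] K) := (eG K).finsetCongr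

theorem mem_eS (Φ : Finset Gal(K/ℚ)) (g : Gal(K/ℚ)) : eG K g ∈ eS K Φ ↔ g ∈ Φ := by
  simp [eS]

theorem sum_eS {M : Type} [AddCommMonoid M] (Φ : Finset Gal(K/ℚ)) (f : (K →ₐ[ℚ] K) → M) :
    ∑ s ∈ eS K Φ, f s = ∑ g ∈ Φ, f (eG K g) := by
  simp [eS, Equiv.finsetCongr]

include hab in
theorem isCMType_eS (Φ : Finset Gal(K/ℚ)) : IsCMType (eS K Φ) ↔ CM.GCM (cG K) Φ := by
  unfold IsCMType CM.GCM
  constructor
  · intro h g
    have := h (eG K g)
    rwa [← eG_c hab, mem_eS, mem_eS] at this
  · intro h s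
    obtain ⟨g, rfl⟩ := (eG K).surjective s
    rw [← eG_c hab, mem_eS, mem_eS]
    exact h g

include hab in
theorem nondegenerate_eS (Φ : Finset Gal(K/ℚ)) : Nondegenerate (eS K Φ) ↔ CM.GND (cG K) Φ := by
  unfold Nondegenerate CM.GND
  constructor
  · intro h n hn g
    have := h (fun s => n ((eG K).symm s)) (fun τ => ?_) (eG K g)
    · rwa [← eG_c hab, Equiv.symm_apply_apply, Equiv.symm_apply_apply] at this
    · rw [sum_eS, sum_eS]
      simp only [← eG_c hab, ← eG_mul, Equiv.symm_apply_apply]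
      exact hn τ
  · intro h n hn s
    obtain ⟨g, rfl⟩ := (eG K).surjective s
    rw [← eG_c hab]
    refine h (fun g => n (eG K g)) (fun τ => ?_) g
    have := hn τ
    rw [sum_eS, sum_eS] at this
    simpa only [← eG_c hab, ← eG_mul] using this

end Pool.Agent.CMT
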