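import Mathlib

set_option autoImplicit false

/-!
Subsets of a set of size `q ^ m` (`q` odd prime) whose size is divisible by `q`: at most the
fraction `1 / q` of all subsets.
-/

namespace Pool.Agent.CMT.Binom

variable {q : ℕ}

/-- number of subsets of `{0, …, g-1}` whose size is `r` modulo `q` -/
def A (q g : ℕ) (r : ZMod q) : ℤ :=
  ∑ D ∈ (Finset.range g).powerset, if ((D.card : ℕ) : ZMod q) = r then 1 else 0

theorem A_zero (r : ZMod q) : A q 0 r = if r = 0 then 1 else 0 := by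
  unfold A
  rw [Finset.range_zero, Finset.powerset_empty, Finset.sum_singleton, Finset.card_empty,
    Nat.cast_zero]
  simp only [eq_comm]

theorem A_succ (g : ℕ) (r : ZMod q) : A q (g + 1) r = A q g r + A q g (r - 1) := by
  unfold A
  rw [Finset.range_add_one, Finset.sum_powerset_insert Finset.notMem_range_self]
  congr 1
  refine Finset.sum_congr rfl fun D hD => ?_
  rw [Finset.mem_powerset] at hD
  rw [Finset.card_insert_of_notMem (fun h => Finset.notMem_range_self (hD h))]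
  congr 1
  rw [Nat.cast_add, Nat.cast_one, eq_sub_iff_add_eq]

theorem A_symm (g : ℕ) (r : ZMod q) : A q g (g - r) = A q g r := by
  induction g generalizing r with
  | zero =>
    rw [A_zero, A_zero]
    simp
  | succ g ih =>
    rw [A_succ, A_succ, add_comm]
    congr 1
    · rw [← ih r]
      congr 1
      push_cast
      ring
    · rw [← ih (r - 1)]
      congr 1
      push_cast
      ring

theorem A_mono (hq : 1 < q) (g : ℕ) (r : ℤ) (h1 : (g : ℤ) ≤ 2 * r + 1)
    (h2 : 2 * r + 1 ≤ g + q) : A q g ((r + 1 : ℤ) : ZMod q) ≤ A q g ((r : ℤ) : ZMod q) := by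
  induction g generalizing r with
  | zero =>
    rw [A_zero, A_zero]
    have h3 : ((r + 1 : ℤ) : ZMod q) ≠ 0 := by
      rw [Ne, ZMod.intCast_zmod_eq_zero_iff_dvd]
      intro h
      have := Int.le_of_dvd (by omega) h
      omega
    rw [if_neg h3]
    split_ifs <;> norm_num
  | succ g ih =>
    rw [A_succ, A_succ]
    have e1 : (((r + 1 : ℤ) : ZMod q) - 1) = ((r : ℤ) : ZMod q) := by push_cast; ring
    have e2 : (((r : ℤ) : ZMod q) - 1) = ((r - 1 : ℤ) : ZMod q) := by push_cast; ring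
    rw [e1, e2]
    push_cast at h1 h2
    rcases eq_or_lt_of_le h1 with h3 | h3
    · -- `2 r = g`
      have h4 : (g : ℤ) = 2 * r := by omega
      have h5 := A_symm (q := q) g ((r + 1 : ℤ) : ZMod q)
      have h6 : ((g : ℕ) : ZMod q) - ((r + 1 : ℤ) : ZMod q) = ((r - 1 : ℤ) : ZMod q) := by
        have : ((g : ℕ) : ZMod q) = ((g : ℤ) : ZMod q) := by push_cast; rfl
        rw [this, h4]
        push_cast
        ring
      rw [h6] at h5
      rw [h5, add_comm]
    rcases eq_or_lt_of_le h2 with h3' | h3'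
    · have h4 : (g : ℤ) = 2 * r - q := by omega
      have h5 := A_symm (q := q) g ((r + 1 : ℤ) : ZMod q)
      have h6 : ((g : ℕ) : ZMod q) - ((r + 1 : ℤ) : ZMod q) = ((r - 1 : ℤ) : ZMod q) := by
        have : ((g : ℕ) : ZMod q) = ((g : ℤ) : ZMod q) := by push_cast; rfl
        rw [this, h4]
        push_cast
        simp
        ring
      rw [h6] at h5
      rw [h5, add_comm]
    · have h7 := ih r (by omega) (by omega)
      have h8 := ih (r - 1) (by omega) (by omega)
      rw [sub_add_cancel] at h8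
      linarith

theorem A_min (hq : 1 < q) (g : ℕ) (c : ℤ) (hc : 2 * c = g + q) (r : ZMod q) :
    A q g ((c : ℤ) : ZMod q) ≤ A q g r := by
  have key : ∀ d : ℕ, (g : ℤ) ≤ 2 * (c - d) + 1 →
      A q g ((c : ℤ) : ZMod q) ≤ A q g ((c - d : ℤ) : ZMod q) := by
    intro d
    induction d with
    | zero => intro _; simp
    | succ d ih =>
      intro h
      have h1 := ih (by push_cast at h; omega)
      have h2 := A_mono hq g (c - (d + 1 : ℕ)) h (by push_cast; omega)
      have e : (c - ((d + 1 : ℕ) : ℤ) + 1) = c - d := by push_cast; ring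
      rw [e] at h2
      exact h1.trans h2
  -- an integer representative in `(c - q, c]`
  have : NeZero q := ⟨by omega⟩
  obtain ⟨d, hd, hr⟩ : ∃ d : ℕ, d < q ∧ r = ((c - d : ℤ) : ZMod q) := by
    refine ⟨((c : ZMod q) - r).val, ZMod.val_lt _, ?_⟩
    push_cast
    rw [ZMod.natCast_zmod_val]
    ring
  by_cases h : (g : ℤ) ≤ 2 * (c - d) + 1
  · rw [hr]; exact key d h
  · rw [← A_symm g r]
    have e : ((g : ℕ) : ZMod q) - r = ((c - ((q - d : ℕ) : ℤ) : ℤ) : ZMod q) := by
      rw [hr]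
      have h1 : ((g : ℕ) : ZMod q) = ((g : ℤ) : ZMod q) := by push_cast; rfl
      have h2 : (g : ℤ) = 2 * c - q := by omega
      rw [h1, h2, Nat.cast_sub hd.le]
      push_cast
      simp
      ring
    rw [e]
    refine key _ ?_
    rw [Nat.cast_sub hd.le]
    omega

theorem sum_A [NeZero q] (g : ℕ) : ∑ r : ZMod q, A q g r = 2 ^ g := by
  unfold A
  rw [Finset.sum_comm]
  simp

theorem A_zero_le (hq : 1 < q) (g : ℕ) (c : ℤ) (hc : 2 * c = g + q) (hcq : (q : ℤ) ∣ c) :
    (q : ℤ) * A q g 0 ≤ 2 ^ g := by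
  have : NeZero q := ⟨by omega⟩
  rw [← sum_A (q := q) g]
  have h1 : ∀ r : ZMod q, A q g 0 ≤ A q g r := by
    intro r
    have h2 := A_min hq g c hc r
    rwa [(ZMod.intCast_zmod_eq_zero_iff_dvd c q).2 hcq] at h2
  have h3 := Finset.sum_le_sum (s := (Finset.univ : Finset (ZMod q))) fun r _ => h1 r
  rwa [Finset.sum_const, Finset.card_univ, ZMod.card, nsmul_eq_mul] at h3

/-- the main estimate -/
theorem sum_choose_ge {q m : ℕ} (hq : q.Prime) (hq2 : q ≠ 2) (hm : m ≠ 0) :
    (1 - 1 / (q : ℝ)) * 2 ^ q ^ m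
      ≤ ((∑ j ∈ (Finset.range (q ^ m + 1)).filter (fun j => ¬ q ∣ j), (q ^ m).choose j : ℕ) : ℝ) := by
  have hodd : Odd q := hq.odd_of_ne_two hq2
  obtain ⟨n, rfl⟩ := Nat.exists_eq_succ_of_ne_zero hm
  have h1 : (q : ℤ) * A q (q ^ (n + 1)) 0 ≤ 2 ^ (q ^ (n + 1)) := by
    obtain ⟨t, ht⟩ : Even (q ^ n + 1) := (hodd.pow).add_one
    refine A_zero_le hq.one_lt _ (q * t) ?_ (Dvd.intro _ rfl)
    have : ((q ^ n + 1 : ℕ) : ℤ) = ((t + t : ℕ) : ℤ) := by rw [ht]
    push_cast at this ⊢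
    rw [pow_succ]
    linear_combination (-(q : ℤ)) * this
  have h2 : A q (q ^ (n + 1)) 0
      = ((∑ j ∈ (Finset.range (q ^ (n + 1) + 1)).filter (fun j => q ∣ j),
          (q ^ (n + 1)).choose j : ℕ) : ℤ) := by
    unfold A
    have h3 := Finset.sum_powerset_apply_card (fun j => if ((j : ℕ) : ZMod q) = 0 then (1 : ℤ) else 0)
      (x := Finset.range (q ^ (n + 1)))
    rw [h3, Finset.card_range, Finset.sum_filter]
    push_cast
    refine Finset.sum_congr rfl fun j _ => ?_
    simp only [ZMod.natCast_eq_zero_iff]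
    split_ifs <;> simp
  have h4 : (∑ j ∈ (Finset.range (q ^ (n + 1) + 1)).filter (fun j => q ∣ j),
          (q ^ (n + 1)).choose j)
      + (∑ j ∈ (Finset.range (q ^ (n + 1) + 1)).filter (fun j => ¬ q ∣ j),
          (q ^ (n + 1)).choose j) = 2 ^ q ^ (n + 1) := by
    rw [Finset.sum_filter_add_sum_filter_not, Nat.sum_range_choose]
  rw [h2] at h1
  have hq0 : (0 : ℝ) < q := by exact_mod_cast hq.pos
  have h5 : (q : ℝ) * ((∑ j ∈ (Finset.range (q ^ (n + 1) + 1)).filter (fun j => q ∣ j),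
          (q ^ (n + 1)).choose j : ℕ) : ℝ) ≤ 2 ^ q ^ (n + 1) := by exact_mod_cast h1
  have h6 : ((∑ j ∈ (Finset.range (q ^ (n + 1) + 1)).filter (fun j => q ∣ j),
          (q ^ (n + 1)).choose j : ℕ) : ℝ)
      + ((∑ j ∈ (Finset.range (q ^ (n + 1) + 1)).filter (fun j => ¬ q ∣ j),
          (q ^ (n + 1)).choose j : ℕ) : ℝ) = 2 ^ q ^ (n + 1) := by exact_mod_cast h4
  have h7 : ((∑ j ∈ (Finset.range (q ^ (n + 1) + 1)).filter (fun j => q ∣ j),
          (q ^ (n + 1)).choose j : ℕ) : ℝ) ≤ 1 / (q : ℝ) * 2 ^ q ^ (n + 1) := by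
    rw [one_div, inv_mul_eq_div, le_div_iff₀ hq0, mul_comm]
    exact h5
  change (1 - 1 / (q : ℝ)) * 2 ^ q ^ (n + 1) ≤ ((∑ j ∈ (Finset.range (q ^ (n + 1) + 1)).filter
    (fun j => ¬ q ∣ j), (q ^ (n + 1)).choose j : ℕ) : ℝ)
  linarith

end Pool.Agent.CMT.Binom
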