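import Pool.Agent.Lib_helper86.CMT.Expand

set_option autoImplicit false
set_option linter.unusedSectionVars false

open NumberField

namespace Pool.Agent.CMT

section conj

variable {K : Type} [Field K] [NumberField K] [IsCMField K]
variable {L : Type} [Field L] [NumberField L]

theorem conjK_apply (x : K) : conjK K x = IsCMField.complexConj K x := rfl

/-- complex conjugation on embeddings -/
noncomputable def cj (s : K →ₐ[ℚ] L) : K →ₐ[ℚ] L := s.comp (conjK K)

theorem cj_apply (s : K →ₐ[ℚ] L) (x : K) : cj s x = s (conjK K x) := rfl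

theorem emb_cj (φ₀ : L →+* ℂ) (s : K →ₐ[ℚ] L) (x : K) :
    φ₀ (cj s x) = (starRingEnd ℂ) (φ₀ (s x)) :=
  IsCMField.complexEmbedding_complexConj K (φ₀.comp (s : K →+* L)) x

theorem cj_cj (s : K →ₐ[ℚ] L) : cj (cj s) = s := by
  ext x
  rw [cj_apply, cj_apply, conjK_apply, conjK_apply, IsCMField.complexConj_apply_apply]

theorem cj_inj {s t : K →ₐ[ℚ] L} (h : cj s = cj t) : s = t := by
  rw [← cj_cj s, h, cj_cj]

theorem comp_cj (τ : Gal(L/ℚ)) (s : K →ₐ[ℚ] L) :
    cj ((τ : L →ₐ[ℚ] L).comp s) = (τ : L →ₐ[ℚ] L).comp (cj s) := rfl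

end conj

section alt

variable {R V N : Type} [CommRing R] [AddCommGroup V] [Module R V] [AddCommGroup N] [Module R N]

/-- the alternating form attached to a bilinear map -/
def altBilin (B : V →ₗ[R] V →ₗ[R] N) : V [⋀^(Fin 1 × Fin 2)]→ₗ[R] N where
  toFun v := B (v (0, 0)) (v (0, 1)) - B (v (0, 1)) (v (0, 0))
  map_update_add' := by
    intro _ v i x y
    obtain ⟨i0, i1⟩ := i
    fin_cases i0
    fin_cases i1
    · simp
      abel
    · simp
      abel
  map_update_smul' := by
    intro _ v i c x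
    obtain ⟨i0, i1⟩ := i
    fin_cases i0
    fin_cases i1
    · simp [smul_sub]
    · simp [smul_sub]
  map_eq_zero_of_eq' := by
    intro v i j hij hne
    obtain ⟨i0, i1⟩ := i
    obtain ⟨j0, j1⟩ := j
    fin_cases i0
    fin_cases j0
    fin_cases i1 <;> fin_cases j1
    · exact absurd rfl hne
    · simp only [Fin.zero_eta, Fin.mk_one] at hij
      simp only [hij, sub_self]
    · simp only [Fin.zero_eta, Fin.mk_one] at hij
      simp only [hij, sub_self]
    · exact absurd rfl hne

theorem altBilin_apply (B : V →ₗ[R] V →ₗ[R] N) (v : Fin 1 × Fin 2 → V) :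
    altBilin B v = B (v (0, 0)) (v (0, 1)) - B (v (0, 1)) (v (0, 0)) := rfl

end alt

section signs

variable {p : ℕ} {R : Type} [CommRing R]

/-- swap inside the blocks outside `T` -/
def blockSwap (T : Finset (Fin p)) : Equiv.Perm (Fin p × Fin 2) :=
  Equiv.prodCongrRight fun i => if i ∈ T then 1 else Equiv.swap 0 1

theorem sign_blockSwap (T : Finset (Fin p)) :
    Equiv.Perm.sign (blockSwap T) = (-1) ^ (Tᶜ).card := by
  rw [blockSwap, Equiv.Perm.sign_prodCongrRight]
  have : ∀ i, Equiv.Perm.sign (if i ∈ T then (1 : Equiv.Perm (Fin 2)) else Equiv.swap 0 1)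
      = if i ∈ Tᶜ then -1 else 1 := by
    intro i
    by_cases h : i ∈ T
    · simp [h]
    · simp [h]
  simp only [this]
  rw [Finset.prod_ite_mem, Finset.univ_inter, Finset.prod_const]

theorem two_pow_alt (B : Fin p → Fin p × Fin 2 → Fin p × Fin 2 → R) :
    ∑ π : Equiv.Perm (Fin p × Fin 2), ((Equiv.Perm.sign π : ℤ) : R) *
        ∏ i, (B i (π (i, 0)) (π (i, 1)) - B i (π (i, 1)) (π (i, 0)))
      = 2 ^ p * ∑ π : Equiv.Perm (Fin p × Fin 2), ((Equiv.Perm.sign π : ℤ) : R) *
        ∏ i, B i (π (i, 0)) (π (i, 1)) := by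
  have h1 : ∀ π : Equiv.Perm (Fin p × Fin 2),
      ∏ i, (B i (π (i, 0)) (π (i, 1)) - B i (π (i, 1)) (π (i, 0)))
      = ∑ T : Finset (Fin p), (∏ i ∈ T, B i (π (i, 0)) (π (i, 1))) *
        ∏ i ∈ Tᶜ, (- B i (π (i, 1)) (π (i, 0))) := by
    intro π
    simp only [sub_eq_add_neg]
    rw [Finset.prod_add]
    rw [Finset.powerset_univ]
    refine Finset.sum_congr rfl fun T _ => ?_
    rw [Finset.compl_eq_univ_sdiff]
  simp only [h1, Finset.mul_sum]
  rw [Finset.sum_comm]
  have h2 : ∀ T : Finset (Fin p), ∑ π : Equiv.Perm (Fin p × Fin 2), ((Equiv.Perm.sign π : ℤ) : R) *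
      ((∏ i ∈ T, B i (π (i, 0)) (π (i, 1))) * ∏ i ∈ Tᶜ, (- B i (π (i, 1)) (π (i, 0))))
      = ∑ π : Equiv.Perm (Fin p × Fin 2), ((Equiv.Perm.sign π : ℤ) : R) *
        ∏ i, B i (π (i, 0)) (π (i, 1)) := by
    intro T
    rw [← Equiv.sum_comp (Equiv.mulRight (blockSwap T))
      (fun π : Equiv.Perm (Fin p × Fin 2) => ((Equiv.Perm.sign π : ℤ) : R) *
        ∏ i, B i (π (i, 0)) (π (i, 1)))]
    refine Finset.sum_congr rfl fun π _ => ?_
    simp only [Equiv.coe_mulRight, Equiv.Perm.sign_mul, sign_blockSwap, Equiv.Perm.mul_apply]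
    have h3 : ∏ i, B i (π ((blockSwap T) (i, 0))) (π ((blockSwap T) (i, 1)))
        = (∏ i ∈ T, B i (π (i, 0)) (π (i, 1))) * ∏ i ∈ Tᶜ, B i (π (i, 1)) (π (i, 0)) := by
      rw [← Finset.prod_mul_prod_compl T]
      congr 1
      · refine Finset.prod_congr rfl fun i hi => ?_
        simp [blockSwap, hi]
      · refine Finset.prod_congr rfl fun i hi => ?_
        rw [Finset.mem_compl] at hi
        simp [blockSwap, hi]
    rw [h3]
    rw [Finset.prod_neg]
    push_cast
    ring
  simp only [h2]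
  rw [Finset.sum_const, Finset.card_univ, Fintype.card_finset, Fintype.card_fin, nsmul_eq_mul,
    ← Finset.mul_sum]
  push_cast
  ring

end signs

section pairing

variable {K : Type} [Field K] [NumberField K] [IsCMField K]
variable {L : Type} [Field L] [NumberField L]

/-- a balanced family of embeddings can be paired up -/
theorem exists_pairing {Φ : Finset (K →ₐ[ℚ] L)} (hΦ : IsCMType Φ) {p : ℕ}
    (a : Fin p × Fin 2 → (K →ₐ[ℚ] L))
    (ha : ∀ g, (Finset.univ.filter fun t => a t = cj g).card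
      = (Finset.univ.filter fun t => a t = g).card) :
    ∃ ρ : Equiv.Perm (Fin p × Fin 2), ∀ i, a (ρ (i, 1)) = cj (a (ρ (i, 0))) := by
  classical
  have hcard : ∀ g, Fintype.card {t // a t = g} = Fintype.card {t // a t = cj g} := by
    intro g
    rw [Fintype.card_subtype, Fintype.card_subtype, ha]
  let e : ∀ g, {t // a t = g} ≃ {t // a t = cj g} := fun g =>
    Fintype.equivOfCardEq (hcard g)
  let partner : {t // a t ∈ Φ} → Fin p × Fin 2 := fun t => (e (a t.1) ⟨t.1, rfl⟩).1
  have hpart : ∀ t : {t // a t ∈ Φ}, a (partner t) = cj (a t.1) := fun t =>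
    (e (a t.1) ⟨t.1, rfl⟩).2
  let E : {t // a t ∈ Φ} × Fin 2 → Fin p × Fin 2 := fun x =>
    if x.2 = 0 then x.1.1 else partner x.1
  have hE0 : ∀ t, E (t, 0) = t.1 := fun t => by simp [E]
  have hE1 : ∀ t, E (t, 1) = partner t := fun t => by simp [E]
  have hnot : ∀ t : {t // a t ∈ Φ}, a (partner t) ∉ Φ := by
    intro t
    rw [hpart]
    exact (hΦ _).1 t.2
  have hpinj : Function.Injective partner := by
    intro t t' h
    have h1 : a t.1 = a t'.1 := by
      have := hpart t
      rw [h, hpart t'] at this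
      exact (cj_inj this).symm
    have key : ∀ g g' (hg : g = g') (u : {t // a t = g}) (u' : {t // a t = g'}),
        (e g u).1 = (e g' u').1 → u.1 = u'.1 := by
      intro g g' hg
      subst hg
      intro u u' h
      have := (e g).injective (Subtype.ext h)
      rw [this]
    exact Subtype.ext (key _ _ h1 ⟨t.1, rfl⟩ ⟨t'.1, rfl⟩ h)
  have hE : Function.Bijective E := by
    constructor
    · rintro ⟨t, i⟩ ⟨t', i'⟩ h
      fin_cases i <;> fin_cases i'
      · simp only [Fin.zero_eta] at h ⊢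
        rw [hE0, hE0] at h
        rw [Subtype.ext h]
      · simp only [Fin.zero_eta, Fin.mk_one] at h
        rw [hE0, hE1] at h
        exact absurd t.2 (by rw [h]; exact hnot t')
      · simp only [Fin.zero_eta, Fin.mk_one] at h
        rw [hE0, hE1] at h
        exact absurd t'.2 (by rw [← h]; exact hnot t)
      · simp only [Fin.mk_one] at h ⊢
        rw [hE1, hE1] at h
        rw [hpinj h]
    · intro u
      by_cases hu : a u ∈ Φ
      · exact ⟨(⟨u, hu⟩, 0), by rw [hE0]⟩
      · have h1 : cj (a u) ∈ Φ := by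
          by_contra h
          exact hu ((hΦ _).2 h)
        let v := (e (cj (a u))).symm ⟨u, by rw [cj_cj]⟩
        have hv : a v.1 = cj (a u) := v.2
        have key : ∀ g (hg : a v.1 = g) (x : {t // a t = cj g}),
            (e g).symm x = ⟨v.1, hg⟩ → (e (a v.1) ⟨v.1, rfl⟩).1 = x.1 := by
          intro g hg
          subst hg
          intro x hx
          rw [← hx]
          simp
        refine ⟨(⟨v.1, by rw [hv]; exact h1⟩, 1), ?_⟩
        rw [hE1]
        exact key _ hv ⟨u, by rw [cj_cj]⟩ (by exact Subtype.ext rfl)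
  have hc : Fintype.card {t // a t ∈ Φ} = Fintype.card (Fin p) := by
    have := Fintype.card_of_bijective hE
    rw [Fintype.card_prod, Fintype.card_prod] at this
    exact Nat.eq_of_mul_eq_mul_right (by simp) this
  let f : Fin p ≃ {t // a t ∈ Φ} := (Fintype.equivOfCardEq hc).symm
  refine ⟨(Equiv.prodCongr f (Equiv.refl (Fin 2))).trans (Equiv.ofBijective E hE), fun i => ?_⟩
  simp only [Equiv.trans_apply, Equiv.ofBijective_apply, Equiv.prodCongr_apply, Prod.map_apply,
    Equiv.refl_apply]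
  rw [hE0, hE1, hpart]

end pairing

end Pool.Agent.CMT
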