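import Pool.Agent.Lib_helper86.CMT.Defs

set_option autoImplicit false
set_option linter.unusedSectionVars false

open NumberField

namespace Pool.Agent.CMT

section basic

variable (K : Type) [Field K] [NumberField K]

/-- index type of the integral basis -/
abbrev LL : Type := Module.Free.ChooseBasisIndex ℤ (𝓞 K)

noncomputable instance : DecidableEq (LL K) := Classical.decEq _
noncomputable instance (L : Type) [Field L] [NumberField L] : DecidableEq (K →ₐ[ℚ] L) :=
  Classical.decEq _
noncomputable instance : DecidableEq Gal(K/ℚ) := Classical.decEq _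

/-- the dual basis for the trace form -/
noncomputable def dua : Module.Basis (LL K) ℚ K := (integralBasis K).traceDual

end basic

variable {K : Type} [Field K] [NumberField K]

theorem trace_dua_mul (i j : LL K) :
    Algebra.trace ℚ K (dua K i * integralBasis K j) = if i = j then 1 else 0 := by
  rw [dua, Module.Basis.trace_traceDual_mul]
  simp only [eq_comm]

theorem expand_elt (x : K) :
    x = ∑ l, Algebra.trace ℚ K (dua K l * x) • integralBasis K l := by
  conv_lhs => rw [← (integralBasis K).sum_repr x]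
  refine Finset.sum_congr rfl fun l _ => ?_
  congr 1
  conv_rhs => rw [← (integralBasis K).sum_repr x]
  rw [Finset.mul_sum, map_sum]
  simp only [mul_smul_comm, map_smul, trace_dua_mul, smul_eq_mul, mul_ite, mul_one, mul_zero,
    Finset.sum_ite_eq, Finset.mem_univ, if_true]

variable {L : Type} [Field L] [NumberField L] [Algebra K L] [IsGalois ℚ L]
variable {C : Type} [Field C] [CharZero C] (φ : L →+* C)

theorem splits_of_normal (x : K) : ((minpoly ℚ x).map (algebraMap ℚ L)).Splits := by
  have h := Normal.splits (F := ℚ) (K := L) inferInstance (algebraMap K L x)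
  have h2 : minpoly ℚ (algebraMap K L x) = minpoly ℚ x :=
    minpoly.algHom_eq (IsScalarTower.toAlgHom ℚ K L) (algebraMap K L).injective x
  rwa [h2] at h

theorem trace_sum (x : K) :
    ((Algebra.trace ℚ K x : ℚ) : L) = ∑ s : K →ₐ[ℚ] L, s x := by
  let E := AlgebraicClosure L
  apply (algebraMap L E).injective
  rw [map_sum, map_ratCast]
  have h1 := trace_eq_sum_embeddings (K := ℚ) (L := K) E (x := x)
  have h2 : ((Algebra.trace ℚ K x : ℚ) : E) = algebraMap ℚ E (Algebra.trace ℚ K x) := by simp
  rw [h2, h1]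
  let e : (K →ₐ[ℚ] L) ≃ (K →ₐ[ℚ] E) :=
    Algebra.IsAlgebraic.algHomEquivAlgHomOfSplits E L (fun x => splits_of_normal x)
  rw [← Equiv.sum_comp e]
  rfl

theorem cast_trace (x : K) :
    ((Algebra.trace ℚ K x : ℚ) : C) = ∑ g : K →ₐ[ℚ] L, φ (g x) := by
  rw [← map_sum, ← trace_sum]
  simp

theorem orth1 (l l' : LL K) :
    ∑ g : (K →ₐ[ℚ] L), φ (g (dua K l)) * φ (g (integralBasis K l')) = if l = l' then 1 else 0 := by
  have := cast_trace φ (dua K l * integralBasis K l')
  rw [trace_dua_mul] at this
  simp only [map_mul] at this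
  rw [← this]
  split_ifs <;> simp

theorem card_LL (K L : Type) [Field K] [NumberField K] [Field L] [NumberField L] [Algebra K L]
    [IsGalois ℚ L] : Fintype.card (LL K) = Fintype.card (K →ₐ[ℚ] L) := by
  rw [← Module.finrank_eq_card_basis (integralBasis K),
    AlgHom.card_of_splits ℚ K L (fun x => splits_of_normal x)]

theorem orth2 (g h : (K →ₐ[ℚ] L)) :
    ∑ l : LL K, φ (g (dua K l)) * φ (h (integralBasis K l)) = if g = h then 1 else 0 := by
  let A : Matrix (LL K) (K →ₐ[ℚ] L) C := Matrix.of fun l g => φ (g (dua K l))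
  let B : Matrix (K →ₐ[ℚ] L) (LL K) C := Matrix.of fun g l => φ (g (integralBasis K l))
  have hAB : A * B = 1 := by
    ext l l'
    rw [Matrix.mul_apply]
    simp only [A, B, Matrix.of_apply]
    rw [orth1, Matrix.one_apply]
  have hBA : B * A = 1 := (Matrix.mul_eq_one_comm_of_equiv
    (Fintype.equivOfCardEq (card_LL K L))).1 hAB
  have := congrFun (congrFun hBA h) g
  rw [Matrix.mul_apply, Matrix.one_apply] at this
  simp only [A, B, Matrix.of_apply] at this
  rw [← Finset.sum_congr rfl fun l _ => mul_comm (φ (h (integralBasis K l))) _, this]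
  simp only [eq_comm]

/-- indices of coordinate functions -/
abbrev XX (K L : Type) [Field K] [NumberField K] [Field L] [NumberField L] (k : ℕ) : Type :=
  (K →ₐ[ℚ] L) × Fin k

/-- indices of the rational basis of `K ^ k` -/
abbrev YY (K : Type) [Field K] [NumberField K] (k : ℕ) : Type := LL K × Fin k

variable {k : ℕ}

/-- coordinate functions on `K ^ k` with values in `C` -/
def ev (x : XX K L k) (v : Fin k → K) : C := φ (x.1 (v x.2))

/-- basis vectors -/
noncomputable def bv (y : YY K k) : Fin k → K := Pi.single y.2 (integralBasis K y.1)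

/-- dual matrix -/
noncomputable def qm (x : XX K L k) (y : YY K k) : C := if x.2 = y.2 then φ (x.1 (dua K y.1)) else 0

/-- rational coordinates -/
noncomputable def cd (y : YY K k) (v : Fin k → K) : ℚ := Algebra.trace ℚ K (dua K y.1 * v y.2)

theorem expand_vec (v : Fin k → K) : v = ∑ y : YY K k, cd y v • bv y := by
  ext j
  rw [Fintype.sum_prod_type, Finset.sum_apply]
  simp only [Finset.sum_apply, Pi.smul_apply, bv, cd]
  conv_lhs => rw [expand_elt (v j)]
  refine Finset.sum_congr rfl fun l _ => ?_
  rw [Finset.sum_eq_single j]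
  · rw [Pi.single_eq_same]
  · intro b _ hb
    rw [Pi.single_eq_of_ne' hb, smul_zero]
  · intro h; exact absurd (Finset.mem_univ _) h

theorem cast_cd (y : YY K k) (v : Fin k → K) :
    ((cd y v : ℚ) : C) = ∑ x : XX K L k, qm φ x y * ev φ x v := by
  rw [cd, cast_trace φ, Fintype.sum_prod_type]
  refine Finset.sum_congr rfl fun g _ => ?_
  rw [Finset.sum_eq_single y.2]
  · simp [qm, ev]
  · intro b _ hb
    simp [qm, hb]
  · intro h; exact absurd (Finset.mem_univ _) h

theorem orth (x x' : XX K L k) :
    ∑ y : YY K k, qm φ x y * ev φ x' (bv y) = if x = x' then 1 else 0 := by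
  rw [Fintype.sum_prod_type_right]
  rw [Finset.sum_eq_single x.2]
  · simp only [qm, if_true, ev, bv]
    by_cases h : x.2 = x'.2
    · rw [← h]
      simp only [Pi.single_eq_same]
      rw [orth2]
      simp only [Prod.ext_iff, h, and_true]
    · rw [if_neg (fun h' => h (congrArg Prod.snd h'))]
      refine Finset.sum_eq_zero fun l _ => ?_
      rw [Pi.single_eq_of_ne (Ne.symm h)]
      simp
  · intro b _ hb
    refine Finset.sum_eq_zero fun l _ => ?_
    simp [qm, Ne.symm hb]
  · intro h; exact absurd (Finset.mem_univ _) h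

variable {ι : Type} [Fintype ι] [DecidableEq ι]

/-- coefficients of a form in the monomials in the coordinate functions -/
noncomputable def coef (f : (ι → Fin k → K) → C) (s : ι → XX K L k) : C :=
  ∑ y : ι → YY K k, (∏ t, qm φ (s t) (y t)) * f (fun t => bv (y t))

/-- A function of the form `∑ a(s) ∏ ev` has coefficients `a`. -/
theorem coef_eq (a : (ι → XX K L k) → C) (f : (ι → Fin k → K) → C)
    (hf : ∀ v, f v = ∑ s, a s * ∏ t, ev φ (s t) (v t)) (s : ι → XX K L k) :
    coef φ f s = a s := by
  unfold coef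
  simp only [hf, Finset.mul_sum]
  rw [Finset.sum_comm]
  rw [Finset.sum_eq_single s]
  · have : ∀ y : ι → YY K k, (∏ t, qm φ (s t) (y t)) * (a s * ∏ t, ev φ (s t) (bv (y t)))
        = a s * ∏ t, (qm φ (s t) (y t) * ev φ (s t) (bv (y t))) := by
      intro y
      rw [Finset.prod_mul_distrib]; ring
    simp only [this]
    rw [← Finset.mul_sum]
    have h2 := Finset.prod_univ_sum (fun _ : ι => (Finset.univ : Finset (YY K k)))
      (fun t y => qm φ (s t) y * ev φ (s t) (bv y))
    rw [Fintype.piFinset_univ] at h2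
    rw [← h2]
    simp [orth]
  · intro s' _ hs'
    have : ∀ y : ι → YY K k, (∏ t, qm φ (s t) (y t)) * (a s' * ∏ t, ev φ (s' t) (bv (y t)))
        = a s' * ∏ t, (qm φ (s t) (y t) * ev φ (s' t) (bv (y t))) := by
      intro y
      rw [Finset.prod_mul_distrib]; ring
    simp only [this]
    rw [← Finset.mul_sum]
    have h2 := Finset.prod_univ_sum (fun _ : ι => (Finset.univ : Finset (YY K k)))
      (fun t y => qm φ (s t) y * ev φ (s' t) (bv y))
    rw [Fintype.piFinset_univ] at h2
    rw [← h2]
    obtain ⟨t, ht⟩ : ∃ t, s t ≠ s' t := by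
      by_contra h
      push Not at h
      exact hs' (funext h).symm
    rw [Finset.prod_eq_zero (Finset.mem_univ t), mul_zero]
    rw [orth, if_neg ht]
  · intro h; exact absurd (Finset.mem_univ _) h

/-- uniqueness of coefficients -/
theorem coef_unique (a b : (ι → XX K L k) → C)
    (h : ∀ v : ι → Fin k → K, ∑ s, a s * ∏ t, ev φ (s t) (v t) = ∑ s, b s * ∏ t, ev φ (s t) (v t)) :
    a = b := by
  funext s
  rw [← coef_eq φ a (fun v => ∑ s, a s * ∏ t, ev φ (s t) (v t)) (fun _ => rfl) s,
    ← coef_eq φ b (fun v => ∑ s, a s * ∏ t, ev φ (s t) (v t)) (fun v => h v) s]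

/-- A general expansion: if `f` satisfies `f(v) = ∑_y ∏ r_{y_t}(v_t) f(bv y)` and each coordinate
`r_y` is the combination `∑_x qm x y * E x`, then `f` expands with coefficients `coef`. -/
theorem expand_gen {W : Type} (E : XX K L k → W → C) (f0 : (ι → Fin k → K) → C) (F : (ι → W) → C)
    (r : YY K k → W → C) (hr : ∀ y w, r y w = ∑ x : XX K L k, qm φ x y * E x w)
    (hF : ∀ w, F w = ∑ y : ι → YY K k, (∏ t, r (y t) (w t)) * f0 (fun t => bv (y t))) (w : ι → W) :
    F w = ∑ s, coef φ f0 s * ∏ t, E (s t) (w t) := by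
  rw [hF]
  have h1 : ∀ y : ι → YY K k, (∏ t, r (y t) (w t))
      = ∑ s : ι → XX K L k, ∏ t, (qm φ (s t) (y t) * E (s t) (w t)) := by
    intro y
    have h2 := Finset.prod_univ_sum (fun _ : ι => (Finset.univ : Finset (XX K L k)))
      (fun t x => qm φ x (y t) * E x (w t))
    rw [Fintype.piFinset_univ] at h2
    rw [← h2]
    exact Finset.prod_congr rfl fun t _ => hr _ _
  simp only [h1, Finset.sum_mul]
  rw [Finset.sum_comm]
  refine Finset.sum_congr rfl fun s _ => ?_
  rw [coef, Finset.sum_mul]
  refine Finset.sum_congr rfl fun y _ => ?_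
  rw [Finset.prod_mul_distrib]
  ring

/-- expansion of a rational multilinear form in the basis -/
theorem multilinear_expand {F : Type} [Field F] [CharZero F]
    (ω : MultilinearMap ℚ (fun _ : ι => Fin k → K) F) (v : ι → Fin k → K) :
    ω v = ∑ y : ι → YY K k, (∏ t, ((cd (y t) (v t) : ℚ) : F)) * ω (fun t => bv (y t)) := by
  have h1 : v = fun t => ∑ y : YY K k, cd y (v t) • bv y := by
    funext t
    exact expand_vec (v t)
  conv_lhs => rw [h1]
  rw [MultilinearMap.map_sum]
  refine Finset.sum_congr rfl fun y _ => ?_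
  rw [MultilinearMap.map_smul_univ]
  rw [Rat.smul_def]
  push_cast
  rfl

/-- the expansion of a rational form with values in a subfield -/
theorem form_expand {F : Type} [Field F] [CharZero F] (ψ : F →+* C)
    (ω : MultilinearMap ℚ (fun _ : ι => Fin k → K) F) (v : ι → Fin k → K) :
    ψ (ω v) = ∑ s, coef φ (fun v => ψ (ω v)) s * ∏ t, ev φ (s t) (v t) := by
  refine expand_gen φ (ev φ) (fun v => ψ (ω v)) (fun v => ψ (ω v))
    (fun y w => ((cd y w : ℚ) : C)) (fun y w => cast_cd φ y w) (fun w => ?_) v
  rw [multilinear_expand ω w, map_sum]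
  refine Finset.sum_congr rfl fun y _ => ?_
  rw [map_mul, map_prod]
  congr 1
  refine Finset.prod_congr rfl fun t _ => ?_
  simp

end Pool.Agent.CMT
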