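import Pool.Agent.Lib_helper86.CMT.Large3

set_option autoImplicit false
set_option linter.unusedSectionVars false

/-!
CM types on a finite transitive `G`-set relative to a normal subgroup `N` all of whose orbits have
the same size.
-/

namespace Pool.Agent.CMT.Large

open Finset

variable {G S : Type} [Group G] [MulAction G S] [Fintype S] [DecidableEq S]

/-- an integer divisible by all powers of `u ≥ 2` vanishes -/
theorem eq_zero_of_pow_dvd {u : ℤ} (hu : 2 ≤ u) {a : ℤ} (h : ∀ k : ℕ, u ^ k ∣ a) : a = 0 := by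
  by_contra hne
  have hlt : (2 : ℤ) ^ a.natAbs ≤ u ^ a.natAbs := pow_le_pow_left₀ (by norm_num) hu _
  have h1 := Int.le_of_dvd (abs_pos.2 hne) ((dvd_abs _ _).2 (h a.natAbs))
  have h2 : (a.natAbs : ℤ) < 2 ^ a.natAbs := by exact_mod_cast Nat.lt_two_pow_self
  rw [Int.natCast_natAbs] at h2
  linarith

/-- descent: a class of integer valued functions, closed under exact division by `u ≥ 2`, all of
whose members are divisible by `u`, contains only `0` -/
theorem descent (C : (S → ℤ) → Prop) (u : ℤ) (hu : 2 ≤ u) (h1 : ∀ ν, C ν → ∀ s, u ∣ ν s)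
    (h2 : ∀ ν ν' : S → ℤ, C ν → (∀ s, ν s = u * ν' s) → C ν') (ν : S → ℤ) (hν : C ν) (s : S) :
    ν s = 0 := by
  have key : ∀ (k : ℕ) (ν : S → ℤ), C ν → ∀ s, u ^ k ∣ ν s := by
    intro k
    induction k with
    | zero => intro ν _ s; simp
    | succ k ih =>
      intro ν hν s
      choose ν' hν' using h1 ν hν
      have h3 := ih ν' (h2 ν ν' hν hν') s
      rw [hν' s, pow_succ, mul_comm]
      exact mul_dvd_mul_left _ h3
  exact eq_zero_of_pow_dvd hu fun k => key k ν hν s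

variable [Finite G]

/-- the sum over a stable set of an invariant function is divisible by the common orbit size -/
theorem dvd_sum (N : Subgroup G) (h : ℕ) (hN : ∀ s : S, Nat.card (MulAction.orbit N s) = h)
    (T : Finset S) (hTN : ∀ x ∈ N, ∀ s ∈ T, x • s ∈ T) (w : S → ℤ)
    (hw : ∀ x ∈ N, ∀ s, w (x • s) = w s) : (h : ℤ) ∣ ∑ s ∈ T, w s := by
  classical
  let X := MulAction.orbitRel.Quotient N S
  let _ : Fintype X := Fintype.ofFinite _
  have hrel : ∀ s t : S, (⟦s⟧ : X) = ⟦t⟧ ↔ s ∈ MulAction.orbit N t := by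
    intro s t
    rw [Quotient.eq]
    exact MulAction.orbitRel_apply
  rw [← Finset.sum_fiberwise T (fun s => (⟦s⟧ : X)) w]
  refine Finset.dvd_sum fun ω _ => ?_
  rcases (T.filter fun s => (⟦s⟧ : X) = ω).eq_empty_or_nonempty with he | ⟨s₀, hs₀⟩
  · rw [he, Finset.sum_empty]
    exact dvd_zero _
  · obtain ⟨hs₀T, rfl⟩ := mem_filter.1 hs₀
    have h1 : (T.filter fun s => (⟦s⟧ : X) = ⟦s₀⟧) = (MulAction.orbit N s₀).toFinset := by
      ext s
      rw [mem_filter, hrel, Set.mem_toFinset]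
      constructor
      · exact fun h => h.2
      · intro h
        refine ⟨?_, h⟩
        obtain ⟨x, rfl⟩ := h
        exact hTN x.1 x.2 s₀ hs₀T
    rw [h1]
    have h2 : ∀ s ∈ (MulAction.orbit N s₀).toFinset, w s = w s₀ := by
      intro s hs
      obtain ⟨x, rfl⟩ := Set.mem_toFinset.1 hs
      exact hw x.1 x.2 s₀
    rw [Finset.sum_congr rfl h2, sum_const, ← Nat.card_eq_card_toFinset, hN, nsmul_eq_mul]
    exact dvd_mul_right _ _

theorem one_flip (c : S → S) (hcc : ∀ s, c (c s) = s)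
    (hcG : ∀ (g : G) s, c (g • s) = g • c s)
    (htr : ∀ s t : S, ∃ x : G, x • s = t) (N : Subgroup G) [hNn : N.Normal] (h : ℕ) (h3 : 3 ≤ h)
    (hN : ∀ s : S, Nat.card (MulAction.orbit N s) = h)
    (T : Finset S) (hT : ∀ s, s ∈ T ↔ c s ∉ T) (hTN : ∀ x ∈ N, ∀ s ∈ T, x • s ∈ T)
    (s₀ : S) (hs₀ : s₀ ∈ T) (ν : S → ℤ) (hodd : ∀ s, ν (c s) = - ν s)
    (hν : ∀ τ : G, ∑ s ∈ insert (c s₀) (T.erase s₀), ν (τ • s) = 0) (s : S) : ν s = 0 := by
  classical
  -- basic relation
  have hrel : ∀ ν : S → ℤ, (∀ s, ν (c s) = - ν s) →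
      (∀ τ : G, ∑ s ∈ insert (c s₀) (T.erase s₀), ν (τ • s) = 0) →
      ∀ τ : G, ∑ s ∈ T, ν (τ • s) = 2 * ν (τ • s₀) := by
    intro ν hodd hν τ
    have h1 := hν τ
    rw [Finset.sum_insert (fun h => (hT s₀).1 hs₀ (mem_of_mem_erase h)), ← hcG, hodd] at h1
    have h2 := Finset.add_sum_erase T (fun s => ν (τ • s)) hs₀
    linarith
  have hinv : ∀ ν : S → ℤ, (∀ s, ν (c s) = - ν s) →
      (∀ τ : G, ∑ s ∈ insert (c s₀) (T.erase s₀), ν (τ • s) = 0) →
      ∀ x ∈ N, ∀ s, ν (x • s) = ν s := by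
    intro ν hodd hν x hx s
    obtain ⟨τ, rfl⟩ := htr s₀ s
    have h1 := hrel ν hodd hν τ
    have h2 := hrel ν hodd hν (x * τ)
    have h3 : ∑ s ∈ T, ν ((x * τ) • s) = ∑ s ∈ T, ν (τ • s) := by
      have hy : τ⁻¹ * x * τ ∈ N := by
        have := hNn.conj_mem x hx τ⁻¹
        rwa [inv_inv] at this
      refine Finset.sum_bij' (fun s _ => (τ⁻¹ * x * τ) • s) (fun s _ => (τ⁻¹ * x * τ)⁻¹ • s)
        ?_ ?_ ?_ ?_ ?_
      · intro s hs; exact hTN _ hy s hs
      · intro s hs; exact hTN _ (inv_mem hy) s hs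
      · intro s _; exact inv_smul_smul _ s
      · intro s _; exact smul_inv_smul _ s
      · intro s _
        congr 1
        simp only [mul_smul, smul_inv_smul]
    rw [h3, h1] at h2
    rw [mul_smul] at h2
    linarith
  have hdiv : ∀ ν : S → ℤ, (∀ s, ν (c s) = - ν s) →
      (∀ τ : G, ∑ s ∈ insert (c s₀) (T.erase s₀), ν (τ • s) = 0) → ∀ s, (h : ℤ) ∣ 2 * ν s := by
    intro ν hodd hν s
    obtain ⟨τ, rfl⟩ := htr s₀ s
    rw [← hrel ν hodd hν τ]
    refine dvd_sum N h hN T hTN (fun s => ν (τ • s)) fun x hx s => ?_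
    have h1 := hinv ν hodd hν (τ * x * τ⁻¹) (hNn.conj_mem x hx τ) (τ • s)
    rw [← h1]
    congr 1
    simp only [mul_smul, inv_smul_smul]
  obtain ⟨u, hu, hu'⟩ : ∃ u : ℤ, 2 ≤ u ∧ ∀ a : ℤ, (h : ℤ) ∣ 2 * a → u ∣ a := by
    rcases Nat.even_or_odd' h with ⟨l, rfl | rfl⟩
    · refine ⟨l, by omega, fun a ha => ?_⟩
      push_cast at ha
      exact (mul_dvd_mul_iff_left (by norm_num : (2 : ℤ) ≠ 0)).1 ha
    · refine ⟨(2 * l + 1 : ℕ), by push_cast; omega, fun a ha => ?_⟩
      refine IsCoprime.dvd_of_dvd_mul_left ?_ ha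
      refine ⟨1, -l, ?_⟩
      push_cast
      ring
  refine descent (fun ν => (∀ s, ν (c s) = - ν s) ∧
      ∀ τ : G, ∑ s ∈ insert (c s₀) (T.erase s₀), ν (τ • s) = 0) u hu
    (fun ν hν s => hu' _ (hdiv ν hν.1 hν.2 s)) ?_ ν ⟨hodd, hν⟩ s
  rintro ν ν' ⟨h1, h2⟩ h4
  have hu0 : u ≠ 0 := by omega
  refine ⟨fun s => ?_, fun τ => ?_⟩
  · have := h1 s
    rw [h4, h4 s, ← mul_neg] at this
    exact mul_left_cancel₀ hu0 this
  · have := h2 τ
    simp only [h4, ← Finset.mul_sum] at this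
    exact (mul_eq_zero.1 this).resolve_left hu0

theorem signature (c : S → S) (hcc : ∀ s, c (c s) = s)
    (hcG : ∀ (g : G) s, c (g • s) = g • c s) (N : Subgroup G) [hNn : N.Normal]
    {q m : ℕ} [hq : Fact q.Prime] (hm : m ≠ 0) (hqm : q ^ m ≠ 2)
    (hN : ∀ s : S, Nat.card (MulAction.orbit N s) = q ^ m)
    (T : Finset S) (hT : ∀ s, s ∈ T ↔ c s ∉ T) (hTN : ∀ x ∈ N, ∀ s ∈ T, x • s ∈ T)
    (Φ : Finset S) (hΦ : ∀ s, s ∈ Φ ↔ c s ∉ Φ)
    (hsig : ∀ f : S → ZMod q, (∀ s, f (c s) = - f s) → (∀ x ∈ N, ∀ s, f (x • s) = f s) →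
      (∀ τ : G, ∑ s ∈ Φ ∩ T, f (τ • s) = 0) → f = 0)
    (ν : S → ℤ) (hodd : ∀ s, ν (c s) = - ν s) (hν : ∀ τ : G, ∑ s ∈ Φ, ν (τ • s) = 0) (s : S) :
    ν s = 0 := by
  classical
  have hq0 : (q : ℤ) ≠ 0 := by exact_mod_cast hq.1.ne_zero
  have hq2 : (2 : ℤ) ≤ q := by exact_mod_cast hq.1.two_le
  -- splitting along `T`
  have hsplit : ∀ u : S → ℤ, (∀ s, u (c s) = - u s) →
      ∑ s ∈ Φ, u s = 2 * ∑ s ∈ Φ ∩ T, u s - ∑ s ∈ T, u s := by
    intro u hu
    rw [← Finset.sum_filter_add_sum_filter_not Φ (fun s => s ∈ T)]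
    have h1 : ∑ s ∈ Φ with s ∉ T, u s = - ∑ s ∈ T with s ∉ Φ, u s := by
      rw [← Finset.sum_neg_distrib]
      refine Finset.sum_bij' (fun s _ => c s) (fun s _ => c s) ?_ ?_ ?_ ?_ ?_
      · intro s hs
        rw [mem_filter] at hs ⊢
        refine ⟨?_, (hΦ s).1 hs.1⟩
        by_contra h'
        exact hs.2 ((hT s).2 h')
      · intro s hs
        rw [mem_filter] at hs ⊢
        refine ⟨?_, (hT s).1 hs.1⟩
        by_contra h'
        exact hs.2 ((hΦ s).2 h')
      · intro s _; exact hcc s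
      · intro s _; exact hcc s
      · intro s _
        rw [hu, neg_neg]
    have h2 : ∑ s ∈ T with s ∈ Φ, u s + ∑ s ∈ T with s ∉ Φ, u s = ∑ s ∈ T, u s :=
      Finset.sum_filter_add_sum_filter_not T (fun s => s ∈ Φ) u
    have h3 : ∑ s ∈ T with s ∈ Φ, u s = ∑ s ∈ Φ ∩ T, u s := by
      congr 1
      ext s
      simp only [mem_filter, mem_inter, and_comm]
    have h4 : ∑ s ∈ Φ with s ∈ T, u s = ∑ s ∈ Φ ∩ T, u s := by
      congr 1
    rw [h1, h4]
    rw [h3] at h2
    linarith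
  -- division by `q`
  have hcast : ∀ (u : S → ℤ) (D : Finset S) (τ : G), (q : ℤ) ∣ ∑ s ∈ D, u (τ • s) →
      ∑ s ∈ D, ((u (τ • s) : ℤ) : ZMod q) = 0 := by
    intro u D τ h
    have := (ZMod.intCast_zmod_eq_zero_iff_dvd _ q).2 h
    push_cast at this
    exact this
  -- invariant solutions vanish
  have hZ : ∀ u : S → ℤ, (∀ s, u (c s) = - u s) → (∀ x ∈ N, ∀ s, u (x • s) = u s) →
      (∀ τ : G, ∑ s ∈ Φ, u (τ • s) = 0) → ∀ s, u s = 0 := by
    intro u h1 h2 h3
    refine descent (fun u => (∀ s, u (c s) = - u s) ∧ (∀ x ∈ N, ∀ s, u (x • s) = u s) ∧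
      (∀ τ : G, ∑ s ∈ Φ, u (τ • s) = 0)) q hq2 ?_ ?_ u ⟨h1, h2, h3⟩
    · rintro u ⟨h1, h2, h3⟩ s
      have h4 := hsig (fun s => ((u s : ℤ) : ZMod q)) (fun s => by
        change ((u (c s) : ℤ) : ZMod q) = _
        rw [h1]; push_cast; rfl) (fun x hx s => by
        change ((u (x • s) : ℤ) : ZMod q) = _
        rw [h2 x hx]) (fun τ => hcast u _ τ (by
          have h5 := hsplit (fun s => u (τ • s)) (fun s => by rw [← hcG, h1])
          rw [h3 τ] at h5
          have h6 : ((q ^ m : ℕ) : ℤ) ∣ ∑ s ∈ T, u (τ • s) := by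
            refine dvd_sum N (q ^ m) hN T hTN (fun s => u (τ • s)) fun x hx s => ?_
            have h7 := h2 (τ * x * τ⁻¹) (hNn.conj_mem x hx τ) (τ • s)
            rw [← h7]
            congr 1
            simp only [mul_smul, inv_smul_smul]
          have h8 : ((q ^ m : ℕ) : ℤ) ∣ 2 * ∑ s ∈ Φ ∩ T, u (τ • s) := by
            have : 2 * ∑ s ∈ Φ ∩ T, u (τ • s) = ∑ s ∈ T, u (τ • s) := by linarith
            rw [this]; exact h6
          obtain ⟨n, rfl⟩ := Nat.exists_eq_succ_of_ne_zero hm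
          rcases eq_or_ne q 2 with h9 | h9
          · -- `4 ∣ 2 ^ m`
            have h10 : n ≠ 0 := by
              rintro rfl
              apply hqm
              rw [h9]
              norm_num
            obtain ⟨n', rfl⟩ := Nat.exists_eq_succ_of_ne_zero h10
            have h11 : (2 : ℤ) * q ∣ 2 * ∑ s ∈ Φ ∩ T, u (τ • s) := by
              refine dvd_trans ?_ h8
              have : (2 : ℤ) = q := by rw [h9]; norm_num
              rw [this]
              push_cast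
              rw [pow_succ, pow_succ, mul_assoc]
              exact dvd_mul_left _ _
            exact (mul_dvd_mul_iff_left (by norm_num : (2 : ℤ) ≠ 0)).1 h11
          · have h11 : (q : ℤ) ∣ 2 * ∑ s ∈ Φ ∩ T, u (τ • s) := by
              refine dvd_trans ?_ h8
              push_cast
              rw [pow_succ]
              exact dvd_mul_left _ _
            refine IsCoprime.dvd_of_dvd_mul_left ?_ h11
            have h12 : Nat.Coprime q 2 := (Nat.coprime_primes hq.1 Nat.prime_two).2 h9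
            exact_mod_cast Nat.isCoprime_iff_coprime.2 h12))
      have := congrFun h4 s
      exact (ZMod.intCast_zmod_eq_zero_iff_dvd _ _).1 this
    · rintro u u' ⟨h1, h2, h3⟩ h4
      refine ⟨fun s => ?_, fun x hx s => ?_, fun τ => ?_⟩
      · have := h1 s
        rw [h4, h4 s, ← mul_neg] at this
        exact mul_left_cancel₀ hq0 this
      · have := h2 x hx s
        rw [h4, h4 s] at this
        exact mul_left_cancel₀ hq0 this
      · have := h3 τ
        simp only [h4, ← Finset.mul_sum] at this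
        exact (mul_eq_zero.1 this).resolve_left hq0
  -- averaging
  let _ : Fintype N := Fintype.ofFinite _
  have hF' : ∀ s, ∑ n : N, ν ((n : G) • s) = 0 := by
    refine hZ (fun s => ∑ n : N, ν ((n : G) • s)) ?_ ?_ ?_
    · intro s
      rw [← Finset.sum_neg_distrib]
      refine Finset.sum_congr rfl fun n _ => ?_
      rw [← hcG, hodd]
    · intro x hx s
      refine Fintype.sum_equiv (Equiv.mulRight (⟨x, hx⟩ : N)) _ _ fun n => ?_
      simp only [Equiv.coe_mulRight, Subgroup.coe_mul, mul_smul]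
    · intro τ
      rw [Finset.sum_comm]
      refine Finset.sum_eq_zero fun n _ => ?_
      have := hν (n * τ)
      simpa only [mul_smul] using this
  have hTsum : ∀ τ : G, ∑ s ∈ T, ν (τ • s) = 0 := by
    intro τ
    have h1 : ∑ s ∈ T, ∑ n : N, ν ((n : G) • (τ • s)) = 0 :=
      Finset.sum_eq_zero fun s _ => hF' _
    rw [Finset.sum_comm] at h1
    have h2 : ∀ n : N, ∑ s ∈ T, ν ((n : G) • (τ • s)) = ∑ s ∈ T, ν (τ • s) := by
      intro n
      have hy : τ⁻¹ * n * τ ∈ N := by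
        have := hNn.conj_mem n n.2 τ⁻¹
        rwa [inv_inv] at this
      refine Finset.sum_bij' (fun s _ => (τ⁻¹ * n * τ) • s) (fun s _ => (τ⁻¹ * n * τ)⁻¹ • s)
        ?_ ?_ ?_ ?_ ?_
      · intro s hs; exact hTN _ hy s hs
      · intro s hs; exact hTN _ (inv_mem hy) s hs
      · intro s _; exact inv_smul_smul _ s
      · intro s _; exact smul_inv_smul _ s
      · intro s _
        congr 1
        simp only [mul_smul, smul_inv_smul]
    rw [Finset.sum_congr rfl (fun n _ => h2 n), sum_const, nsmul_eq_mul] at h1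
    refine (mul_eq_zero.1 h1).resolve_left ?_
    rw [card_univ]
    exact_mod_cast Fintype.card_ne_zero
  have hΦT : ∀ τ : G, ∑ s ∈ Φ ∩ T, ν (τ • s) = 0 := by
    intro τ
    have h5 := hsplit (fun s => ν (τ • s)) (fun s => by rw [← hcG, hodd])
    rw [hν τ, hTsum τ] at h5
    linarith
  -- Sylow subgroup of `N`
  obtain ⟨Q⟩ : Nonempty (Sylow q N) := inferInstance
  have hQ : ∀ (s : S), ∀ x ∈ N, ∃ y : Q, y • s = x • s := by
    intro s x hx
    have h1 := sylow_orbit Q s m (dvd_of_eq (hN s).symm)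
    have hsub : MulAction.orbit Q s ⊆ MulAction.orbit N s := by
      rintro _ ⟨g, rfl⟩
      exact ⟨g.1, rfl⟩
    have heq : MulAction.orbit Q s = MulAction.orbit N s := by
      apply Set.eq_of_subset_of_ncard_le hsub
      rw [← Nat.card_coe_set_eq, ← Nat.card_coe_set_eq, hN]
      refine Nat.le_of_dvd ?_ h1
      have : Nonempty (MulAction.orbit Q s) := ⟨⟨s, MulAction.mem_orbit_self s⟩⟩
      exact Nat.card_pos
    have h2 : x • s ∈ MulAction.orbit Q s := by
      rw [heq]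
      exact ⟨⟨x, hx⟩, rfl⟩
    exact h2
  refine descent (fun u => (∀ s, u (c s) = - u s) ∧ (∀ τ : G, ∑ s ∈ Φ ∩ T, u (τ • s) = 0))
    q hq2 ?_ ?_ ν ⟨hodd, hΦT⟩ s
  · rintro u ⟨h1, h2⟩ s
    by_contra hne
    let M : AddSubgroup (S → ZMod q) :=
      { carrier := {f | (∀ s, f (c s) = - f s) ∧ ∀ τ : G, ∑ s ∈ Φ ∩ T, f (τ • s) = 0}
        add_mem' := (by
          rintro f f' ⟨h1, h2⟩ ⟨h1', h2'⟩
          refine ⟨fun s => ?_, fun τ => ?_⟩
          · rw [Pi.add_apply, Pi.add_apply, h1, h1']; ring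
          · simp only [Pi.add_apply, Finset.sum_add_distrib, h2 τ, h2' τ, add_zero])
        zero_mem' := ⟨fun s => by simp, fun τ => by simp⟩
        neg_mem' := (by
          rintro f ⟨h1, h2⟩
          refine ⟨fun s => ?_, fun τ => ?_⟩
          · rw [Pi.neg_apply, Pi.neg_apply, h1]
          · simp only [Pi.neg_apply, Finset.sum_neg_distrib, h2 τ, neg_zero]) }
    obtain ⟨f, hfM, hf0, hfQ⟩ := exists_fixed ((Q : Subgroup N).map N.subtype)
      (Q.isPGroup'.map _) M (by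
      rintro x _ f ⟨h1, h2⟩
      refine ⟨fun s => ?_, fun τ => ?_⟩
      · change f (x • c s) = - f (x • s)
        rw [← hcG, h1]
      · have := h2 (x * τ)
        simpa only [mul_smul] using this) (fun s => ((u s : ℤ) : ZMod q))
      ⟨fun s => by
        change ((u (c s) : ℤ) : ZMod q) = _
        rw [h1]; push_cast; rfl, fun τ => hcast u _ τ (by rw [h2 τ]; exact dvd_zero _)⟩
      (fun h => hne ((ZMod.intCast_zmod_eq_zero_iff_dvd _ _).1 (congrFun h s)))
    apply hf0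
    refine hsig f hfM.1 (fun x hx s => ?_) hfM.2
    obtain ⟨y, hy⟩ := hQ s x hx
    rw [← hy]
    exact hfQ ((y : N) : G) ⟨y.1, y.2, rfl⟩ s
  · rintro u u' ⟨h1, h3⟩ h4
    refine ⟨fun s => ?_, fun τ => ?_⟩
    · have := h1 s
      rw [h4, h4 s, ← mul_neg] at this
      exact mul_left_cancel₀ hq0 this
    · have := h3 τ
      simp only [h4, ← Finset.mul_sum] at this
      exact (mul_eq_zero.1 this).resolve_left hq0

end Pool.Agent.CMT.Large
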