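import Pool.Agent.Lib_helper86.CMT.LargeK
import Pool.Agent.Lib_helper86.CMT.Normal1

set_option autoImplicit false
set_option linter.unusedSectionVars false

/-!
CM types of `K` relative to a subfield `F` which is Galois over `ℚ`.
-/

open NumberField

namespace Pool.Agent.CMT

variable {K : Type} [Field K] [NumberField K]
variable {L : Type} [Field L] [NumberField L] [Algebra K L] [IsGalois ℚ L]
variable (F : IntermediateField ℚ K)

/-- the elements of `Gal(L/ℚ)` fixing all images of `F` in `L` -/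
def NF (L : Type) [Field L] [NumberField L] : Subgroup Gal(L/ℚ) where
  carrier := {g | ∀ s : K →ₐ[ℚ] L, ∀ x ∈ F, g (s x) = s x}
  one_mem' := fun s x _ => rfl
  mul_mem' := by
    intro g h hg hh s x hx
    simp only [Set.mem_ofPred_eq] at hg hh
    rw [AlgEquiv.mul_apply, hh s x hx, hg s x hx]
  inv_mem' := by
    intro g hg s x hx
    simp only [Set.mem_ofPred_eq] at hg
    have h1 : g⁻¹ (g (s x)) = s x := g.symm_apply_apply _
    rwa [hg s x hx] at h1

theorem mem_NF (g : Gal(L/ℚ)) : g ∈ NF F L ↔ ∀ s : K →ₐ[ℚ] L, ∀ x ∈ F, g (s x) = s x := Iff.rfl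

instance : (NF F L).Normal := ⟨by
  intro g hg τ s x hx
  have h1 := hg (((τ⁻¹ : Gal(L/ℚ)) : L →ₐ[ℚ] L).comp s) x hx
  have h2 : ((((τ⁻¹ : Gal(L/ℚ)) : L →ₐ[ℚ] L).comp s) x) = τ⁻¹ (s x) := rfl
  rw [h2] at h1
  rw [AlgEquiv.mul_apply, AlgEquiv.mul_apply, h1]
  exact τ.apply_symm_apply _⟩

/-- two embeddings of `K` which agree on the Galois subfield `F` are conjugate under `NF` -/
theorem NF_trans [IsGalois ℚ F] (s t : K →ₐ[ℚ] L) (h : ∀ x ∈ F, s x = t x) :
    ∃ g ∈ NF F L, (g : L →ₐ[ℚ] L).comp s = t := by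
  obtain ⟨g, hg⟩ := gal_trans s t
  refine ⟨g, fun s' x hx => ?_, hg⟩
  obtain ⟨g1, hg1⟩ := exists_lift s
  obtain ⟨g2, hg2⟩ := exists_lift s'
  let k : Gal(L/ℚ) := g1⁻¹ * g2
  let σ : F ≃ₐ[ℚ] F := k.restrictNormal F
  have hσ : ∀ y : F, algebraMap K L (σ y : K) = k (algebraMap K L (y : K)) := fun y =>
    AlgEquiv.restrictNormal_commutes k F y
  have hs : ∀ y : K, s y = g1 (algebraMap K L y) := fun y => by rw [← hg1]; rfl
  have hs' : ∀ y : K, s' y = g2 (algebraMap K L y) := fun y => by rw [← hg2]; rfl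
  have h1 : s' x = s (σ ⟨x, hx⟩ : K) := by
    rw [hs, hσ, hs']
    change _ = g1 (g1⁻¹ (g2 (algebraMap K L x)))
    exact (g1.apply_symm_apply _).symm
  have h2 := h _ (σ ⟨x, hx⟩).2
  rw [← hg] at h2
  change s (σ ⟨x, hx⟩ : K) = g (s (σ ⟨x, hx⟩ : K)) at h2
  rw [h1]
  exact h2.symm

theorem card_over : Nat.card {t : K →ₐ[ℚ] L // ∀ x ∈ F, t x = algebraMap K L x}
    = Module.finrank F K := by
  have h1 : Nat.card (K →ₐ[F] L) = Module.finrank F K := by
    refine AlgHom.natCard_of_splits F K L fun x => ?_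
    have h2 := minpoly.dvd_map_of_isScalarTower ℚ F x
    have h3 := Polynomial.map_dvd (algebraMap F L) h2
    rw [Polynomial.map_map, ← IsScalarTower.algebraMap_eq ℚ F L] at h3
    refine Polynomial.Splits.of_dvd (splits_of_normal (L := L) x) ?_ h3
    exact (Polynomial.map_ne_zero (minpoly.ne_zero (Algebra.IsIntegral.isIntegral x)))
  rw [← h1]
  refine Nat.card_congr ⟨fun t => { t.1 with commutes' := fun y => t.2 y y.2 },
    fun t => ⟨t.restrictScalars ℚ, fun x hx => t.commutes ⟨x, hx⟩⟩, fun t => ?_, fun t => ?_⟩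
  · apply Subtype.ext
    ext x
    rfl
  · ext x
    rfl

theorem card_fiber (s : K →ₐ[ℚ] L) : Nat.card {t : K →ₐ[ℚ] L // ∀ x ∈ F, t x = s x}
    = Module.finrank F K := by
  rw [← card_over (L := L) F]
  obtain ⟨g, hg⟩ := exists_lift s
  have hs : ∀ y : K, s y = g (algebraMap K L y) := fun y => by rw [← hg]; rfl
  refine Nat.card_congr ⟨fun t => ⟨((g⁻¹ : Gal(L/ℚ)) : L →ₐ[ℚ] L).comp t.1, fun x hx => ?_⟩,
    fun t => ⟨(g : L →ₐ[ℚ] L).comp t.1, fun x hx => ?_⟩, fun t => ?_, fun t => ?_⟩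
  · change g⁻¹ (t.1 x) = _
    rw [t.2 x hx, hs]
    exact g.symm_apply_apply _
  · change g (t.1 x) = _
    rw [t.2 x hx, hs]
  · apply Subtype.ext
    ext x
    exact g.apply_symm_apply _
  · apply Subtype.ext
    ext x
    exact g.symm_apply_apply _

theorem NF_orbit [IsGalois ℚ F] (s : K →ₐ[ℚ] L) :
    letI := galAct K L
    Nat.card (MulAction.orbit (NF F L) s) = Module.finrank F K := by
  let _ := galAct K L
  rw [← card_fiber (L := L) F s]
  refine Nat.card_congr (Equiv.subtypeEquivRight fun t => ?_)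
  constructor
  · rintro ⟨g, rfl⟩ x hx
    exact g.2 s x hx
  · intro h
    obtain ⟨g, hg, hgt⟩ := NF_trans F s t fun x hx => (h x hx).symm
    exact ⟨⟨g, hg⟩, hgt⟩

variable [IsCMField K]

/-- flipping one embedding of a CM type lifted from a Galois CM subfield of index at least `3` -/
theorem nondeg_one_flip [IsGalois ℚ F] (h3 : 3 ≤ Module.finrank F K)
    (T : Finset (K →ₐ[ℚ] L)) (hT : IsCMType T)
    (hTF : ∀ s t : K →ₐ[ℚ] L, (∀ x ∈ F, s x = t x) → s ∈ T → t ∈ T)
    (s₀ : K →ₐ[ℚ] L) (hs₀ : s₀ ∈ T) (Φ : Finset (K →ₐ[ℚ] L))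
    (hΦ : ∀ s, s ∈ Φ ↔ (s ∈ T ∧ s ≠ s₀) ∨ s = s₀.comp (conjK K)) :
    IsCMType Φ ∧ Nondegenerate Φ := by
  classical
  have hΦ' : Φ = insert (cj s₀) (T.erase s₀) := by
    ext s
    rw [hΦ, Finset.mem_insert, Finset.mem_erase, or_comm, and_comm]
    rfl
  have hcm : IsCMType Φ := by
    intro s
    have h1 := hT s
    change s ∈ T ↔ cj s ∉ T at h1
    change s ∈ Φ ↔ cj s ∉ Φ
    rw [hΦ' , Finset.mem_insert, Finset.mem_erase, Finset.mem_insert, Finset.mem_erase]
    by_cases h2 : s = s₀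
    · subst h2
      have h3 : cj s ∉ T := h1.1 hs₀
      simp only [ne_eq, not_true_eq_false, false_and, or_false, (cj_ne s).symm, cj_ne s,
        not_false_eq_true, true_and, h3, not_true_eq_false]
    · by_cases h3 : s = cj s₀
      · subst h3
        simp only [true_or, cj_cj, ne_eq, not_true_eq_false, false_and, or_false,
          (cj_ne s₀).symm, not_false_eq_true]
      · have h4 : cj s ≠ s₀ := by
          intro h
          apply h3
          rw [← h, cj_cj]
        have h5 : cj s ≠ cj s₀ := fun h => h2 (cj_inj h)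
        simp only [h3, h2, h4, h5, ne_eq, not_false_eq_true, true_and, false_or]
        exact h1
  refine ⟨hcm, ?_⟩
  let _ := galAct K L
  intro n hn s
  have hz := Large.one_flip (G := Gal(L/ℚ)) (S := K →ₐ[ℚ] L) cj cj_cj (fun g s => rfl)
    (fun s t => gal_trans s t) (NF F L) (Module.finrank F K) h3 (fun s => NF_orbit F s) T hT
    (fun g hg s hs => hTF s _ (fun x hx => (hg s x hx).symm) hs) s₀ hs₀
    (fun s => n s - n (cj s)) (fun s => by simp only [cj_cj]; ring) (fun τ => by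
      rw [← hΦ', Finset.sum_sub_distrib, sub_eq_zero]
      exact hn τ) s
  change n (cj s) = n s
  linarith

/-- nondegeneracy of the signature over a Galois CM subfield modulo `q`, `[K : F] = q ^ m` -/
theorem nondeg_signature [IsGalois ℚ F] {q m : ℕ} (hq : q.Prime) (hm : m ≠ 0) (hqm : q ^ m ≠ 2)
    (hF : Module.finrank F K = q ^ m)
    (T : Finset (K →ₐ[ℚ] L)) (hT : IsCMType T)
    (hTF : ∀ s t : K →ₐ[ℚ] L, (∀ x ∈ F, s x = t x) → s ∈ T → t ∈ T)
    (Φ : Finset (K →ₐ[ℚ] L)) (hΦ : IsCMType Φ)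
    (hsig : ∀ f : (K →ₐ[ℚ] L) → ZMod q, (∀ s, f (s.comp (conjK K)) = - f s) →
      (∀ s t : K →ₐ[ℚ] L, (∀ x ∈ F, s x = t x) → f s = f t) →
      (∀ τ : Gal(L/ℚ), ∑ s ∈ Φ.filter (· ∈ T), f ((τ : L →ₐ[ℚ] L).comp s) = 0) → f = 0) :
    Nondegenerate Φ := by
  classical
  have : Fact q.Prime := ⟨hq⟩
  let _ := galAct K L
  intro n hn s
  have hz := Large.signature (G := Gal(L/ℚ)) (S := K →ₐ[ℚ] L) cj cj_cj (fun g s => rfl) (NF F L)
    (q := q) (m := m) hm hqm (fun s => by rw [← hF]; exact NF_orbit F s) T hT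
    (fun g hg s hs => hTF s _ (fun x hx => (hg s x hx).symm) hs) Φ hΦ
    (fun f h1 h2 h4 => hsig f h1 (fun s t hst => by
      obtain ⟨g, hg, hgt⟩ := NF_trans F s t hst
      rw [← hgt]
      exact (h2 g hg s).symm) (fun τ => by
      have h5 : Φ.filter (· ∈ T) = Φ ∩ T := by
        ext s; simp only [Finset.mem_filter, Finset.mem_inter]
      rw [h5]
      exact h4 τ))
    (fun s => n s - n (cj s)) (fun s => by simp only [cj_cj]; ring) (fun τ => by
      rw [Finset.sum_sub_distrib, sub_eq_zero]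
      exact hn τ) s
  change n (cj s) = n s
  linarith

theorem conj_mem [IsGalois ℚ F] {x : K} (hx : x ∈ F) : conjK K x ∈ F := by
  let χ : K ≃ₐ[ℚ] K := (IsCMField.complexConj K).restrictScalars ℚ
  have h1 := AlgEquiv.restrictNormal_commutes χ F ⟨x, hx⟩
  have h2 : conjK K x = (χ.restrictNormal F ⟨x, hx⟩ : K) := h1.symm
  rw [h2]
  exact (χ.restrictNormal F ⟨x, hx⟩).2

/-- a CM type lifted from `F` exists -/
theorem exists_lifted [IsGalois ℚ F] (hFc : ∃ x ∈ F, conjK K x ≠ x) :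
    ∃ T : Finset (K →ₐ[ℚ] L), IsCMType T ∧
      ∀ s t : K →ₐ[ℚ] L, (∀ x ∈ F, s x = t x) → s ∈ T → t ∈ T := by
  classical
  let e := Fintype.equivFin (F →ₐ[ℚ] L)
  have hne : ∀ s : K →ₐ[ℚ] L, s.comp F.val ≠ (cj s).comp F.val := by
    intro s h
    obtain ⟨x, hx, hx'⟩ := hFc
    have h1 := congrArg (fun f : F →ₐ[ℚ] L => f ⟨x, hx⟩) h
    have h2 : s x = s (conjK K x) := h1
    exact hx' (s.injective h2).symm
  refine ⟨Finset.univ.filter fun s => e (s.comp F.val) < e ((cj s).comp F.val), ?_, ?_⟩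
  · intro s
    change _ ↔ cj s ∉ _
    simp only [Finset.mem_filter, Finset.mem_univ, true_and, cj_cj, not_lt]
    constructor
    · intro h; exact h.le
    · intro h; exact lt_of_le_of_ne h (fun h' => hne s (e.injective h'))
  · intro s t hst hs
    simp only [Finset.mem_filter, Finset.mem_univ, true_and] at hs ⊢
    have h1 : s.comp F.val = t.comp F.val := by
      ext x
      exact hst x x.2
    have h2 : (cj s).comp F.val = (cj t).comp F.val := by
      ext x
      exact hst _ (conj_mem F x.2)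
    exact lt_of_eq_of_lt (congrArg e h1).symm (lt_of_lt_of_eq hs (congrArg e h2))

/-- explicit signatures -/
theorem sig_explicit [IsGalois ℚ F] {q m : ℕ} (hq : q.Prime) (hm : m ≠ 0)
    (hF : Module.finrank F K = q ^ m)
    (T : Finset (K →ₐ[ℚ] L)) (hT : IsCMType T)
    (hTF : ∀ s t : K →ₐ[ℚ] L, (∀ x ∈ F, s x = t x) → s ∈ T → t ∈ T)
    (Φ : Finset (K →ₐ[ℚ] L)) (hΦ : IsCMType Φ) (s₀ : K →ₐ[ℚ] L)
    (h0 : ¬ q ∣ Nat.card {t : K →ₐ[ℚ] L // t ∈ Φ ∧ ∀ x ∈ F, t x = s₀ x})
    (h1 : ∀ s : K →ₐ[ℚ] L, (¬ ∀ x ∈ F, s x = s₀ x) → (¬ ∀ x ∈ F, s x = s₀ (conjK K x)) →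
      q ∣ Nat.card {t : K →ₐ[ℚ] L // t ∈ Φ ∧ ∀ x ∈ F, t x = s x})
    (f : (K →ₐ[ℚ] L) → ZMod q) (hodd : ∀ s, f (s.comp (conjK K)) = - f s)
    (hinv : ∀ s t : K →ₐ[ℚ] L, (∀ x ∈ F, s x = t x) → f s = f t)
    (hf : ∀ τ : Gal(L/ℚ), ∑ s ∈ Φ.filter (· ∈ T), f ((τ : L →ₐ[ℚ] L).comp s) = 0) : f = 0 := by
  classical
  have : Fact q.Prime := ⟨hq⟩
  let N : (K →ₐ[ℚ] L) → ℕ := fun s => (Φ.filter fun t => ∀ x ∈ F, t x = s x).card
  have hNcard : ∀ s, Nat.card {t : K →ₐ[ℚ] L // t ∈ Φ ∧ ∀ x ∈ F, t x = s x} = N s := by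
    intro s
    rw [Nat.card_eq_fintype_card, Fintype.card_subtype]
    congr 1
    ext t
    simp only [Finset.mem_filter, Finset.mem_univ, true_and]
  -- multiplicities of conjugate embeddings
  have hNc : ∀ s, N s + N (cj s) = q ^ m := by
    intro s
    rw [← hF, ← card_fiber (L := L) F s, Nat.card_eq_fintype_card, Fintype.card_subtype]
    rw [← Finset.card_filter_add_card_filter_not
      (s := Finset.univ.filter fun t : K →ₐ[ℚ] L => ∀ x ∈ F, t x = s x) (fun t => t ∈ Φ)]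
    congr 1
    · refine congrArg Finset.card ?_
      ext t
      simp only [Finset.mem_filter, Finset.mem_univ, true_and]
      exact and_comm
    · change (Φ.filter fun t => ∀ x ∈ F, t x = (cj s) x).card = _
      refine Finset.card_bij' (fun t _ => cj t) (fun t _ => cj t) ?_ ?_ ?_ ?_
      · intro t ht
        simp only [Finset.mem_filter, Finset.mem_univ, true_and] at ht ⊢
        refine ⟨fun x hx => ?_, (hΦ t).1 ht.1⟩
        rw [cj_apply, ht.2 _ (conj_mem F hx)]
        change s (conjK K (conjK K x)) = s x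
        rw [show conjK K (conjK K x) = x from IsCMField.complexConj_apply_apply K x]
      · intro t ht
        simp only [Finset.mem_filter, Finset.mem_univ, true_and] at ht ⊢
        refine ⟨?_, fun x hx => ?_⟩
        · by_contra h'
          exact ht.2 ((hΦ t).2 h')
        · rw [cj_apply, ht.1 _ (conj_mem F hx)]
          rfl
      · intro t _; exact cj_cj t
      · intro t _; exact cj_cj t
  -- a representative in `T`
  obtain ⟨s₁, hs₁T, hs₁N, hs₁⟩ : ∃ s₁ ∈ T, ¬ q ∣ N s₁ ∧ ∀ s ∈ T, (¬ ∀ x ∈ F, s x = s₁ x) →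
      q ∣ N s := by
    have hTne : ∀ s t, s ∈ T → (∀ x ∈ F, s x = t x) → t ∈ T := fun s t h1 h2 => hTF s t h2 h1
    by_cases hs₀ : s₀ ∈ T
    · refine ⟨s₀, hs₀, by rw [← hNcard]; exact h0, fun s hs hne => ?_⟩
      rw [← hNcard]
      refine h1 s hne fun h => ?_
      have h2 : cj s₀ ∈ T := hTne s (cj s₀) hs h
      exact (hT s₀).1 hs₀ h2
    · have hcs₀ : cj s₀ ∈ T := by
        by_contra h'
        exact hs₀ ((hT s₀).2 h')
      refine ⟨cj s₀, hcs₀, ?_, fun s hs hne => ?_⟩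
      · intro h
        apply h0
        rw [hNcard]
        have h2 := hNc s₀
        have h3 : q ∣ q ^ m := dvd_pow_self q hm
        rw [← h2] at h3
        exact (Nat.dvd_add_left h).1 h3
      · rw [← hNcard]
        refine h1 s (fun h => hs₀ (hTne s s₀ hs h)) fun h => hne h
  -- the sum
  have hsum : ∀ τ : Gal(L/ℚ), ∑ s ∈ Φ.filter (· ∈ T), f ((τ : L →ₐ[ℚ] L).comp s)
      = N s₁ * f ((τ : L →ₐ[ℚ] L).comp s₁) := by
    intro τ
    have hinvτ : ∀ s t : K →ₐ[ℚ] L, (∀ x ∈ F, s x = t x) →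
        f ((τ : L →ₐ[ℚ] L).comp s) = f ((τ : L →ₐ[ℚ] L).comp t) := by
      intro s t h
      refine hinv _ _ fun x hx => ?_
      rw [AlgHom.comp_apply, AlgHom.comp_apply, h x hx]
    rw [← Finset.sum_fiberwise (Φ.filter (· ∈ T)) (fun s => s.comp F.val)]
    rw [Finset.sum_eq_single (s₁.comp F.val)]
    · have h2 : (Φ.filter (· ∈ T)).filter (fun s => s.comp F.val = s₁.comp F.val)
          = Φ.filter fun t => ∀ x ∈ F, t x = s₁ x := by
        ext t
        simp only [Finset.mem_filter]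
        constructor
        · rintro ⟨⟨h3, _⟩, h4⟩
          exact ⟨h3, fun x hx => congrArg (fun f : F →ₐ[ℚ] L => f ⟨x, hx⟩) h4⟩
        · rintro ⟨h3, h4⟩
          refine ⟨⟨h3, hTF s₁ t (fun x hx => (h4 x hx).symm) hs₁T⟩, ?_⟩
          ext x
          exact h4 x x.2
      rw [h2, Finset.sum_congr rfl (fun t ht => hinvτ t s₁ (Finset.mem_filter.1 ht).2),
        Finset.sum_const, nsmul_eq_mul]
    · intro φ _ hφ
      rcases ((Φ.filter (· ∈ T)).filter (fun s => s.comp F.val = φ)).eq_empty_or_nonempty with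
        he | ⟨s, hs⟩
      · rw [he, Finset.sum_empty]
      · obtain ⟨hs1, hs2⟩ := Finset.mem_filter.1 hs
        obtain ⟨hs3, hs4⟩ := Finset.mem_filter.1 hs1
        subst hs2
        have h2 : (Φ.filter (· ∈ T)).filter (fun t => t.comp F.val = s.comp F.val)
            = Φ.filter fun t => ∀ x ∈ F, t x = s x := by
          ext t
          simp only [Finset.mem_filter]
          constructor
          · rintro ⟨⟨h3, _⟩, h4⟩
            exact ⟨h3, fun x hx => congrArg (fun f : F →ₐ[ℚ] L => f ⟨x, hx⟩) h4⟩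
          · rintro ⟨h3, h4⟩
            refine ⟨⟨h3, hTF s t (fun x hx => (h4 x hx).symm) hs4⟩, ?_⟩
            ext x
            exact h4 x x.2
        rw [h2, Finset.sum_congr rfl (fun t ht => hinvτ t s (Finset.mem_filter.1 ht).2),
          Finset.sum_const, nsmul_eq_mul]
        have h5 : q ∣ N s := hs₁ s hs4 fun h => hφ (by
          ext x
          exact h x x.2)
        have h6 : ((N s : ℕ) : ZMod q) = 0 := (ZMod.natCast_eq_zero_iff _ _).2 h5
        change ((N s : ℕ) : ZMod q) * _ = 0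
        rw [h6, zero_mul]
    · intro h
      exact absurd (Finset.mem_univ _) h
  funext t
  obtain ⟨τ, rfl⟩ := gal_trans s₁ t
  have h2 := hf τ
  rw [hsum τ] at h2
  refine (mul_eq_zero.1 h2).resolve_left fun h => hs₁N ((ZMod.natCast_eq_zero_iff _ _).1 h)

end Pool.Agent.CMT
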