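import Mathlib

set_option autoImplicit false
set_option linter.unusedSectionVars false

/-!
A nondegeneracy criterion for CM types on a finite `G`-set, by reduction modulo a prime `q` and a
`q`-subgroup with only two orbits.
-/

namespace Pool.Agent.CMT

section pgroup

variable {P X : Type} [Group P] [MulAction P X] [Fintype X]

theorem pset_mod [MulAction.IsPretransitive P X] {q : ℕ} [hq : Fact q.Prime] (hP : IsPGroup q P)
    (D : Finset X) (hD : ¬ q ∣ D.card) (μ : X → ZMod q) (hμ : ∀ τ : P, ∑ h ∈ D, μ (τ • h) = 0) :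
    μ = 0 := by
  classical
  let W : AddSubgroup (X → ZMod q) :=
    { carrier := {μ | ∀ τ : P, ∑ h ∈ D, μ (τ • h) = 0}
      add_mem' := (by
        intro x y hx hy τ
        simp only [Set.mem_ofPred_eq] at hx hy
        simp only [Pi.add_apply, Finset.sum_add_distrib, hx τ, hy τ, add_zero])
      zero_mem' := (by intro τ; simp)
      neg_mem' := (by
        intro x hx τ
        simp only [Set.mem_ofPred_eq] at hx
        simp only [Pi.neg_apply, Finset.sum_neg_distrib, hx τ, neg_zero]) }
  let act : MulAction P W :=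
    { smul := fun g x => ⟨fun h => x.1 (g⁻¹ • h), fun τ => by
        have := x.2 (g⁻¹ * τ)
        simpa only [mul_smul] using this⟩
      one_smul := (by
        intro x
        apply Subtype.ext
        funext h
        change x.1 ((1 : P)⁻¹ • h) = x.1 h
        simp)
      mul_smul := (by
        intro g g' x
        apply Subtype.ext
        funext h
        change x.1 ((g * g')⁻¹ • h) = x.1 (g'⁻¹ • (g⁻¹ • h))
        rw [mul_inv_rev, mul_smul]) }
  have hsmul : ∀ (g : P) (x : W) (h : X), (g • x).1 h = x.1 (g⁻¹ • h) := fun _ _ _ => rfl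
  by_contra hne
  let w : W := ⟨μ, hμ⟩
  have hw : w ≠ 0 := fun h => hne (congrArg Subtype.val h)
  have hord : addOrderOf w = q := by
    apply addOrderOf_eq_prime _ hw
    apply Subtype.ext
    funext h
    change (q • μ) h = 0
    simp
  have hdvd : q ∣ Nat.card W := (dvd_of_eq hord.symm).trans (addOrderOf_dvd_natCard w)
  have hfix0 : (0 : W) ∈ MulAction.fixedPoints P W := by
    intro g
    apply Subtype.ext
    funext h
    rw [hsmul]
    rfl
  obtain ⟨b, hb, hb0⟩ := hP.exists_fixed_point_of_prime_dvd_card_of_fixed_point W hdvd hfix0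
  have hconst : ∀ h h', b.1 h = b.1 h' := by
    intro h h'
    obtain ⟨g, hg⟩ := MulAction.exists_smul_eq P h h'
    have h1 := hsmul g b h'
    rw [hb g, ← hg, inv_smul_smul] at h1
    rw [← hg]
    exact h1.symm
  rcases isEmpty_or_nonempty X with hX | ⟨⟨x0⟩⟩
  · exact hne (Subsingleton.elim _ _)
  have h2 := b.2 1
  simp only [fun h => hconst h x0] at h2
  rw [Finset.sum_const, nsmul_eq_mul] at h2
  rcases mul_eq_zero.1 h2 with h3 | h3
  · exact hD ((ZMod.natCast_eq_zero_iff _ _).1 h3)
  · apply hb0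
    apply Subtype.ext
    funext h
    rw [hconst h x0, h3]
    rfl

theorem pset_int [MulAction.IsPretransitive P X] {q : ℕ} [hq : Fact q.Prime] (hP : IsPGroup q P)
    (D : Finset X) (hD : ¬ q ∣ D.card) (ν : X → ℤ) (hν : ∀ τ : P, ∑ h ∈ D, ν (τ • h) = 0) :
    ν = 0 := by
  have key : ∀ (k : ℕ) (ν : X → ℤ), (∀ τ : P, ∑ h ∈ D, ν (τ • h) = 0) →
      ∀ h, (q : ℤ) ^ k ∣ ν h := by
    intro k
    induction k with
    | zero => intro ν _ h; simp
    | succ k ih =>
      intro ν hν h
      have h1 := pset_mod hP D hD (fun h => (ν h : ZMod q)) (fun τ => by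
        have := congrArg (Int.cast : ℤ → ZMod q) (hν τ)
        push_cast at this
        exact this)
      have h2 : ∀ h, (q : ℤ) ∣ ν h := fun h => by
        have := congrFun h1 h
        exact (ZMod.intCast_zmod_eq_zero_iff_dvd _ _).1 this
      choose ν' hν' using h2
      have hq0 : (q : ℤ) ≠ 0 := by exact_mod_cast hq.1.ne_zero
      have h3 := ih ν' (fun τ => by
        have := hν τ
        simp only [hν', ← Finset.mul_sum] at this
        exact (mul_eq_zero.1 this).resolve_left hq0) h
      rw [hν' h, pow_succ, mul_comm]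
      exact mul_dvd_mul_left _ h3
  funext h
  by_contra hne
  have hlt : (2 : ℤ) ^ (ν h).natAbs ≤ (q : ℤ) ^ (ν h).natAbs := by
    apply pow_le_pow_left₀ (by norm_num)
    exact_mod_cast hq.1.two_le
  have h1 := Int.le_of_dvd (abs_pos.2 hne) ((dvd_abs _ _).2 (key (ν h).natAbs ν hν h))
  have h2 : ((ν h).natAbs : ℤ) < 2 ^ (ν h).natAbs := by exact_mod_cast Nat.lt_two_pow_self
  rw [Int.natCast_natAbs] at h2
  linarith

end pgroup

section criterion

variable {G S : Type} [Group G] [MulAction G S] [Fintype S] [DecidableEq S]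

/-- the criterion -/
theorem gset_criterion (c : S → S) (hcc : ∀ s, c (c s) = s) (hcG : ∀ (g : G) s, c (g • s) = g • c s)
    (Φ : Finset S) (hΦ : ∀ s, s ∈ Φ ↔ c s ∉ Φ) (q : ℕ) (hq : q.Prime) (P : Subgroup G)
    (hP : IsPGroup q P) (O : Finset S) (hOP : ∀ (g : P), ∀ s ∈ O, g • s ∈ O)
    (hOt : ∀ s ∈ O, ∀ t ∈ O, ∃ g : P, g • s = t)
    (hOc : ∀ s, s ∈ O ↔ c s ∉ O)
    (hqb : ¬ q ∣ (O \ Φ).card) (hab : (O ∩ Φ).card ≠ (O \ Φ).card)
    (n : S → ℤ) (hn : ∀ τ : G, ∑ s ∈ Φ, n (τ • s) = ∑ s ∈ Φ, n (τ • c s)) (s : S) :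
    n (c s) = n s := by
  classical
  have : Fact q.Prime := ⟨hq⟩
  let ν : S → ℤ := fun s => n s - n (c s)
  have hodd : ∀ s, ν (c s) = - ν s := by
    intro s
    simp only [ν, hcc]
    ring
  have hν : ∀ τ : G, ∑ s ∈ Φ, ν (τ • s) = 0 := by
    intro τ
    simp only [ν, Finset.sum_sub_distrib]
    rw [hn τ, sub_eq_zero]
    exact Finset.sum_congr rfl fun s _ => by rw [hcG]
  -- relation on `O`
  have hrel : ∀ τ : G, ∑ s ∈ O ∩ Φ, ν (τ • s) - ∑ s ∈ O \ Φ, ν (τ • s) = 0 := by
    intro τ
    have h1 := hν τ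
    rw [← Finset.sum_filter_add_sum_filter_not Φ (fun s => s ∈ O)] at h1
    have h2 : ∑ s ∈ Φ with s ∈ O, ν (τ • s) = ∑ s ∈ O ∩ Φ, ν (τ • s) := by
      congr 1
      ext s
      simp only [Finset.mem_filter, Finset.mem_inter, and_comm]
    have h3 : ∑ s ∈ Φ with s ∉ O, ν (τ • s) = - ∑ s ∈ O \ Φ, ν (τ • s) := by
      rw [← Finset.sum_neg_distrib]
      refine Finset.sum_bij' (fun s _ => c s) (fun s _ => c s) ?_ ?_ ?_ ?_ ?_
      · intro s hs
        obtain ⟨h1, h2⟩ := Finset.mem_filter.1 hs
        rw [Finset.mem_sdiff]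
        refine ⟨?_, (hΦ s).1 h1⟩
        by_contra h'
        exact h2 ((hOc s).2 h')
      · intro s hs
        obtain ⟨h1, h2⟩ := Finset.mem_sdiff.1 hs
        rw [Finset.mem_filter]
        refine ⟨?_, (hOc s).1 h1⟩
        by_contra h'
        exact h2 ((hΦ s).2 h')
      · intro s _; exact hcc s
      · intro s _; exact hcc s
      · intro s _
        rw [← hcG, hodd, neg_neg]
    rw [h2, h3] at h1
    linarith
  have hsplit : ∀ f : S → ℤ, ∑ s ∈ O ∩ Φ, f s + ∑ s ∈ O \ Φ, f s = ∑ s ∈ O, f s := by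
    intro f
    rw [← Finset.sum_sdiff (s₁ := O ∩ Φ) (s₂ := O) Finset.inter_subset_left]
    rw [Finset.sdiff_inter_self_left]
    ring
  set T := ∑ s ∈ O, ν s with hT
  have hinv : ∀ τ : P, ∑ s ∈ O, ν (τ • s) = T := by
    intro τ
    rw [hT]
    refine Finset.sum_bij' (fun s _ => τ • s) (fun s _ => τ⁻¹ • s) ?_ ?_ ?_ ?_ ?_
    · intro s hs; exact hOP τ s hs
    · intro s hs; exact hOP τ⁻¹ s hs
    · intro s _; simp
    · intro s _; simp
    · intro s _; rfl
  have hhalf : ∀ τ : P, 2 * ∑ s ∈ O \ Φ, ν (τ • s) = T := by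
    intro τ
    have h1 := hrel τ
    have h2 := hsplit (fun s => ν (τ • s))
    rw [hinv τ] at h2
    have h3 : ∑ s ∈ O ∩ Φ, ν ((τ : G) • s) = ∑ s ∈ O ∩ Φ, ν (τ • s) := rfl
    have h4 : ∑ s ∈ O \ Φ, ν ((τ : G) • s) = ∑ s ∈ O \ Φ, ν (τ • s) := rfl
    rw [h3, h4] at h1
    linarith
  set b := (O \ Φ).card with hb
  set a := (O ∩ Φ).card with ha
  -- action of `P` on `O`
  let act : MulAction P O :=
    { smul := fun g s => ⟨g • s.1, hOP g s.1 s.2⟩
      one_smul := (by intro s; apply Subtype.ext; exact one_smul P s.1)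
      mul_smul := (by intro g h s; apply Subtype.ext; exact mul_smul g h s.1) }
  have hsm : ∀ (g : P) (s : O), ((g • s : O) : S) = g • (s : S) := fun _ _ => rfl
  have htr : MulAction.IsPretransitive P O := ⟨fun s t => by
    obtain ⟨g, hg⟩ := hOt s.1 s.2 t.1 t.2
    exact ⟨g, Subtype.ext hg⟩⟩
  let D : Finset O := Finset.univ.filter fun s => (s : S) ∉ Φ
  have hDsum : ∀ f : S → ℤ, ∑ s ∈ D, f s = ∑ s ∈ O \ Φ, f s := by
    intro f
    refine Finset.sum_bij (fun s _ => (s : S)) ?_ ?_ ?_ ?_
    · intro s hs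
      rw [Finset.mem_sdiff]
      exact ⟨s.2, (Finset.mem_filter.1 hs).2⟩
    · intro s _ t _ h; exact Subtype.ext h
    · intro s hs
      obtain ⟨h1, h2⟩ := Finset.mem_sdiff.1 hs
      exact ⟨⟨s, h1⟩, Finset.mem_filter.2 ⟨Finset.mem_univ _, h2⟩, rfl⟩
    · intro _ _; rfl
  have hDcard : D.card = b := by
    have := hDsum (fun _ => 1)
    simp only [Finset.sum_const, nsmul_eq_mul, mul_one] at this
    exact_mod_cast this
  have hzero := pset_int (P := P) (X := O) hP D (by rw [hDcard]; exact hqb)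
    (fun s => 2 * b * ν s - T) (fun τ => by
      simp only [hsm]
      rw [hDsum (fun s => 2 * b * ν (τ • s) - T)]
      rw [Finset.sum_sub_distrib, ← Finset.mul_sum, Finset.sum_const, nsmul_eq_mul, ← hb]
      have := hhalf τ
      linear_combination (b : ℤ) * this)
  have hO : ∀ s ∈ O, 2 * b * ν s = T := by
    intro s hs
    have := congrFun hzero ⟨s, hs⟩
    simp only [Pi.zero_apply] at this
    linarith
  have hcard : (O.card : ℤ) = a + b := by
    have := hsplit (fun _ => 1)
    simp only [Finset.sum_const, nsmul_eq_mul, mul_one] at this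
    linarith
  have hT0 : T = 0 := by
    have h1 : ∑ s ∈ O, 2 * b * ν s = ∑ s ∈ O, T := Finset.sum_congr rfl hO
    rw [← Finset.mul_sum, ← hT, Finset.sum_const, nsmul_eq_mul, hcard] at h1
    have h2 : ((a : ℤ) - b) * T = 0 := by linear_combination -h1
    rcases mul_eq_zero.1 h2 with h3 | h3
    · exfalso
      apply hab
      have : (a : ℤ) = b := by linarith
      exact_mod_cast this
    · exact h3
  have hb0 : (b : ℤ) ≠ 0 := by
    intro h
    apply hqb
    have : b = 0 := by exact_mod_cast h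
    rw [this]
    exact dvd_zero _
  have hνO : ∀ s ∈ O, ν s = 0 := by
    intro s hs
    have := hO s hs
    rw [hT0] at this
    rcases mul_eq_zero.1 this with h3 | h3
    · exfalso
      rcases mul_eq_zero.1 h3 with h4 | h4
      · norm_num at h4
      · exact hb0 h4
    · exact h3
  have hν1 : ν s = 0 := by
    by_cases hs : s ∈ O
    · exact hνO s hs
    · have h1 : c s ∈ O := by
        by_contra h'
        exact hs ((hOc s).2 h')
      have h2 := hνO _ h1
      rw [hodd] at h2
      linarith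
  simp only [ν] at hν1
  linarith

end criterion

section sylow

variable {G S : Type} [Group G] [Finite G] [MulAction G S] [Finite S]

/-- orbits of Sylow subgroups -/
theorem sylow_orbit {q : ℕ} [Fact q.Prime] (P : Sylow q G) (s : S) (m : ℕ)
    (h : q ^ m ∣ Nat.card (MulAction.orbit G s)) :
    q ^ m ∣ Nat.card (MulAction.orbit P s) := by
  have hq : q.Prime := Fact.out
  have h1 : Nat.card (MulAction.orbit G s) * Nat.card (MulAction.stabilizer G s) = Nat.card G := by
    rw [← Nat.card_prod]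
    exact (Nat.card_congr (MulAction.orbitProdStabilizerEquivGroup G s))
  have h2 : Nat.card (MulAction.orbit P s) * Nat.card (MulAction.stabilizer P s) = Nat.card P := by
    rw [← Nat.card_prod]
    exact (Nat.card_congr (MulAction.orbitProdStabilizerEquivGroup P s))
  have h3 : Nat.card (MulAction.stabilizer P s) ∣ Nat.card (MulAction.stabilizer G s) := by
    let f : MulAction.stabilizer P s →* MulAction.stabilizer G s :=
      { toFun := fun g => ⟨g.1.1, g.2⟩
        map_one' := rfl
        map_mul' := fun _ _ => rfl }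
    exact Subgroup.card_dvd_of_injective f (fun x y hxy => by
      apply Subtype.ext
      apply Subtype.ext
      exact congrArg (fun z : MulAction.stabilizer G s => z.1) hxy)
  have hPcard : Nat.card P = q ^ (Nat.card G).factorization q := P.card_eq_multiplicity
  obtain ⟨i, hi, hi'⟩ := (Nat.dvd_prime_pow hq).1
    ((Dvd.intro _ h2).trans (dvd_of_eq hPcard))
  obtain ⟨j, hj, hj'⟩ := (Nat.dvd_prime_pow hq).1
    ((Dvd.intro_left _ h2).trans (dvd_of_eq hPcard))
  have h4 : i + j = (Nat.card G).factorization q := by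
    rw [hi', hj', hPcard, ← pow_add] at h2
    exact Nat.pow_right_injective hq.two_le h2
  have h5 : q ^ (m + j) ∣ Nat.card G := by
    rw [← h1, pow_add]
    exact mul_dvd_mul h (hj' ▸ h3)
  have h6 : m + j ≤ (Nat.card G).factorization q :=
    (hq.pow_dvd_iff_le_factorization Nat.card_pos.ne').1 h5
  rw [hi']
  exact pow_dvd_pow _ (by omega)

end sylow

end Pool.Agent.CMT
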