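import Pool.Agent.Lib_helper86.CMT.TateP
import Pool.Agent.Lib_helper86.CMT.GSet

set_option autoImplicit false
set_option linter.unusedSectionVars false

open NumberField

namespace Pool.Agent.CMT

section counting

variable {S : Type} [Fintype S] [DecidableEq S]

/-- CM types correspond to subsets of a half system. -/
theorem card_types (c : S → S) (hcc : ∀ s, c (c s) = s) (O : Finset S)
    (hOc : ∀ s, s ∈ O ↔ c s ∉ O) (R : ℕ → Prop) :
    Nat.card {Φ : Finset S // (∀ s, s ∈ Φ ↔ c s ∉ Φ) ∧ R (O \ Φ).card}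
      = Nat.card {D : Finset S // D ⊆ O ∧ R D.card} := by
  classical
  refine Nat.card_congr ⟨fun Φ => ⟨O \ Φ.1, Finset.sdiff_subset, Φ.2.2⟩,
    fun D => ⟨(O \ D.1) ∪ D.1.image c, ?_, ?_⟩, ?_, ?_⟩
  · intro s
    simp only [Finset.mem_union, Finset.mem_sdiff, Finset.mem_image]
    have hD := D.2.1
    by_cases hs : s ∈ O
    · have h1 := (hOc s).1 hs
      have h2 : ¬ ∃ a ∈ D.1, c a = s := by
        rintro ⟨a, ha, rfl⟩
        exact (hOc a).1 (hD ha) hs
      have h3 : (∃ a ∈ D.1, c a = c s) ↔ s ∈ D.1 := by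
        constructor
        · rintro ⟨a, ha, h⟩
          have : a = s := by rw [← hcc a, h, hcc]
          rwa [← this]
        · intro h; exact ⟨s, h, rfl⟩
      simp only [hs, h1, h2, h3, true_and, or_false, false_and, false_or]
    · have h1 : c s ∈ O := by
        by_contra h'
        exact hs ((hOc s).2 h')
      have h2 : ¬ ∃ a ∈ D.1, c a = c s := by
        rintro ⟨a, ha, h⟩
        have : a = s := by rw [← hcc a, h, hcc]
        exact hs (this ▸ hD ha)
      have h3 : (∃ a ∈ D.1, c a = s) ↔ c s ∈ D.1 := by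
        constructor
        · rintro ⟨a, ha, rfl⟩; rwa [hcc]
        · intro h; exact ⟨c s, h, hcc s⟩
      simp only [hs, h1, h2, h3, true_and, or_false, false_and, false_or, not_not]
  · have : O \ ((O \ D.1) ∪ D.1.image c) = D.1 := by
      ext s
      simp only [Finset.mem_union, Finset.mem_sdiff, Finset.mem_image, not_or, not_and, not_not]
      constructor
      · rintro ⟨h1, h2, _⟩; exact h2 h1
      · intro h
        refine ⟨D.2.1 h, fun _ => h, ?_⟩
        rintro ⟨a, ha, rfl⟩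
        exact (hOc a).1 (D.2.1 ha) (D.2.1 h)
    rw [this]
    exact D.2.2
  · intro Φ
    apply Subtype.ext
    have hΦ := Φ.2.1
    ext s
    simp only [Finset.mem_union, Finset.mem_sdiff, Finset.mem_image, not_and, not_not]
    constructor
    · rintro (⟨h1, h2⟩ | ⟨a, ⟨_, h2⟩, rfl⟩)
      · exact h2 h1
      · by_contra h
        exact h2 ((hΦ a).2 h)
    · intro h
      by_cases hs : s ∈ O
      · left; exact ⟨hs, fun _ => h⟩
      · right
        refine ⟨c s, ⟨?_, (hΦ s).1 h⟩, hcc s⟩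
        by_contra h'
        exact hs ((hOc s).2 h')
  · intro D
    apply Subtype.ext
    ext s
    simp only [Finset.mem_union, Finset.mem_sdiff, Finset.mem_image, not_or, not_and, not_not]
    constructor
    · rintro ⟨h1, h2, _⟩; exact h2 h1
    · intro h
      refine ⟨D.2.1 h, fun _ => h, ?_⟩
      rintro ⟨a, ha, rfl⟩
      exact (hOc a).1 (D.2.1 ha) (D.2.1 h)

theorem card_half (c : S → S) (hcc : ∀ s, c (c s) = s) (O : Finset S)
    (hOc : ∀ s, s ∈ O ↔ c s ∉ O) : Fintype.card S = 2 * O.card := by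
  have h1 : Oᶜ.card = O.card := by
    symm
    refine Finset.card_bij' (fun s _ => c s) (fun s _ => c s) ?_ ?_ ?_ ?_
    · intro s hs; rw [Finset.mem_compl]; exact (hOc s).1 hs
    · intro s hs
      rw [Finset.mem_compl] at hs
      by_contra h'
      exact hs ((hOc s).2 h')
    · intro s _; exact hcc s
    · intro s _; exact hcc s
  have := Finset.card_add_card_compl O
  omega

theorem card_subsets (O : Finset S) (R : ℕ → Prop) [DecidablePred R] :
    Nat.card {D : Finset S // D ⊆ O ∧ R D.card}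
      = ∑ j ∈ (Finset.range (O.card + 1)).filter R, O.card.choose j := by
  classical
  have h1 : Nat.card {D : Finset S // D ⊆ O ∧ R D.card}
      = (O.powerset.filter fun D => R D.card).card := by
    rw [Nat.card_eq_fintype_card, Fintype.card_subtype]
    congr 1
    ext D
    simp
  rw [h1]
  have h2 : (O.powerset.filter fun D => R D.card)
      = ((Finset.range (O.card + 1)).filter R).biUnion fun j => Finset.powersetCard j O := by
    ext D
    simp only [Finset.mem_filter, Finset.mem_powerset, Finset.mem_biUnion, Finset.mem_range,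
      Finset.mem_powersetCard]
    constructor
    · rintro ⟨h1, h2⟩
      exact ⟨D.card, ⟨Nat.lt_succ_of_le (Finset.card_le_card h1), h2⟩, h1, rfl⟩
    · rintro ⟨j, ⟨_, h2⟩, h3, rfl⟩
      exact ⟨h3, h2⟩
  rw [h2, Finset.card_biUnion]
  · exact Finset.sum_congr rfl fun j _ => Finset.card_powersetCard _ _
  · intro i _ j _ hij
    rw [Function.onFun, Finset.disjoint_left]
    intro D hD hD'
    rw [Finset.mem_powersetCard] at hD hD'
    exact hij (hD.2.symm.trans hD'.2)

end counting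

variable {K : Type} [Field K] [NumberField K]
variable {L : Type} [Field L] [NumberField L] [Algebra K L] [IsGalois ℚ L]

/-- the Galois action on embeddings -/
@[reducible] def galAct (K L : Type) [Field K] [NumberField K] [Field L] [NumberField L] :
    MulAction Gal(L/ℚ) (K →ₐ[ℚ] L) where
  smul τ s := (τ : L →ₐ[ℚ] L).comp s
  one_smul s := by ext x; rfl
  mul_smul g h s := by ext x; rfl

theorem card_emb : Fintype.card (K →ₐ[ℚ] L) = Module.finrank ℚ K :=
  AlgHom.card_of_splits ℚ K L (fun x => splits_of_normal x)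

theorem gal_trans (s t : K →ₐ[ℚ] L) : ∃ g : Gal(L/ℚ), (g : L →ₐ[ℚ] L).comp s = t := by
  obtain ⟨g, rfl⟩ := exists_lift s
  obtain ⟨h, rfl⟩ := exists_lift t
  refine ⟨h * g⁻¹, ?_⟩
  ext x
  change h (g⁻¹ (g (algebraMap K L x))) = h (algebraMap K L x)
  congr 1
  exact g.symm_apply_apply _

variable [IsCMField K]

theorem nondeg_criterion (Φ : Finset (K →ₐ[ℚ] L)) (hΦ : IsCMType Φ) (q : ℕ) (hq : q.Prime)
    (P : Subgroup Gal(L/ℚ)) (hP : IsPGroup q P) (O : Finset (K →ₐ[ℚ] L))
    (hOP : ∀ g ∈ P, ∀ s ∈ O, (g : L →ₐ[ℚ] L).comp s ∈ O)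
    (hOt : ∀ s ∈ O, ∀ t ∈ O, ∃ g ∈ P, (g : L →ₐ[ℚ] L).comp s = t)
    (hOc : ∀ s, s ∈ O ↔ cj s ∉ O)
    (hqb : ¬ q ∣ (O \ Φ).card) (hab : (O ∩ Φ).card ≠ (O \ Φ).card) : Nondegenerate Φ := by
  intro n hn s
  let _ := galAct K L
  exact gset_criterion (G := Gal(L/ℚ)) (S := K →ₐ[ℚ] L) cj cj_cj (fun g s => rfl) Φ hΦ q hq P hP O
    (fun g s hs => hOP g.1 g.2 s hs)
    (fun s hs t ht => by
      obtain ⟨g, hg, h⟩ := hOt s hs t ht
      exact ⟨⟨g, hg⟩, h⟩) hOc hqb hab n hn s

theorem cj_ne (s : K →ₐ[ℚ] L) : cj s ≠ s := by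
  intro h
  apply IsCMField.complexConj_ne_one K
  ext x
  have := congrArg (fun f : K →ₐ[ℚ] L => f x) h
  simp only [cj_apply] at this
  exact s.injective this

/-- `K ⊇ E` imaginary quadratic, `[K : ℚ] = 2 q ^ m`: the embeddings extending a given one of `E`
form one orbit of a `q`-subgroup. -/
theorem exists_P_E {q m : ℕ} (hq : q.Prime) (hK : Module.finrank ℚ K = 2 * q ^ m)
    (E : IntermediateField ℚ K) (hE : Module.finrank ℚ E = 2) (hEc : ∃ x ∈ E, conjK K x ≠ x)
    (s0 : K →ₐ[ℚ] L) (O : Finset (K →ₐ[ℚ] L)) (hO : ∀ s, s ∈ O ↔ ∀ x ∈ E, s x = s0 x) :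
    (∀ s, s ∈ O ↔ cj s ∉ O) ∧ O.card = q ^ m ∧ ∃ P : Subgroup Gal(L/ℚ), IsPGroup q P ∧
      (∀ g ∈ P, ∀ s ∈ O, (g : L →ₐ[ℚ] L).comp s ∈ O) ∧
      (∀ s ∈ O, ∀ t ∈ O, ∃ g ∈ P, (g : L →ₐ[ℚ] L).comp s = t) := by
  classical
  have : Fact q.Prime := ⟨hq⟩
  have hOc : ∀ s, s ∈ O ↔ cj s ∉ O := by
    have hcard : Fintype.card (E →ₐ[ℚ] L) = 2 := by
      rw [AlgHom.card_of_splits ℚ E L (fun x => ?_), hE]
      have := splits_of_normal (L := L) (x : K)
      have h2 : minpoly ℚ (x : K) = minpoly ℚ x :=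
        minpoly.algHom_eq E.val E.val.injective x
      rwa [h2] at this
    have hr : ∀ s : K →ₐ[ℚ] L, s ∈ O ↔ s.comp E.val = s0.comp E.val := by
      intro s
      rw [hO]
      constructor
      · intro h
        ext x
        exact h x x.2
      · intro h x hx
        exact congrArg (fun f : E →ₐ[ℚ] L => f ⟨x, hx⟩) h
    have hne : ∀ s : K →ₐ[ℚ] L, s.comp E.val ≠ (cj s).comp E.val := by
      intro s h
      obtain ⟨x, hx, hx'⟩ := hEc
      have h1 := congrArg (fun f : E →ₐ[ℚ] L => f ⟨x, hx⟩) h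
      have h2 : s x = s (conjK K x) := h1
      exact hx' (s.injective h2).symm
    intro s
    rw [hr, hr]
    constructor
    · intro h1 h2
      exact hne s (h1.trans h2.symm)
    · intro h1
      by_contra h2
      have h3 := Fintype.two_lt_card_iff.2 ⟨s.comp E.val, (cj s).comp E.val, s0.comp E.val,
        hne s, h2, h1⟩
      have hcardN : Nat.card (E →ₐ[ℚ] L) = 2 := by
        rw [Nat.card_eq_fintype_card, hcard]
      rw [Fintype.card_eq_nat_card] at h3
      exact absurd h3 (not_lt.2 (le_of_eq hcardN))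
  have hOcard : O.card = q ^ m := by
    have h1 := card_half cj cj_cj O hOc
    rw [card_emb, hK] at h1
    omega
  refine ⟨hOc, hOcard, ?_⟩
  let _ := galAct K L
  let GE : Subgroup Gal(L/ℚ) :=
    { carrier := {g | ∀ x ∈ E, g (s0 x) = s0 x}
      one_mem' := (by intro x _; rfl)
      mul_mem' := (by
        intro g h hg hh x hx
        simp only [Set.mem_ofPred_eq] at hg hh
        rw [AlgEquiv.mul_apply, hh x hx, hg x hx])
      inv_mem' := (by
        intro g hg x hx
        simp only [Set.mem_ofPred_eq] at hg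
        have h1 : g⁻¹ (g (s0 x)) = s0 x := g.symm_apply_apply _
        rwa [hg x hx] at h1) }
  have hGE : ∀ g, g ∈ GE ↔ ∀ x ∈ E, g (s0 x) = s0 x := fun g => Iff.rfl
  have horb : ∀ s, s ∈ MulAction.orbit GE s0 ↔ s ∈ O := by
    intro s
    rw [hO]
    constructor
    · rintro ⟨g, rfl⟩ x hx
      exact g.2 x hx
    · intro h
      obtain ⟨g, hg⟩ := gal_trans s0 s
      refine ⟨⟨g, fun x hx => ?_⟩, hg⟩
      have h1 : g (s0 x) = s x := by rw [← hg]; rfl
      rw [h1, h x hx]
  have horbcard : Nat.card (MulAction.orbit GE s0) = q ^ m := by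
    have : MulAction.orbit GE s0 = (O : Set (K →ₐ[ℚ] L)) := by
      ext s
      rw [horb, Finset.mem_coe]
    rw [this, Nat.card_coe_set_eq, Set.ncard_coe_finset, hOcard]
  obtain ⟨P0⟩ : Nonempty (Sylow q GE) := inferInstance
  have h1 := sylow_orbit P0 s0 m (dvd_of_eq horbcard.symm)
  have hsub : MulAction.orbit P0 s0 ⊆ MulAction.orbit GE s0 := by
    rintro _ ⟨g, rfl⟩
    exact ⟨g.1, rfl⟩
  have heq : MulAction.orbit P0 s0 = MulAction.orbit GE s0 := by
    apply Set.eq_of_subset_of_ncard_le hsub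
    rw [← Nat.card_coe_set_eq, ← Nat.card_coe_set_eq, horbcard]
    refine Nat.le_of_dvd ?_ h1
    have : Nonempty (MulAction.orbit P0 s0) := ⟨⟨s0, MulAction.mem_orbit_self s0⟩⟩
    exact Nat.card_pos
  refine ⟨(P0 : Subgroup GE).map GE.subtype, P0.isPGroup'.map _, ?_, ?_⟩
  · rintro _ ⟨g, _, rfl⟩ s hs
    rw [← horb] at hs ⊢
    obtain ⟨h, rfl⟩ := hs
    exact ⟨g * h, mul_smul g h s0⟩
  · intro s hs t ht
    rw [← horb, ← heq] at hs ht
    obtain ⟨g, rfl⟩ := hs
    obtain ⟨h, rfl⟩ := ht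
    refine ⟨(h * g⁻¹ : P0).1.1, ⟨(h * g⁻¹ : P0).1, (h * g⁻¹ : P0).2, rfl⟩, ?_⟩
    have h2 : ((h * g⁻¹ : P0)) • (g • s0) = h • s0 := by
      rw [smul_smul, inv_mul_cancel_right]
    exact h2

/-- `[K : ℚ] = 2 q ^ m` with `q` odd: a Sylow `q`-subgroup has two orbits, exchanged by complex
conjugation. -/
theorem exists_P_odd {q m : ℕ} (hq : q.Prime) (hq2 : q ≠ 2)
    (hK : Module.finrank ℚ K = 2 * q ^ m) :
    ∃ O : Finset (K →ₐ[ℚ] L), (∀ s, s ∈ O ↔ cj s ∉ O) ∧ O.card = q ^ m ∧
      ∃ P : Subgroup Gal(L/ℚ), IsPGroup q P ∧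
      (∀ g ∈ P, ∀ s ∈ O, (g : L →ₐ[ℚ] L).comp s ∈ O) ∧
      (∀ s ∈ O, ∀ t ∈ O, ∃ g ∈ P, (g : L →ₐ[ℚ] L).comp s = t) := by
  classical
  have : Fact q.Prime := ⟨hq⟩
  let _ := galAct K L
  let s0 : K →ₐ[ℚ] L := IsScalarTower.toAlgHom ℚ K L
  obtain ⟨P0⟩ : Nonempty (Sylow q Gal(L/ℚ)) := inferInstance
  have hcardS : Nat.card (K →ₐ[ℚ] L) = 2 * q ^ m := by
    rw [Nat.card_eq_fintype_card, card_emb, hK]
  have horbG : Nat.card (MulAction.orbit Gal(L/ℚ) s0) = 2 * q ^ m := by
    have : MulAction.orbit Gal(L/ℚ) s0 = Set.univ := by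
      ext s
      simp only [Set.mem_univ, iff_true]
      obtain ⟨g, hg⟩ := gal_trans s0 s
      exact ⟨g, hg⟩
    rw [this, Nat.card_univ, hcardS]
  have h1 := sylow_orbit P0 s0 m (by rw [horbG]; exact Dvd.intro_left _ rfl)
  obtain ⟨i, hi⟩ := P0.isPGroup'.card_orbit s0
  have hle : Nat.card (MulAction.orbit P0 s0) ≤ 2 * q ^ m := by
    rw [← hcardS]
    exact Nat.card_le_card_of_injective (Subtype.val) Subtype.val_injective
  have hq3 : 3 ≤ q := by
    have := hq.two_le
    omega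
  have hcard : Nat.card (MulAction.orbit P0 s0) = q ^ m := by
    rw [hi] at h1 hle ⊢
    congr 1
    apply le_antisymm
    · by_contra h
      push Not at h
      have h2 : q ^ (m + 1) ≤ q ^ i := Nat.pow_le_pow_right hq.pos h
      have h3 : 3 * q ^ m ≤ q ^ (m + 1) := by
        rw [pow_succ, mul_comm]
        exact Nat.mul_le_mul_left _ hq3
      have h4 : 0 < q ^ m := pow_pos hq.pos m
      omega
    · exact (Nat.pow_dvd_pow_iff_le_right hq.one_lt).1 h1
  let O : Finset (K →ₐ[ℚ] L) := (MulAction.orbit P0 s0).toFinset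
  have hO : ∀ s, s ∈ O ↔ s ∈ MulAction.orbit P0 s0 := fun s => Set.mem_toFinset
  have hOcard : O.card = q ^ m := by
    rw [← hcard, Nat.card_eq_card_toFinset]
  have htr : ∀ s ∈ O, ∀ t ∈ O, ∃ g ∈ (P0 : Subgroup Gal(L/ℚ)), (g : L →ₐ[ℚ] L).comp s = t := by
    intro s hs t ht
    rw [hO] at hs ht
    obtain ⟨g, rfl⟩ := hs
    obtain ⟨h, rfl⟩ := ht
    refine ⟨(h * g⁻¹ : P0).1, (h * g⁻¹ : P0).2, ?_⟩
    have h2 : ((h * g⁻¹ : P0)) • (g • s0) = h • s0 := by
      rw [smul_smul, inv_mul_cancel_right]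
    exact h2
  have hdisj : ∀ s ∈ O, cj s ∉ O := by
    intro s hs hs'
    obtain ⟨g, hgP, hg⟩ := htr s hs _ hs'
    -- `g` has odd order `r`
    obtain ⟨r, hr⟩ := P0.isPGroup' ⟨g, hgP⟩
    have hr' : g ^ q ^ r = 1 := by
      have := congrArg Subtype.val hr
      simpa using this
    have hodd : Odd (q ^ r) := (hq.odd_of_ne_two hq2).pow
    have h2 : g • (g • s) = s := by
      have e1 : g • s = cj s := hg
      have e2 : g • cj s = cj (g • s) := rfl
      rw [e1, e2, e1, cj_cj]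
    have h3 : ∀ j : ℕ, g ^ (2 * j) • s = s := by
      intro j
      induction j with
      | zero => simp
      | succ j ih =>
        have : 2 * (j + 1) = 2 * j + 1 + 1 := by ring
        rw [this, pow_succ, pow_succ, mul_smul, mul_smul, h2, ih]
    obtain ⟨j, hj⟩ := hodd
    have h4 : g ^ (2 * (j + 1)) • s = g • s := by
      have : 2 * (j + 1) = q ^ r + 1 := by omega
      rw [this, pow_succ, hr', one_mul]
    rw [h3] at h4
    exact cj_ne s (hg.symm.trans h4.symm)
  have hOc : ∀ s, s ∈ O ↔ cj s ∉ O := by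
    intro s
    refine ⟨hdisj s, fun h => ?_⟩
    by_contra hs
    have h5 : (O ∪ O.image cj).card ≤ Fintype.card (K →ₐ[ℚ] L) - 1 := by
      have : (O ∪ O.image cj) ⊆ Finset.univ.erase s := by
        intro t ht
        rw [Finset.mem_erase]
        refine ⟨?_, Finset.mem_univ _⟩
        rintro rfl
        rcases Finset.mem_union.1 ht with h6 | h6
        · exact hs h6
        · obtain ⟨u, hu, hu'⟩ := Finset.mem_image.1 h6
          apply h
          rw [← hu', cj_cj]
          exact hu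
      have h6 := Finset.card_le_card this
      rwa [Finset.card_erase_of_mem (Finset.mem_univ _), Finset.card_univ] at h6
    rw [Finset.card_union_of_disjoint, Finset.card_image_of_injective _ (fun a b h => cj_inj h),
      hOcard, card_emb, hK] at h5
    · have : 0 < q ^ m := pow_pos hq.pos m
      omega
    · rw [Finset.disjoint_left]
      intro t ht ht'
      obtain ⟨u, hu, rfl⟩ := Finset.mem_image.1 ht'
      exact hdisj u hu ht
  refine ⟨O, hOc, hOcard, P0, P0.isPGroup', ?_, htr⟩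
  intro g hg s hs
  rw [hO] at hs ⊢
  obtain ⟨h, rfl⟩ := hs
  exact ⟨⟨g, hg⟩ * h, mul_smul (⟨g, hg⟩ : P0) h s0⟩

end Pool.Agent.CMT
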