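import Pool.Agent.Lib_helper86.CMT.Bridge

set_option autoImplicit false
set_option linter.unusedSectionVars false

open NumberField

namespace Pool.Agent.CMT

section

variable {K : Type} [Field K] [NumberField K] [IsCMField K]
variable {L : Type} [Field L] [NumberField L] [Algebra K L] [IsGalois ℚ L]

theorem sum_split {Φ : Finset (K →ₐ[ℚ] L)} (hΦ : IsCMType Φ) {M : Type} [AddCommMonoid M]
    (f : (K →ₐ[ℚ] L) → M) : ∑ g, f g = ∑ g ∈ Φ, (f g + f (cj g)) := by
  classical
  rw [Finset.sum_add_distrib, ← Finset.sum_image (s := Φ) (g := fun g => cj g) (f := f)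
    (fun x _ y _ h => cj_inj h)]
  rw [← Finset.sum_union]
  · refine Finset.sum_congr ?_ fun _ _ => rfl
    ext g
    simp only [Finset.mem_univ, Finset.mem_union, Finset.mem_image, true_iff]
    by_cases h : g ∈ Φ
    · exact Or.inl h
    · right
      refine ⟨cj g, ?_, cj_cj g⟩
      by_contra h'
      exact h ((hΦ g).2 h')
  · rw [Finset.disjoint_left]
    intro g hg h'
    rw [Finset.mem_image] at h'
    obtain ⟨g', hg', rfl⟩ := h'
    exact (hΦ g').1 hg' hg

variable {k : ℕ}

/-- the rational bilinear form `(u, w) ↦ Tr(b' u_j c(w_{j'}))` -/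
noncomputable def bil (l : LL K) (j j' : Fin k) : (Fin k → K) →ₗ[ℚ] (Fin k → K) →ₗ[ℚ] ℚ :=
  LinearMap.mk₂ ℚ (fun u w => Algebra.trace ℚ K (dua K l * (u j * conjK K (w j'))))
    (by intro u u' w; simp only [Pi.add_apply, add_mul, mul_add, map_add])
    (by intro c u w
        simp only [Pi.smul_apply, smul_mul_assoc, mul_smul_comm, map_smul])
    (by intro u w w'; simp only [Pi.add_apply, mul_add, map_add])
    (by intro c u w
        have : conjK K ((c • w) j') = c • conjK K (w j') := by
          rw [Pi.smul_apply, Rat.smul_def, map_mul, map_ratCast, ← Rat.smul_def]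
        rw [this]
        simp only [map_smul, mul_smul_comm])

theorem bil_apply (l : LL K) (j j' : Fin k) (u w : Fin k → K) :
    bil l j j' u w = Algebra.trace ℚ K (dua K l * (u j * conjK K (w j'))) := rfl

/-- the rational alternating form attached to it -/
noncomputable def eta (l : LL K) (j j' : Fin k) : (Fin k → K) [⋀^(Fin 1 × Fin 2)]→ₗ[ℚ] ℚ :=
  altBilin (bil l j j')

/-- the real extension of `bil` -/
noncomputable def rbil (φ₀ : L →+* ℂ) (Φ : Finset (K →ₐ[ℚ] L)) (l : LL K) (j j' : Fin k) :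
    (Fin k → Φ → ℂ) →ₗ[ℝ] (Fin k → Φ → ℂ) →ₗ[ℝ] ℝ :=
  LinearMap.mk₂ ℝ (fun u w => ∑ g : Φ, 2 * (φ₀ (g.1 (dua K l)) *
      (u j g * (starRingEnd ℂ) (w j' g))).re)
    (by intro u u' w
        rw [← Finset.sum_add_distrib]
        refine Finset.sum_congr rfl fun g _ => ?_
        simp only [Pi.add_apply, add_mul, mul_add, Complex.add_re])
    (by intro c u w
        rw [Finset.smul_sum]
        refine Finset.sum_congr rfl fun g _ => ?_
        simp only [Pi.smul_apply, smul_mul_assoc, mul_smul_comm, Complex.smul_re, smul_eq_mul]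
        ring)
    (by intro u w w'
        rw [← Finset.sum_add_distrib]
        refine Finset.sum_congr rfl fun g _ => ?_
        simp only [Pi.add_apply, mul_add, map_add, Complex.add_re])
    (by intro c u w
        rw [Finset.smul_sum]
        refine Finset.sum_congr rfl fun g _ => ?_
        have : (starRingEnd ℂ) ((c • w) j' g) = c • (starRingEnd ℂ) (w j' g) := by
          simp [Pi.smul_apply]
        rw [this]
        simp only [mul_smul_comm, Complex.smul_re, smul_eq_mul]
        ring)

theorem rbil_apply (φ₀ : L →+* ℂ) (Φ : Finset (K →ₐ[ℚ] L)) (l : LL K) (j j' : Fin k)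
    (u w : Fin k → Φ → ℂ) : rbil φ₀ Φ l j j' u w
      = ∑ g : Φ, 2 * (φ₀ (g.1 (dua K l)) * (u j g * (starRingEnd ℂ) (w j' g))).re := rfl

theorem rbil_period (φ₀ : L →+* ℂ) {Φ : Finset (K →ₐ[ℚ] L)} (hΦ : IsCMType Φ) (l : LL K)
    (j j' : Fin k) (u w : Fin k → K) :
    rbil φ₀ Φ l j j' (period φ₀ Φ k u) (period φ₀ Φ k w) = ((bil l j j' u w : ℚ) : ℝ) := by
  have h1 : ((bil l j j' u w : ℚ) : ℂ) = ∑ g : (K →ₐ[ℚ] L), φ₀ (g (dua K l)) *
      (φ₀ (g (u j)) * (starRingEnd ℂ) (φ₀ (g (w j')))) := by
    rw [bil_apply, cast_trace φ₀]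
    refine Finset.sum_congr rfl fun g _ => ?_
    rw [map_mul, map_mul, map_mul, map_mul]
    congr 2
    rw [← cj_apply, emb_cj]
  rw [sum_split hΦ] at h1
  apply Complex.ofReal_injective
  rw [Complex.ofReal_ratCast, h1, rbil_apply]
  rw [← Finset.sum_coe_sort Φ]
  push_cast
  refine Finset.sum_congr rfl fun g _ => ?_
  simp only [period]
  rw [emb_cj, emb_cj, emb_cj]
  rw [← map_mul, ← map_mul, Complex.add_conj]
  push_cast
  rfl

theorem rbil_smul (φ₀ : L →+* ℂ) (Φ : Finset (K →ₐ[ℚ] L)) (l : LL K) (j j' : Fin k) (z : ℂ)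
    (u w : Fin k → Φ → ℂ) :
    rbil φ₀ Φ l j j' (z • u) (z • w) = ‖z‖ ^ 2 * rbil φ₀ Φ l j j' u w := by
  rw [rbil_apply, rbil_apply, Finset.mul_sum]
  refine Finset.sum_congr rfl fun g _ => ?_
  have h : φ₀ (g.1 (dua K l)) * ((z • u) j g * (starRingEnd ℂ) ((z • w) j' g))
      = ((‖z‖ ^ 2 : ℝ) : ℂ) * (φ₀ (g.1 (dua K l)) * (u j g * (starRingEnd ℂ) (w j' g))) := by
    simp only [Pi.smul_apply, smul_eq_mul, map_mul]
    have h2 := Complex.mul_conj z
    rw [Complex.normSq_eq_norm_sq] at h2
    rw [← h2]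
    ring
  rw [h, Complex.re_ofReal_mul]
  ring

theorem isHodge_eta (φ₀ : L →+* ℂ) {Φ : Finset (K →ₐ[ℚ] L)} (hΦ : IsCMType Φ) (l : LL K)
    (j j' : Fin k) : IsHodge φ₀ Φ k 1 (eta l j j') := by
  refine ⟨altBilin (rbil φ₀ Φ l j j'), fun v => ?_, fun z u => ?_⟩
  · rw [altBilin_apply, rbil_period φ₀ hΦ, rbil_period φ₀ hΦ, eta, altBilin_apply]
    push_cast
    rfl
  · rw [altBilin_apply, altBilin_apply, rbil_smul, rbil_smul, mul_one]
    ring

end

section gen

variable {K : Type} [Field K] [NumberField K] [IsCMField K]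
variable {L : Type} [Field L] [NumberField L] [Algebra K L] [IsGalois ℚ L]
variable {F C : Type} [Field F] [CharZero F] [Field C] [CharZero C]
variable {k p : ℕ}

/-- wedge products of the special `2`-forms, with values in `C` -/
def specialWedges (K : Type) [Field K] [NumberField K] [IsCMField K]
    (C : Type) [Field C] (k p : ℕ) : Set ((Fin p × Fin 2 → Fin k → K) → C) :=
  {f | ∃ (l : Fin p → LL K) (j j' : Fin p → Fin k),
    f = fun v => ((wedge (fun i => eta (l i) (j i) (j' i)) v : ℚ) : C)}

theorem wedge_eta (l : Fin p → LL K) (j j' : Fin p → Fin k) (v : Fin p × Fin 2 → Fin k → K) :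
    wedge (fun i => eta (l i) (j i) (j' i)) v = 2 ^ p *
      ∑ π : Equiv.Perm (Fin p × Fin 2), ((Equiv.Perm.sign π : ℤ) : ℚ) *
        ∏ i, bil (l i) (j i) (j' i) (v (π (i, 0))) (v (π (i, 1))) := by
  rw [← two_pow_alt (fun i t t' => bil (l i) (j i) (j' i) (v t) (v t'))]
  unfold wedge
  refine Finset.sum_congr rfl fun π _ => ?_
  rw [zsmul_eq_mul]
  rfl

/-- the antisymmetrised monomial -/
noncomputable def altMon (φ : L →+* C) (s : Fin p × Fin 2 → XX K L k)
    (v : Fin p × Fin 2 → Fin k → K) : C :=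
  ∑ π : Equiv.Perm (Fin p × Fin 2), ((Equiv.Perm.sign π : ℤ) : C) * ∏ t, ev φ (s t) (v (π t))

theorem altMon_comp (φ : L →+* C) (s : Fin p × Fin 2 → XX K L k)
    (v : Fin p × Fin 2 → Fin k → K) (ρ : Equiv.Perm (Fin p × Fin 2)) :
    altMon φ (fun t => s (ρ t)) v = ((Equiv.Perm.sign ρ : ℤ) : C) * altMon φ s v := by
  unfold altMon
  rw [← Equiv.sum_comp (Equiv.mulRight ρ), Finset.mul_sum]
  refine Finset.sum_congr rfl fun π _ => ?_
  simp only [Equiv.coe_mulRight, Equiv.Perm.sign_mul, Equiv.Perm.mul_apply]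
  rw [Equiv.prod_comp ρ (fun t => ev φ (s t) (v (π t)))]
  push_cast
  ring

theorem ev_pair (φ : L →+* C) (g : (K →ₐ[ℚ] L)) (j j' : Fin k) (u w : Fin k → K) :
    ev φ (g, j) u * ev φ (cj g, j') w
      = ∑ l : LL K, φ (g (integralBasis K l)) * ((bil l j j' u w : ℚ) : C) := by
  have h1 : ev φ (g, j) u * ev φ (cj g, j') w = φ (g (u j * conjK K (w j'))) := by
    simp only [ev]
    rw [map_mul, map_mul]
    rfl
  rw [h1]
  conv_lhs => rw [expand_elt (u j * conjK K (w j'))]
  rw [map_sum, map_sum]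
  refine Finset.sum_congr rfl fun l _ => ?_
  rw [bil_apply, Rat.smul_def, map_mul, map_mul, map_ratCast, map_ratCast, mul_comm]

theorem altMon_mem (φ : L →+* C) (s : Fin p × Fin 2 → XX K L k)
    (hs : ∀ i, (s (i, 1)).1 = cj (s (i, 0)).1) :
    altMon φ s ∈ Submodule.span C (specialWedges K C k p) := by
  classical
  have key : altMon φ s = ∑ l : Fin p → LL K,
      ((∏ i, φ ((s (i, 0)).1 (integralBasis K (l i)))) * (2 ^ p)⁻¹) •
        fun v => ((wedge (fun i => eta (l i) (s (i, 0)).2 (s (i, 1)).2) v : ℚ) : C) := by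
    funext v
    rw [Finset.sum_apply]
    simp only [Pi.smul_apply, smul_eq_mul]
    have h2 : (2 : C) ^ p ≠ 0 := pow_ne_zero _ (by norm_num)
    have h3 : ∀ l : Fin p → LL K, ((∏ i, φ ((s (i, 0)).1 (integralBasis K (l i)))) * (2 ^ p)⁻¹) *
        ((wedge (fun i => eta (l i) (s (i, 0)).2 (s (i, 1)).2) v : ℚ) : C)
        = ∑ π : Equiv.Perm (Fin p × Fin 2), ((Equiv.Perm.sign π : ℤ) : C) *
          ∏ i, (φ ((s (i, 0)).1 (integralBasis K (l i))) *
            ((bil (l i) (s (i, 0)).2 (s (i, 1)).2 (v (π (i, 0))) (v (π (i, 1))) : ℚ) : C)) := by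
      intro l
      rw [wedge_eta]
      push_cast
      rw [mul_assoc, inv_mul_cancel_left₀ h2, Finset.mul_sum]
      refine Finset.sum_congr rfl fun π _ => ?_
      rw [Finset.prod_mul_distrib]
      ring
    simp only [h3]
    rw [Finset.sum_comm]
    unfold altMon
    refine Finset.sum_congr rfl fun π _ => ?_
    rw [← Finset.mul_sum]
    congr 1
    have h4 := Finset.prod_univ_sum (fun _ : Fin p => (Finset.univ : Finset (LL K)))
      (fun i l => φ ((s (i, 0)).1 (integralBasis K l)) *
            ((bil l (s (i, 0)).2 (s (i, 1)).2 (v (π (i, 0))) (v (π (i, 1))) : ℚ) : C))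
    rw [Fintype.piFinset_univ] at h4
    rw [← h4, Fintype.prod_prod_type]
    refine Finset.prod_congr rfl fun i _ => ?_
    rw [Fin.prod_univ_two, ← ev_pair]
    have e0 : s (i, 0) = ((s (i, 0)).1, (s (i, 0)).2) := rfl
    have e1 : s (i, 1) = (cj (s (i, 0)).1, (s (i, 1)).2) := by
      rw [← hs i]
    rw [← e0]
    conv_lhs => rw [e1]
  rw [key]
  refine Submodule.sum_mem _ fun l _ => Submodule.smul_mem _ _ (Submodule.subset_span ?_)
  exact ⟨l, fun i => (s (i, 0)).2, fun i => (s (i, 1)).2, rfl⟩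

/-- descent of coefficients -/
theorem descend (ψ : F →+* C) (f : (Fin p × Fin 2 → Fin k → K) → F)
    (h : (fun v => ψ (f v)) ∈ Submodule.span C (specialWedges K C k p)) :
    f ∈ Submodule.span F (specialWedges K F k p) := by
  let _ : Algebra F C := ψ.toAlgebra
  obtain ⟨r, hr⟩ := (Algebra.linearMap F C).exists_leftInverse_of_injective
    (LinearMap.ker_eq_bot.2 (by
      intro a b hab
      exact (algebraMap F C).injective hab))
  have hr' : ∀ a : F, r (ψ a) = a := fun a => by
    have := congrArg (fun g => g a) hr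
    exact this
  have key : ∀ g ∈ Submodule.span C (specialWedges K C k p), ∀ c : C,
      (fun v => r (c * g v)) ∈ Submodule.span F (specialWedges K F k p) := by
    intro g hg
    induction hg using Submodule.span_induction with
    | mem g hg =>
      intro c
      obtain ⟨l, j, j', rfl⟩ := hg
      have : (fun v => r (c * ((wedge (fun i => eta (l i) (j i) (j' i)) v : ℚ) : C)))
          = r c • fun v => ((wedge (fun i => eta (l i) (j i) (j' i)) v : ℚ) : F) := by
        funext v
        simp only [Pi.smul_apply, smul_eq_mul]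
        have e : c * ((wedge (fun i => eta (l i) (j i) (j' i)) v : ℚ) : C)
            = (((wedge (fun i => eta (l i) (j i) (j' i)) v : ℚ) : F)) • c := by
          rw [Algebra.smul_def, mul_comm]
          congr 1
          simp
        rw [e, map_smul, smul_eq_mul, mul_comm]
      rw [this]
      exact Submodule.smul_mem _ _ (Submodule.subset_span ⟨l, j, j', rfl⟩)
    | zero =>
      intro c
      have : (fun v : Fin p × Fin 2 → Fin k → K => r (c * (0 : (Fin p × Fin 2 → Fin k → K) → C) v))
          = 0 := by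
        funext v
        simp
      rw [this]
      exact Submodule.zero_mem _
    | add x y _ _ hx hy =>
      intro c
      have : (fun v => r (c * (x + y) v)) = (fun v => r (c * x v)) + fun v => r (c * y v) := by
        funext v
        simp [mul_add]
      rw [this]
      exact Submodule.add_mem _ (hx c) (hy c)
    | smul a x _ hx =>
      intro c
      have : (fun v => r (c * (a • x) v)) = fun v => r ((c * a) * x v) := by
        funext v
        simp [mul_assoc]
      rw [this]
      exact hx (c * a)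
  have := key _ h 1
  simpa [hr'] using this

/-- A form all of whose monomials are balanced is a combination of products of divisor classes. -/
theorem generated_of_balanced {Φ : Finset (K →ₐ[ℚ] L)} (hΦ : IsCMType Φ) (φ : L →+* C)
    (ψ : F →+* C) (ω : (Fin k → K) [⋀^(Fin p × Fin 2)]→ₗ[ℚ] F)
    (hbal : ∀ s, coef φ (fun v => ψ (ω v)) s ≠ 0 → ∀ g,
      (Finset.univ.filter fun t => (s t).1 = cj g).card
        = (Finset.univ.filter fun t => (s t).1 = g).card) (φ₀ : L →+* ℂ) :
    (fun v => ω v) ∈ Submodule.span F (divisorProducts F φ₀ Φ k p) := by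
  classical
  have h1 : (fun v => ψ (ω v)) ∈ Submodule.span C (specialWedges K C k p) := by
    have hN : ((Fintype.card (Equiv.Perm (Fin p × Fin 2)) : ℕ) : C) ≠ 0 := by
      rw [Nat.cast_ne_zero]
      exact Fintype.card_ne_zero
    have h2 : (fun v => ψ (ω v)) = ∑ s : Fin p × Fin 2 → XX K L k,
        (((Fintype.card (Equiv.Perm (Fin p × Fin 2)) : ℕ) : C)⁻¹ *
          coef φ (fun v => ψ (ω v)) s) • altMon φ s := by
      funext v
      rw [Finset.sum_apply]
      simp only [Pi.smul_apply, smul_eq_mul]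
      have h3 : ∀ π : Equiv.Perm (Fin p × Fin 2),
          ((Equiv.Perm.sign π : ℤ) : C) * ψ (ω (fun t => v (π t))) = ψ (ω v) := by
        intro π
        have := ω.map_perm v π
        have e : ω (fun t => v (π t)) = ω (v ∘ π) := rfl
        rw [e, this]
        rcases Int.units_eq_one_or (Equiv.Perm.sign π) with h | h
        · rw [h]; simp
        · rw [h]; simp
      have h4 : ((Fintype.card (Equiv.Perm (Fin p × Fin 2)) : ℕ) : C) * ψ (ω v)
          = ∑ π : Equiv.Perm (Fin p × Fin 2),
            ((Equiv.Perm.sign π : ℤ) : C) * ψ (ω (fun t => v (π t))) := by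
        simp only [h3]
        rw [Finset.sum_const, Finset.card_univ, nsmul_eq_mul]
      have h5 : ∀ v, ψ (ω v) = ∑ s, coef φ (fun v => ψ (ω v)) s * ∏ t, ev φ (s t) (v t) :=
        fun v => form_expand φ ψ ω.toMultilinearMap v
      have h6 : ((Fintype.card (Equiv.Perm (Fin p × Fin 2)) : ℕ) : C) * ψ (ω v)
          = ∑ s, coef φ (fun v => ψ (ω v)) s * altMon φ s v := by
        rw [h4]
        simp only [h5 (fun t => v _), altMon, Finset.mul_sum]
        rw [Finset.sum_comm]
        refine Finset.sum_congr rfl fun s _ => Finset.sum_congr rfl fun π _ => ?_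
        ring
      have h7 : ψ (ω v) = ((Fintype.card (Equiv.Perm (Fin p × Fin 2)) : ℕ) : C)⁻¹ *
          (((Fintype.card (Equiv.Perm (Fin p × Fin 2)) : ℕ) : C) * ψ (ω v)) := by
        rw [inv_mul_cancel_left₀ hN]
      conv_lhs => rw [h7, h6]
      rw [Finset.mul_sum]
      refine Finset.sum_congr rfl fun s _ => ?_
      ring
    rw [h2]
    refine Submodule.sum_mem _ fun s _ => ?_
    by_cases hs : coef φ (fun v => ψ (ω v)) s = 0
    · rw [hs, mul_zero, zero_smul]
      exact Submodule.zero_mem _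
    · refine Submodule.smul_mem _ _ ?_
      obtain ⟨ρ, hρ⟩ := exists_pairing hΦ (fun t => (s t).1) (fun g => by
        have := hbal s hs g
        convert this)
      have h8 : altMon φ s = ((Equiv.Perm.sign ρ : ℤ) : C) • altMon φ (fun t => s (ρ t)) := by
        funext v
        rw [Pi.smul_apply, smul_eq_mul, altMon_comp, ← mul_assoc]
        rcases Int.units_eq_one_or (Equiv.Perm.sign ρ) with h | h
        · rw [h]; simp
        · rw [h]; simp
      rw [h8]
      exact Submodule.smul_mem _ _ (altMon_mem φ _ hρ)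
  have h2 := descend ψ (fun v => ω v) h1
  refine Submodule.span_mono ?_ h2
  rintro f ⟨l, j, j', rfl⟩
  exact ⟨fun i => eta (l i) (j i) (j' i), fun i => isHodge_eta φ₀ hΦ _ _ _, rfl⟩

end gen

end Pool.Agent.CMT
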