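import Pool.Agent.Lib_helper86.CMT.Gen

set_option autoImplicit false
set_option linter.unusedSectionVars false

open NumberField

namespace Pool.Agent.CMT

variable {K : Type} [Field K] [NumberField K] [IsCMField K]
variable {L : Type} [Field L] [NumberField L] [Algebra K L] [IsGalois ℚ L]
variable {k p : ℕ}

section count

/-- Pohlmann's condition for all conjugates implies that the monomial is balanced, if `Φ` is
nondegenerate. -/
theorem balanced_of_pohlmann {Φ : Finset (K →ₐ[ℚ] L)} (hND : Nondegenerate Φ)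
    (hΦ : IsCMType Φ) (a : Fin p × Fin 2 → (K →ₐ[ℚ] L))
    (ha : ∀ τ : Gal(L/ℚ),
      (Finset.univ.filter fun t => (τ : L →ₐ[ℚ] L).comp (a t) ∈ Φ).card = p)
    (g : K →ₐ[ℚ] L) :
    (Finset.univ.filter fun t => a t = cj g).card
      = (Finset.univ.filter fun t => a t = g).card := by
  have hinv : ∀ (τ : Gal(L/ℚ)) (s : K →ₐ[ℚ] L),
      ((τ⁻¹ : Gal(L/ℚ)) : L →ₐ[ℚ] L).comp ((τ : L →ₐ[ℚ] L).comp s) = s := by
    intro τ s
    ext x
    exact τ.symm_apply_apply (s x)
  have hinv' : ∀ (τ : Gal(L/ℚ)) (s : K →ₐ[ℚ] L),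
      (τ : L →ₐ[ℚ] L).comp (((τ⁻¹ : Gal(L/ℚ)) : L →ₐ[ℚ] L).comp s) = s := by
    intro τ s
    ext x
    exact τ.apply_symm_apply (s x)
  have key : ∀ τ : Gal(L/ℚ), ∑ g ∈ Φ,
      ((Finset.univ.filter fun t => a t = (τ : L →ₐ[ℚ] L).comp g).card : ℤ) = p := by
    intro τ
    rw [← Nat.cast_sum]
    norm_cast
    refine Eq.trans ?_ (ha τ⁻¹)
    rw [← Finset.card_biUnion]
    · congr 1
      ext t
      simp only [Finset.mem_biUnion, Finset.mem_filter, Finset.mem_univ, true_and]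
      constructor
      · rintro ⟨g, hg, h⟩
        rw [h, hinv]
        exact hg
      · intro h
        exact ⟨_, h, by rw [hinv']⟩
    · intro x _ y _ hxy
      rw [Function.onFun, Finset.disjoint_left]
      intro t ht ht'
      simp only [Finset.mem_filter, Finset.mem_univ, true_and] at ht ht'
      have h1 := ht.symm.trans ht'
      have h2 := congrArg (fun s => ((τ⁻¹ : Gal(L/ℚ)) : L →ₐ[ℚ] L).comp s) h1
      simp only [hinv] at h2
      exact hxy h2
  have key2 : ∀ τ : Gal(L/ℚ), ∑ g ∈ Φ,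
      ((Finset.univ.filter fun t => a t = (τ : L →ₐ[ℚ] L).comp (g.comp (conjK K))).card : ℤ)
        = p := by
    intro τ
    have h1 := sum_split hΦ (fun g =>
      ((Finset.univ.filter fun t => a t = (τ : L →ₐ[ℚ] L).comp g).card : ℤ))
    rw [Finset.sum_add_distrib, key τ] at h1
    have h2 : ∑ g : K →ₐ[ℚ] L,
        ((Finset.univ.filter fun t => a t = (τ : L →ₐ[ℚ] L).comp g).card : ℤ) = 2 * p := by
      rw [← Nat.cast_sum, ← Finset.card_biUnion]
      · have h3 : (Finset.univ.biUnion fun g : K →ₐ[ℚ] L =>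
            Finset.univ.filter fun t => a t = (τ : L →ₐ[ℚ] L).comp g) = Finset.univ := by
          ext t
          simp only [Finset.mem_biUnion, Finset.mem_filter, Finset.mem_univ, true_and, iff_true]
          exact ⟨_, (hinv' τ (a t)).symm⟩
        rw [h3, Finset.card_univ, Fintype.card_prod, Fintype.card_fin, Fintype.card_fin]
        push_cast
        ring
      · intro x _ y _ hxy
        rw [Function.onFun, Finset.disjoint_left]
        intro t ht ht'
        simp only [Finset.mem_filter, Finset.mem_univ, true_and] at ht ht'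
        have h1 := ht.symm.trans ht'
        have h2 := congrArg (fun s => ((τ⁻¹ : Gal(L/ℚ)) : L →ₐ[ℚ] L).comp s) h1
        simp only [hinv] at h2
        exact hxy h2
    rw [h2] at h1
    have h3 : ∑ g ∈ Φ,
      ((Finset.univ.filter fun t => a t = (τ : L →ₐ[ℚ] L).comp (g.comp (conjK K))).card : ℤ)
      = ∑ g ∈ Φ, ((Finset.univ.filter fun t => a t = (τ : L →ₐ[ℚ] L).comp (cj g)).card : ℤ) := rfl
    rw [h3]
    linarith
  have := hND (fun g => ((Finset.univ.filter fun t => a t = g).card : ℤ)) (fun τ => by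
    rw [key τ, key2 τ]) g
  exact_mod_cast this

end count

section galois

variable {ι : Type} [Fintype ι] [DecidableEq ι] {C : Type} [Field C] [CharZero C]

theorem qm_map (φ : L →+* C) (x : XX K L k) (y : YY K k) :
    qm φ x y = φ (qm (RingHom.id L) x y) := by
  unfold qm
  split_ifs <;> simp

theorem coef_map (φ : L →+* C) (f : (ι → Fin k → K) → ℚ) (s : ι → XX K L k) :
    coef φ (fun v => ((f v : ℚ) : C)) s
      = φ (coef (RingHom.id L) (fun v => ((f v : ℚ) : L)) s) := by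
  unfold coef
  rw [map_sum]
  refine Finset.sum_congr rfl fun y _ => ?_
  rw [map_mul, map_prod, map_ratCast]
  congr 1
  exact Finset.prod_congr rfl fun t _ => qm_map φ _ _

theorem coef_gal (τ : Gal(L/ℚ)) (f : (ι → Fin k → K) → ℚ) (s : ι → XX K L k) :
    coef (RingHom.id L) (fun v => ((f v : ℚ) : L))
        (fun t => ((τ : L →ₐ[ℚ] L).comp (s t).1, (s t).2))
      = τ (coef (RingHom.id L) (fun v => ((f v : ℚ) : L)) s) := by
  unfold coef
  rw [map_sum]
  refine Finset.sum_congr rfl fun y _ => ?_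
  rw [map_mul, map_prod, map_ratCast]
  congr 1
  refine Finset.prod_congr rfl fun t _ => ?_
  unfold qm
  split_ifs
  · rfl
  · simp

theorem coef_ne_zero_gal (φ : L →+* C) (τ : Gal(L/ℚ)) (f : (ι → Fin k → K) → ℚ)
    (s : ι → XX K L k) (h : coef φ (fun v => ((f v : ℚ) : C)) s ≠ 0) :
    coef φ (fun v => ((f v : ℚ) : C)) 
      (fun t => ((τ : L →ₐ[ℚ] L).comp (s t).1, (s t).2)) ≠ 0 := by
  rw [coef_map] at h ⊢
  rw [coef_gal]
  rw [Ne, map_eq_zero] at h ⊢
  rwa [map_eq_zero]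

end galois

section real

variable (Φ : Finset (K →ₐ[ℚ] L))

/-- the coordinate functions on the Lie algebra and their conjugates -/
noncomputable def rE (x : XX K L k) (w : Fin k → Φ → ℂ) : ℂ :=
  if h : x.1 ∈ Φ then w x.2 ⟨x.1, h⟩ else
    if h' : cj x.1 ∈ Φ then (starRingEnd ℂ) (w x.2 ⟨_, h'⟩) else 0

variable {Φ} (hΦ : IsCMType Φ)
include hΦ

theorem mem_of_not {g : K →ₐ[ℚ] L} (h : g ∉ Φ) : cj g ∈ Φ := by
  by_contra h'
  exact h ((hΦ g).2 h')

theorem rE_period (φ₀ : L →+* ℂ) (x : XX K L k) (v : Fin k → K) :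
    rE Φ x (period φ₀ Φ k v) = ev φ₀ x v := by
  unfold rE
  split_ifs with h h'
  · rfl
  · simp only [period, ev]
    rw [← emb_cj, cj_cj]
  · exact absurd (mem_of_not hΦ h) h'

theorem rE_conj (x : XX K L k) (w : Fin k → Φ → ℂ) :
    (starRingEnd ℂ) (rE Φ x w) = rE Φ (cj x.1, x.2) w := by
  unfold rE
  simp only
  by_cases h : x.1 ∈ Φ
  · have h1 : cj x.1 ∉ Φ := (hΦ _).1 h
    rw [dif_pos h, dif_neg h1]
    have h2 : cj (cj x.1) ∈ Φ := by rw [cj_cj]; exact h
    rw [dif_pos h2]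
    congr 2
    exact Subtype.ext (cj_cj _).symm
  · have h1 := mem_of_not hΦ h
    rw [dif_neg h, dif_pos h1, dif_pos h1, Complex.conj_conj]

theorem rE_smul (z : ℂ) (x : XX K L k) (w : Fin k → Φ → ℂ) :
    rE Φ x (z • w) = (if x.1 ∈ Φ then z else (starRingEnd ℂ) z) * rE Φ x w := by
  unfold rE
  by_cases h : x.1 ∈ Φ
  · simp [h]
  · have h1 := mem_of_not hΦ h
    simp [h, h1]

theorem sum_conj (f : XX K L k → ℂ)
    (hf : ∀ x, (starRingEnd ℂ) (f x) = f (cj x.1, x.2)) :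
    (((∑ x, f x).re : ℝ) : ℂ) = ∑ x, f x := by
  apply Complex.conj_eq_iff_re.1
  rw [map_sum]
  simp only [hf]
  let e : XX K L k ≃ XX K L k := Equiv.prodCongr ⟨cj, cj, cj_cj, cj_cj⟩ (Equiv.refl _)
  exact Equiv.sum_comp e f

/-- real coordinates -/
noncomputable def rr (φ₀ : L →+* ℂ) (Φ : Finset (K →ₐ[ℚ] L)) (y : YY K k) (w : Fin k → Φ → ℂ) : ℝ :=
  (∑ x : XX K L k, qm φ₀ x y * rE Φ x w).re

theorem qm_conj (φ₀ : L →+* ℂ) (x : XX K L k) (y : YY K k) :
    (starRingEnd ℂ) (qm φ₀ x y) = qm φ₀ (cj x.1, x.2) y := by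
  unfold qm
  split_ifs
  · rw [← emb_cj]
  · simp

theorem cast_rr (φ₀ : L →+* ℂ) (y : YY K k) (w : Fin k → Φ → ℂ) :
    ((rr φ₀ Φ y w : ℝ) : ℂ) = ∑ x : XX K L k, qm φ₀ x y * rE Φ x w := by
  unfold rr
  refine sum_conj hΦ (fun x => qm φ₀ x y * rE Φ x w) fun x => ?_
  rw [map_mul, qm_conj hΦ, rE_conj hΦ]

theorem expand_real (φ₀ : L →+* ℂ) (w : Fin k → Φ → ℂ) :
    w = ∑ y : YY K k, rr φ₀ Φ y w • period φ₀ Φ k (bv y) := by
  ext j g
  rw [Finset.sum_apply, Finset.sum_apply]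
  have h1 : ∀ y : YY K k, (rr φ₀ Φ y w • period φ₀ Φ k (bv y)) j g
      = ((rr φ₀ Φ y w : ℝ) : ℂ) * ev φ₀ (g.1, j) (bv y) := by
    intro y
    simp only [Pi.smul_apply, Complex.real_smul]
    rfl
  simp only [h1, cast_rr hΦ, Finset.sum_mul]
  rw [Finset.sum_comm]
  have h2 : ∀ x : XX K L k, ∑ y, qm φ₀ x y * rE Φ x w * ev φ₀ (g.1, j) (bv y)
      = (if x = (g.1, j) then 1 else 0) * rE Φ x w := by
    intro x
    rw [← orth φ₀ x (g.1, j), Finset.sum_mul]
    refine Finset.sum_congr rfl fun y _ => ?_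
    ring
  simp only [h2]
  rw [Finset.sum_eq_single ((g.1, j) : XX K L k)]
  · simp [rE]
  · intro b _ hb
    simp [hb]
  · intro h; exact absurd (Finset.mem_univ _) h

theorem expand_Omega (φ₀ : L →+* ℂ) {ι : Type} [Fintype ι] [DecidableEq ι]
    (Ω : MultilinearMap ℝ (fun _ : ι => Fin k → Φ → ℂ) ℝ) (ω : (ι → Fin k → K) → ℚ)
    (h : ∀ v, Ω (fun t => period φ₀ Φ k (v t)) = ω v) (w : ι → Fin k → Φ → ℂ) :
    ((Ω w : ℝ) : ℂ) = ∑ s, coef φ₀ (fun v => ((ω v : ℚ) : ℂ)) s * ∏ t, rE Φ (s t) (w t) := by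
  refine expand_gen φ₀ (rE Φ) (fun v => ((ω v : ℚ) : ℂ)) (fun w => ((Ω w : ℝ) : ℂ))
    (fun y w => ((rr φ₀ Φ y w : ℝ) : ℂ)) (fun y w => cast_rr hΦ φ₀ y w) (fun w => ?_) w
  have h1 : w = fun t => ∑ y : YY K k, rr φ₀ Φ y (w t) • period φ₀ Φ k (bv y) := by
    funext t
    exact expand_real hΦ φ₀ (w t)
  conv_lhs => rw [h1]
  rw [MultilinearMap.map_sum]
  push_cast
  refine Finset.sum_congr rfl fun y _ => ?_
  rw [MultilinearMap.map_smul_univ, h (fun t => bv (y t)), smul_eq_mul]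
  push_cast
  rfl

/-- the monomials in a Hodge class are of type `(p,p)` -/
theorem coef_type (φ₀ : L →+* ℂ) (ω : (Fin k → K) [⋀^(Fin p × Fin 2)]→ₗ[ℚ] ℚ)
    (hω : IsHodge φ₀ Φ k p ω) (s : Fin p × Fin 2 → XX K L k)
    (hs : coef φ₀ (fun v => ((ω v : ℚ) : ℂ)) s ≠ 0) :
    (Finset.univ.filter fun t => (s t).1 ∈ Φ).card = p := by
  obtain ⟨Ω, h1, h2⟩ := hω
  have h3 : ∀ w, ((Ω w : ℝ) : ℂ) = ∑ s, coef φ₀ (fun v => ((ω v : ℚ) : ℂ)) s *
      ∏ t, rE Φ (s t) (w t) := expand_Omega hΦ φ₀ Ω.toMultilinearMap (fun v => ω v) h1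
  have key : ∀ z : ℂ, (∏ t, if (s t).1 ∈ Φ then z else (starRingEnd ℂ) z)
      = ((‖z‖ ^ (2 * p) : ℝ) : ℂ) := by
    intro z
    have h4 := coef_unique φ₀
      (fun s : Fin p × Fin 2 → XX K L k => coef φ₀ (fun v => ((ω v : ℚ) : ℂ)) s *
        ∏ t, (if (s t).1 ∈ Φ then z else (starRingEnd ℂ) z))
      (fun s => ((‖z‖ ^ (2 * p) : ℝ) : ℂ) * coef φ₀ (fun v => ((ω v : ℚ) : ℂ)) s)
      (fun v => by
        have h5 := h3 (fun t => z • period φ₀ Φ k (v t))
        rw [h2 z] at h5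
        push_cast at h5
        rw [h3] at h5
        push_cast
        simp only [rE_smul hΦ, rE_period hΦ] at h5
        simp only [mul_assoc]
        rw [← Finset.mul_sum, h5]
        refine Finset.sum_congr rfl fun s _ => ?_
        rw [Finset.prod_mul_distrib])
    have h5 : coef φ₀ (fun v => ((ω v : ℚ) : ℂ)) s *
        ∏ t, (if (s t).1 ∈ Φ then z else (starRingEnd ℂ) z)
        = ((‖z‖ ^ (2 * p) : ℝ) : ℂ) * coef φ₀ (fun v => ((ω v : ℚ) : ℂ)) s := congrFun h4 s
    rw [mul_comm] at h5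
    exact mul_right_cancel₀ hs h5
  set A := (Finset.univ.filter fun t => (s t).1 ∈ Φ).card with hA
  set B := (Finset.univ.filter fun t => ¬ (s t).1 ∈ Φ).card with hB
  have hAB : A + B = 2 * p := by
    rw [hA, hB, Finset.card_filter_add_card_filter_not, Finset.card_univ, Fintype.card_prod,
      Fintype.card_fin, Fintype.card_fin, mul_comm]
  have key2 : ∀ z : ℂ, z ^ A * (starRingEnd ℂ) z ^ B = (z * (starRingEnd ℂ) z) ^ p := by
    intro z
    have h4 := key z
    rw [Finset.prod_ite, Finset.prod_const, Finset.prod_const] at h4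
    rw [h4]
    rw [Complex.mul_conj, Complex.normSq_eq_norm_sq]
    push_cast
    rw [pow_mul]
  -- use a suitable `z`
  by_contra hne
  have main : ∀ a b : ℕ, a ≠ 0 → (∀ z : ℂ, z ≠ 0 → z ^ a = (starRingEnd ℂ) z ^ a) → False := by
    intro a _ ha h
    set z := Complex.exp (((Real.pi / (4 * a) : ℝ) : ℂ) * Complex.I) with hz
    have h1 := h z (Complex.exp_ne_zero _)
    have ha' : (a : ℂ) ≠ 0 := Nat.cast_ne_zero.2 ha
    have h2 : z ^ a = Complex.exp ((Real.pi / 4 : ℝ) * Complex.I) := by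
      rw [hz, ← Complex.exp_nat_mul]
      congr 1
      push_cast
      field_simp
    have h3 : (starRingEnd ℂ) z ^ a = (starRingEnd ℂ) (Complex.exp ((Real.pi / 4 : ℝ) * Complex.I)) := by
      rw [← map_pow, h2]
    rw [h3, h2] at h1
    have h4 := congrArg Complex.im h1
    rw [Complex.conj_im, Complex.exp_ofReal_mul_I_im, Real.sin_pi_div_four] at h4
    have : (0 : ℝ) < √2 / 2 := by positivity
    linarith
  rcases lt_or_gt_of_ne hne with h | h
  · -- A < p
    refine main (p - A) 0 (by omega) fun z hz => ?_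
    have h5 := key2 z
    have hB' : B = p + (p - A) := by omega
    have hp' : p = A + (p - A) := by omega
    rw [hB', mul_pow] at h5
    conv_rhs at h5 => rw [hp']
    have hzc : (starRingEnd ℂ) z ≠ 0 := (map_ne_zero _).2 hz
    have e1 : z ^ A * (starRingEnd ℂ) z ^ p * (starRingEnd ℂ) z ^ (p - A)
        = z ^ A * (starRingEnd ℂ) z ^ p * z ^ (p - A) := by
      have : z ^ A * (starRingEnd ℂ) z ^ (p + (p - A)) = z ^ A * z ^ (p - A) * (starRingEnd ℂ) z ^ p := by
        rw [h5, pow_add, ← hp']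
      rw [pow_add] at this
      linear_combination this
    exact (mul_left_cancel₀ (mul_ne_zero (pow_ne_zero _ hz) (pow_ne_zero _ hzc)) e1).symm
  · -- A > p
    refine main (A - p) 0 (by omega) fun z hz => ?_
    have h5 := key2 z
    have hA' : A = p + (A - p) := by omega
    have hp' : p = B + (A - p) := by omega
    have hzc : (starRingEnd ℂ) z ≠ 0 := (map_ne_zero _).2 hz
    have e1 : z ^ p * (starRingEnd ℂ) z ^ B * z ^ (A - p)
        = z ^ p * (starRingEnd ℂ) z ^ B * (starRingEnd ℂ) z ^ (A - p) := by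
      have e2 : z ^ A = z ^ p * z ^ (A - p) := by
        conv_lhs => rw [hA']
        rw [pow_add]
      have e3 : (starRingEnd ℂ) z ^ p = (starRingEnd ℂ) z ^ B * (starRingEnd ℂ) z ^ (A - p) := by
        conv_lhs => rw [hp']
        rw [pow_add]
      rw [mul_pow, e2, e3] at h5
      linear_combination h5
    exact mul_left_cancel₀ (mul_ne_zero (pow_ne_zero _ hz) (pow_ne_zero _ hzc)) e1

end real

/-- Nondegenerate CM types: all Hodge classes on all powers are generated by divisor classes. -/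
theorem hodge_of_nondegenerate {Φ : Finset (K →ₐ[ℚ] L)} (hΦ : IsCMType Φ)
    (hND : Nondegenerate Φ) : HodgeGenerated Φ := by
  intro φ₀ k p ω hω
  refine generated_of_balanced hΦ φ₀ (Rat.castHom ℂ) ω (fun s hs g => ?_) φ₀
  refine balanced_of_pohlmann hND hΦ (fun t => (s t).1) (fun τ => ?_) g
  have h1 := coef_ne_zero_gal φ₀ τ (fun v => ω v) s hs
  exact coef_type hΦ φ₀ ω hω _ h1

end Pool.Agent.CMT
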