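import Mathlib

set_option autoImplicit false
set_option linter.unusedSectionVars false

/-!
Counting CM types: half systems, and functions on a cyclic orbit with few values.
-/

namespace Pool.Agent.CMT.Large

open Finset

section involution

variable {S : Type} [Fintype S] [DecidableEq S]

/-- a fixed point free involution has a half system -/
theorem exists_half (c : S → S) (hcc : ∀ s, c (c s) = s) (hc : ∀ s, c s ≠ s) :
    ∃ O : Finset S, ∀ s, s ∈ O ↔ c s ∉ O := by
  let e := Fintype.equivFin S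
  refine ⟨Finset.univ.filter fun s => e s < e (c s), fun s => ?_⟩
  simp only [Finset.mem_filter, Finset.mem_univ, true_and, hcc, not_lt]
  constructor
  · intro h; exact h.le
  · intro h; exact lt_of_le_of_ne h (fun h' => hc s (e.injective h').symm)

theorem exists_half_sup (c : S → S) (hcc : ∀ s, c (c s) = s) (hc : ∀ s, c s ≠ s) (T : Finset S)
    (hT : ∀ s ∈ T, c s ∉ T) : ∃ O : Finset S, T ⊆ O ∧ ∀ s, s ∈ O ↔ c s ∉ O := by
  obtain ⟨O, hO⟩ := exists_half c hcc hc
  refine ⟨T ∪ (O \ (T ∪ T.image c)), subset_union_left, fun s => ?_⟩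
  have him : ∀ s, s ∈ T.image c ↔ c s ∈ T := by
    intro s
    rw [mem_image]
    constructor
    · rintro ⟨a, ha, rfl⟩; rwa [hcc]
    · intro h; exact ⟨c s, h, hcc s⟩
  simp only [mem_union, mem_sdiff, him, hcc]
  have h1 := hT s
  have h2 := hO s
  have h3 := hT (c s)
  rw [hcc] at h3
  tauto

theorem card_half (c : S → S) (hcc : ∀ s, c (c s) = s) (O : Finset S)
    (hOc : ∀ s, s ∈ O ↔ c s ∉ O) : Fintype.card S = 2 * O.card := by
  have h1 : Oᶜ.card = O.card := by
    symm
    refine Finset.card_bij' (fun s _ => c s) (fun s _ => c s) ?_ ?_ ?_ ?_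
    · intro s hs; rw [Finset.mem_compl]; exact (hOc s).1 hs
    · intro s hs
      rw [Finset.mem_compl] at hs
      by_contra h'
      exact hs ((hOc s).2 h')
    · intro s _; exact hcc s
    · intro s _; exact hcc s
  have := Finset.card_add_card_compl O
  omega

/-- counting CM types by their restriction to the complement of `T ∪ c T` -/
theorem cnt (c : S → S) (hcc : ∀ s, c (c s) = s) (hc : ∀ s, c s ≠ s) (g : ℕ)
    (hg : Fintype.card S = 2 * g) (T : Finset S) (hT : ∀ s ∈ T, c s ∉ T)
    (F : Finset (Finset S)) (hF : ∀ Φ ∈ F, ∀ s, s ∈ Φ ↔ c s ∉ Φ) (N : ℕ)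
    (hN : ∀ Φ₀ ∈ F, (F.filter fun Φ => ∀ s, s ∉ T → c s ∉ T → (s ∈ Φ ↔ s ∈ Φ₀)).card ≤ N) :
    F.card ≤ N * 2 ^ (g - T.card) := by
  classical
  obtain ⟨O, hTO, hO⟩ := exists_half_sup c hcc hc T hT
  have hOcard : O.card = g := by
    have := card_half c hcc O hO
    omega
  have h1 := Finset.card_le_mul_card_image (s := F) (f := fun Φ => Φ ∩ (O \ T)) N ?_
  · refine h1.trans (Nat.mul_le_mul_left _ ?_)
    have h2 : F.image (fun Φ => Φ ∩ (O \ T)) ⊆ (O \ T).powerset := by
      intro D hD
      obtain ⟨Φ, _, rfl⟩ := mem_image.1 hD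
      exact mem_powerset.2 inter_subset_right
    refine (card_le_card h2).trans ?_
    rw [card_powerset, card_sdiff_of_subset hTO, hOcard]
  · intro D hD
    obtain ⟨Φ₀, hΦ₀, rfl⟩ := mem_image.1 hD
    refine (card_le_card ?_).trans (hN Φ₀ hΦ₀)
    intro Φ hΦ
    rw [mem_filter] at hΦ ⊢
    refine ⟨hΦ.1, fun s hs hcs => ?_⟩
    have key : ∀ s, s ∈ O → s ∉ T → (s ∈ Φ ↔ s ∈ Φ₀) := by
      intro s h1 h2
      have h3 : s ∈ Φ ∩ (O \ T) ↔ s ∈ Φ₀ ∩ (O \ T) := by rw [hΦ.2]
      simpa only [mem_inter, mem_sdiff, h1, h2, not_false_eq_true, and_true] using h3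
    by_cases h : s ∈ O
    · exact key s h hs
    · have h4 : c s ∈ O := by
        by_contra h'
        exact h ((hO s).2 h')
      rw [hF Φ hΦ.1, hF Φ₀ hΦ₀, key (c s) h4 hcs]

/-- splitting a sum over a CM type -/
theorem split {A : Type} [AddCommGroup A] (c : S → S) (hcc : ∀ s, c (c s) = s) (T : Finset S)
    (hT : ∀ s ∈ T, c s ∉ T) (Φ : Finset S) (hΦ : ∀ s, s ∈ Φ ↔ c s ∉ Φ) (f : S → A)
    (hf : ∀ s, f (c s) = - f s) :
    ∑ s ∈ Φ, f s = ∑ s ∈ T, (if s ∈ Φ then f s else - f s)
      + ∑ s ∈ Φ.filter (fun s => s ∉ T ∧ c s ∉ T), f s := by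
  have h1 : ∑ s ∈ T, (if s ∈ Φ then f s else - f s)
      = ∑ s ∈ Φ.filter (fun s => s ∈ T), f s + ∑ s ∈ Φ.filter (fun s => c s ∈ T), f s := by
    rw [← Finset.sum_filter_add_sum_filter_not T (fun s => s ∈ Φ)]
    congr 1
    · refine Finset.sum_congr ?_ ?_
      · ext s; simp only [mem_filter, and_comm]
      · intro s hs
        rw [if_pos (mem_filter.1 hs).1]
    · refine Finset.sum_bij' (fun s _ => c s) (fun s _ => c s) ?_ ?_ ?_ ?_ ?_
      · intro s hs
        rw [mem_filter] at hs ⊢
        rw [hcc]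
        refine ⟨?_, hs.1⟩
        by_contra h
        exact hs.2 ((hΦ s).2 h)
      · intro s hs
        rw [mem_filter] at hs ⊢
        exact ⟨hs.2, (hΦ s).1 hs.1⟩
      · intro s _; exact hcc s
      · intro s _; exact hcc s
      · intro s hs
        rw [if_neg (mem_filter.1 hs).2, hf]
  rw [h1]
  rw [← Finset.sum_filter_add_sum_filter_not Φ (fun s => s ∈ T), add_assoc]
  congr 1
  rw [← Finset.sum_filter_add_sum_filter_not (Φ.filter fun s => s ∉ T) (fun s => c s ∈ T)]
  congr 1
  · refine Finset.sum_congr ?_ fun _ _ => rfl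
    ext s
    simp only [mem_filter]
    have := hT s
    tauto
  · refine Finset.sum_congr ?_ fun _ _ => rfl
    ext s
    simp only [mem_filter]
    tauto

end involution

section sequences

variable {q : ℕ} [hq : Fact q.Prime]

/-- the shift operator on sequences -/
def E (q : ℕ) : (ℕ → ZMod q) →ₗ[ZMod q] (ℕ → ZMod q) where
  toFun H k := H (k + 1)
  map_add' _ _ := rfl
  map_smul' _ _ := rfl

theorem E_pow (n : ℕ) (H : ℕ → ZMod q) (k : ℕ) : ((E q) ^ n) H k = H (k + n) := by
  induction n generalizing k with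
  | zero => rfl
  | succ n ih =>
    rw [pow_succ', Module.End.mul_apply]
    change ((E q) ^ n) H (k + 1) = _
    rw [ih]
    congr 1
    omega

open Polynomial in
theorem E_aeval (w : (ZMod q)[X]) (H : ℕ → ZMod q) (k : ℕ) :
    aeval (E q) w H k = ∑ i ∈ range (w.natDegree + 1), w.coeff i * H (k + i) := by
  rw [aeval_eq_sum_range, LinearMap.sum_apply, Finset.sum_apply]
  refine Finset.sum_congr rfl fun i _ => ?_
  rw [LinearMap.smul_apply, Pi.smul_apply, E_pow, smul_eq_mul]

open Polynomial in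
/-- a sequence killed by `(E - 1) ^ j`, `j ≤ q`, is polynomial -/
theorem exists_poly (j : ℕ) (hj : j ≤ q) (H : ℕ → ZMod q)
    (h : ((E q - 1) ^ j) H = 0) : ∃ Q : (ZMod q)[X], Q.degree < j ∧ ∀ k : ℕ, H k = Q.eval (k : ZMod q) := by
  have hD : ∀ l, ((E q - 1) ^ l) H = (fwdDiff 1)^[l] H := by
    intro l
    induction l with
    | zero => rfl
    | succ l ih =>
      rw [pow_succ', Module.End.mul_apply, ih, Function.iterate_succ_apply']
      rfl
  have hzero : ∀ l, j ≤ l → ((E q - 1) ^ l) H = 0 := by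
    intro l hl
    obtain ⟨d, rfl⟩ := Nat.exists_eq_add_of_le hl
    rw [add_comm, pow_add, Module.End.mul_apply, h, map_zero]
  let a : ℕ → ZMod q := fun l => (fwdDiff 1)^[l] H 0
  have ha : ∀ l, j ≤ l → a l = 0 := by
    intro l hl
    change (fwdDiff 1)^[l] H 0 = 0
    rw [← hD, hzero l hl]
    rfl
  refine ⟨∑ l ∈ range j, C ((l.factorial : ZMod q)⁻¹ * a l) * descPochhammer (ZMod q) l, ?_, ?_⟩
  · rcases Nat.eq_zero_or_pos j with rfl | hj0
    · simp
    refine lt_of_le_of_lt (degree_sum_le _ _) ?_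
    rw [Finset.sup_lt_iff (by exact_mod_cast WithBot.bot_lt_coe j)]
    intro l hl
    rw [mem_range] at hl
    refine lt_of_le_of_lt degree_le_natDegree ?_
    have h5 := natDegree_C_mul_le ((l.factorial : ZMod q)⁻¹ * a l) (descPochhammer (ZMod q) l)
    rw [descPochhammer_natDegree] at h5
    exact_mod_cast lt_of_le_of_lt h5 hl
  · intro k
    have h1 := shift_eq_sum_fwdDiff_iter (h := 1) H k 0
    rw [zero_add, nsmul_eq_mul, mul_one, Nat.cast_id] at h1
    rw [h1, eval_finsetSum]
    have h2 : ∀ l ∈ range j, eval (k : ZMod q)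
        (C ((l.factorial : ZMod q)⁻¹ * a l) * descPochhammer (ZMod q) l)
        = k.choose l • a l := by
      intro l hl
      rw [mem_range] at hl
      rw [eval_mul, eval_C, descPochhammer_eval_eq_descFactorial,
        Nat.descFactorial_eq_factorial_mul_choose, nsmul_eq_mul]
      push_cast
      have h3 : (l.factorial : ZMod q) ≠ 0 := by
        rw [Ne, ZMod.natCast_eq_zero_iff, hq.1.dvd_factorial]
        omega
      field_simp
    rw [Finset.sum_congr rfl h2]
    have h4 : ∀ n n' : ℕ, n ≤ n' → (∀ l, n ≤ l → l < n' → k.choose l • a l = 0) →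
        ∑ l ∈ range n', k.choose l • a l = ∑ l ∈ range n, k.choose l • a l := by
      intro n n' hn h
      symm
      refine Finset.sum_subset (range_mono hn) fun l hl hl' => ?_
      rw [mem_range] at hl hl'
      exact h l (by omega) hl
    rcases le_total (k + 1) j with hkj | hkj
    · symm
      refine h4 _ _ hkj fun l hl _ => ?_
      rw [Nat.choose_eq_zero_of_lt (by omega), zero_smul]
    · refine h4 _ _ hkj fun l hl _ => ?_
      rw [ha l hl, smul_zero]

open Polynomial in
/-- few values and a short recurrence force a sequence to be constant -/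
theorem const_of_recurrence (R e i : ℕ) (he2 : 2 ≤ e) (heq : e ≤ q) (he : (e - 2) * R < q)
    (H : ℕ → ZMod q)
    (hper : ∀ k, H (k + q ^ i) = H k) (V : Finset (ZMod q)) (hV : V.card ≤ R)
    (hHV : ∀ k, H k ∈ V) (w : ℕ → ZMod q) (hw : ∃ l < e, w l ≠ 0)
    (hrec : ∀ k, ∑ l ∈ range e, w l * H (k + l) = 0) : ∀ k, H k = H 0 := by
  -- the recurrence polynomial
  let W : (ZMod q)[X] := ∑ l ∈ range e, monomial l (w l)
  have hWc : ∀ l, l < e → W.coeff l = w l := by
    intro l hl
    simp only [W, finsetSum_coeff, coeff_monomial]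
    rw [Finset.sum_ite_eq' (range e) l w, if_pos (mem_range.2 hl)]
  have hW0 : W ≠ 0 := by
    obtain ⟨l, hl, hl'⟩ := hw
    intro h
    apply hl'
    rw [← hWc l hl, h, coeff_zero]
  have hWdeg : W.natDegree < e := by
    refine lt_of_le_of_lt (natDegree_sum_le_of_forall_le (n := e - 1) (range e) _ ?_) (by omega)
    intro l hl
    rw [mem_range] at hl
    exact (natDegree_monomial_le _).trans (by omega)
  have hWH : aeval (E q) W H = 0 := by
    funext k
    have h1 : aeval (E q) W H = fun k => ∑ l ∈ range e, w l * H (k + l) := by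
      funext k
      simp only [W, map_sum, LinearMap.sum_apply, Finset.sum_apply]
      refine Finset.sum_congr rfl fun l _ => ?_
      rw [aeval_monomial, Module.End.mul_apply, Module.algebraMap_end_apply, Pi.smul_apply, E_pow,
        smul_eq_mul]
    rw [h1]
    exact hrec k
  have hX : aeval (E q) ((X - 1 : (ZMod q)[X]) ^ (q ^ i)) H = 0 := by
    have h1 : (X - 1 : (ZMod q)[X]) ^ (q ^ i) = X ^ (q ^ i) - 1 := by
      rw [sub_pow_char_pow, one_pow]
    rw [h1, map_sub, map_pow, aeval_X, map_one, LinearMap.sub_apply]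
    funext k
    rw [Pi.sub_apply, E_pow, hper]
    exact sub_self _
  obtain ⟨j, hj, hjH⟩ : ∃ j, j ≤ W.natDegree ∧ ((E q - 1) ^ j) H = 0 := by
    have hg : EuclideanDomain.gcd W ((X - 1 : (ZMod q)[X]) ^ (q ^ i)) ∣
        (X - 1 : (ZMod q)[X]) ^ (q ^ i) := EuclideanDomain.gcd_dvd_right _ _
    have hprime : Prime (X - 1 : (ZMod q)[X]) := by
      have := prime_X_sub_C (1 : ZMod q)
      rwa [C_1] at this
    obtain ⟨j, _, hj⟩ := (dvd_prime_pow hprime _).1 hg
    refine ⟨j, ?_, ?_⟩
    · have h1 : (X - 1 : (ZMod q)[X]) ^ j ∣ W :=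
        (hj.symm.dvd).trans (EuclideanDomain.gcd_dvd_left _ _)
      have h2 := natDegree_le_of_dvd h1 hW0
      have h3 : ((X - 1 : (ZMod q)[X]) ^ j).natDegree = j := by
        rw [natDegree_pow]
        have : (X - 1 : (ZMod q)[X]).natDegree = 1 := by
          have := natDegree_X_sub_C (1 : ZMod q)
          rwa [C_1] at this
        rw [this, mul_one]
      rwa [h3] at h2
    · obtain ⟨u, hu⟩ := hj.symm
      have h1 := EuclideanDomain.gcd_eq_gcd_ab W ((X - 1 : (ZMod q)[X]) ^ (q ^ i))
      have h2 : aeval (E q) (EuclideanDomain.gcd W ((X - 1 : (ZMod q)[X]) ^ (q ^ i))) H = 0 := by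
        rw [h1, map_add, LinearMap.add_apply, mul_comm W, mul_comm (((X - 1 : (ZMod q)[X]) ^ (q ^ i))),
          map_mul, map_mul, Module.End.mul_apply, Module.End.mul_apply, hWH, hX, map_zero, map_zero,
          add_zero]
      have h3 : (X - 1 : (ZMod q)[X]) ^ j =
          ((u⁻¹ : ((ZMod q)[X])ˣ) : (ZMod q)[X]) *
            EuclideanDomain.gcd W ((X - 1 : (ZMod q)[X]) ^ (q ^ i)) := by
        rw [← hu, mul_comm ((X - 1 : (ZMod q)[X]) ^ j), ← mul_assoc, Units.inv_mul, one_mul]
      have h4 : aeval (E q) ((X - 1 : (ZMod q)[X]) ^ j) H = 0 := by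
        rw [h3, map_mul, Module.End.mul_apply, h2, map_zero]
      rwa [map_pow, map_sub, aeval_X, map_one] at h4
  obtain ⟨Q, hQdeg, hQ⟩ := exists_poly j (by omega) H hjH
  -- pigeonhole
  have hinj : ∀ a ∈ range q, ∀ b ∈ range q, ((a : ℕ) : ZMod q) = b → a = b := by
    intro a ha b hb hab
    rw [mem_range] at ha hb
    have := (ZMod.natCast_eq_natCast_iff' a b q).1 hab
    rwa [Nat.mod_eq_of_lt ha, Nat.mod_eq_of_lt hb] at this
  obtain ⟨y, _, hy⟩ := Finset.exists_lt_card_fiber_of_mul_lt_card_of_maps_to (s := range q) (t := V)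
    (f := H) (n := e - 2) (fun k _ => hHV k) (by
      rw [card_range]
      refine lt_of_le_of_lt ?_ he
      rw [mul_comm]
      exact Nat.mul_le_mul_left _ hV)
  have hQy : Q - C y = 0 := by
    apply eq_zero_of_natDegree_lt_card_of_eval_eq_zero' (Q - C y)
      (((range q).filter fun k => H k = y).image fun k : ℕ => (k : ZMod q))
    · intro z hz
      obtain ⟨k, hk, rfl⟩ := mem_image.1 hz
      rw [eval_sub, eval_C, ← hQ, (mem_filter.1 hk).2, sub_self]
    · rw [card_image_of_injOn]
      · refine lt_of_le_of_lt ?_ hy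
        rw [natDegree_sub_C]
        rcases Nat.eq_zero_or_pos j with rfl | hj0
        · have : Q = 0 := by
            rw [← degree_eq_bot]
            have h5 : Q.degree < 0 := by simpa using hQdeg
            exact Nat.WithBot.lt_zero_iff.1 h5
          rw [this, natDegree_zero]
          exact Nat.zero_le _
        · have h5 : Q.natDegree < j := by
            rcases eq_or_ne Q 0 with h6 | h6
            · rw [h6, natDegree_zero]; exact hj0
            · exact (natDegree_lt_iff_degree_lt h6).2 hQdeg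
          omega
      · intro a ha b hb hab
        exact hinj a (mem_filter.1 ha).1 b (mem_filter.1 hb).1 hab
  intro k
  rw [hQ k, hQ 0, sub_eq_zero.1 hQy, eval_C, eval_C]

end sequences

end Pool.Agent.CMT.Large
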