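import Pool.Agent.Lib_helper86.CMT.Large1
import Pool.Agent.Lib_helper86.CMT.GSet

set_option autoImplicit false
set_option linter.unusedSectionVars false

/-!
Counting degenerate CM types on a finite `G`-set: the two cases.
-/

namespace Pool.Agent.CMT.Large

open Finset

variable {G S : Type} [Group G] [MulAction G S] [Fintype S] [DecidableEq S]

/-- an element of odd order never moves `s` to `c s` -/
theorem no_odd (c : S → S) (hcc : ∀ s, c (c s) = s) (hc : ∀ s, c s ≠ s)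
    (hcG : ∀ (g : G) s, c (g • s) = g • c s) (y : G) (N : ℕ) (hN : Odd N) (hy : y ^ N = 1) (s : S) :
    y • s ≠ c s := by
  intro h
  have h2 : y • (y • s) = s := by
    rw [h, ← hcG, h, hcc]
  have h3 : ∀ j : ℕ, y ^ (2 * j) • s = s := by
    intro j
    induction j with
    | zero => simp
    | succ j ih =>
      have : 2 * (j + 1) = 2 * j + 1 + 1 := by ring
      rw [this, pow_succ, pow_succ, mul_smul, mul_smul, h2, ih]
  obtain ⟨j, hj⟩ := hN
  have h4 : y ^ (2 * (j + 1)) • s = y • s := by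
    have : 2 * (j + 1) = N + 1 := by omega
    rw [this, pow_succ, hy, one_mul]
  rw [h3] at h4
  exact hc s (h.symm.trans h4.symm)

open scoped Classical in
theorem caseA {q : ℕ} [hq : Fact q.Prime] (hq2 : q ≠ 2) (c : S → S) (hcc : ∀ s, c (c s) = s)
    (hc : ∀ s, c s ≠ s) (hcG : ∀ (g : G) s, c (g • s) = g • c s) (g : ℕ)
    (hg : Fintype.card S = 2 * g) (R e : ℕ) (he2 : 2 ≤ e) (heq : e ≤ q) (he : (e - 2) * R < q)
    (f : S → ZMod q) (hodd : ∀ s, f (c s) = - f s) (V : Finset (ZMod q)) (hV : V.card ≤ R)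
    (hfV : ∀ s, f s ∈ V) (τ x : G) (i : ℕ) (hx : x ^ q ^ i = 1) (s₀ : S)
    (hne : f (τ • x • s₀) ≠ f (τ • s₀)) :
    (univ.filter fun Φ : Finset S => (∀ s, s ∈ Φ ↔ c s ∉ Φ) ∧
      ∀ τ : G, ∑ s ∈ Φ, f (τ • s) = 0).card ≤ 2 ^ (g - e) := by

  have hxs : x • s₀ ≠ s₀ := fun h => hne (by rw [h])
  have hqodd : Odd (q ^ i) := (hq.1.odd_of_ne_two hq2).pow
  have hinj : ∀ k < e, ∀ k' < e, x ^ k • s₀ = x ^ k' • s₀ → k = k' := by
    have key : ∀ k < e, ∀ k' < e, k < k' → x ^ k • s₀ ≠ x ^ k' • s₀ := by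
      intro k _ k' hk' hlt h
      obtain ⟨d, rfl⟩ := Nat.exists_eq_add_of_lt hlt
      have h1 : x ^ (d + 1) • s₀ = s₀ := by
        have h2 : x ^ k • s₀ = x ^ k • x ^ (d + 1) • s₀ := by
          rw [h, ← mul_smul, ← pow_add]
          congr 2
        exact (smul_left_cancel _ h2).symm
      have hcop : (d + 1).Coprime (orderOf x) := by
        refine Nat.Coprime.coprime_dvd_right (orderOf_dvd_of_pow_eq_one hx) ?_
        apply Nat.Coprime.pow_right
        rw [Nat.coprime_comm, hq.1.coprime_iff_not_dvd]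
        intro h3
        have := Nat.le_of_dvd (by omega) h3
        omega
      obtain ⟨a, ha⟩ := exists_pow_eq_self_of_coprime hcop
      apply hxs
      have h4 : x ^ (d + 1) ∈ MulAction.stabilizer G s₀ := h1
      have h5 := pow_mem h4 a
      rw [ha] at h5
      exact h5
    intro k hk k' hk' h
    rcases lt_trichotomy k k' with h1 | h1 | h1
    · exact absurd h (key k hk k' hk' h1)
    · exact h1
    · exact absurd h.symm (key k' hk' k hk h1)
  let T : Finset S := (range e).image fun k => x ^ k • s₀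
  have hTinj : Set.InjOn (fun k => x ^ k • s₀) (range e : Set ℕ) := by
    intro k hk k' hk' h
    exact hinj k (by simpa using hk) k' (by simpa using hk') h
  have hTcard : T.card = e := by
    rw [card_image_of_injOn hTinj, card_range]
  have hT : ∀ s ∈ T, c s ∉ T := by
    intro s hs hs'
    obtain ⟨k, _, rfl⟩ := mem_image.1 hs
    obtain ⟨k', _, hk'⟩ := mem_image.1 hs'
    refine no_odd c hcc hc hcG (x ^ k' * (x ^ k)⁻¹) (q ^ i) hqodd ?_ (x ^ k • s₀) ?_
    · have hcomm : Commute (x ^ k') (x ^ k)⁻¹ :=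
        ((Commute.refl x).pow_pow k' k).inv_right
      rw [hcomm.mul_pow, ← pow_mul, mul_comm k', pow_mul, hx, one_pow, one_mul, inv_pow, ← pow_mul,
        mul_comm k, pow_mul, hx, one_pow, inv_one]
    · rw [mul_smul, inv_smul_smul]
      exact hk'
  have := cnt c hcc hc g hg T hT (univ.filter fun Φ : Finset S => (∀ s, s ∈ Φ ↔ c s ∉ Φ) ∧
      ∀ τ : G, ∑ s ∈ Φ, f (τ • s) = 0) (fun Φ hΦ => (mem_filter.1 hΦ).2.1) 1 ?_
  · rwa [one_mul, hTcard] at this
  intro Φ₀ hΦ₀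
  rw [card_le_one]
  have main : ∀ Φ ∈ (univ.filter fun Φ : Finset S => (∀ s, s ∈ Φ ↔ c s ∉ Φ) ∧
      ∀ τ : G, ∑ s ∈ Φ, f (τ • s) = 0).filter
        (fun Φ => ∀ s, s ∉ T → c s ∉ T → (s ∈ Φ ↔ s ∈ Φ₀)), Φ = Φ₀ := by
    intro Φ hΦ
    obtain ⟨hΦ1, hΦ2⟩ := mem_filter.1 hΦ
    obtain ⟨hΦc, hΦs⟩ := (mem_filter.1 hΦ1).2
    obtain ⟨hΦ₀c, hΦ₀s⟩ := (mem_filter.1 hΦ₀).2
    let w : ℕ → ZMod q := fun k =>
      (if x ^ k • s₀ ∈ Φ then 1 else -1) - (if x ^ k • s₀ ∈ Φ₀ then 1 else -1)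
    have hrec : ∀ k, ∑ l ∈ range e, w l * f (τ • x ^ (k + l) • s₀) = 0 := by
      intro k
      let f' : S → ZMod q := fun s => f ((τ * x ^ k) • s)
      have hf' : ∀ s, f' (c s) = - f' s := by
        intro s
        simp only [f']
        rw [← hcG, hodd]
      have h1 := split c hcc T hT Φ hΦc f' hf'
      have h2 := split c hcc T hT Φ₀ hΦ₀c f' hf'
      rw [hΦs (τ * x ^ k)] at h1
      rw [hΦ₀s (τ * x ^ k)] at h2
      have h3 : Φ.filter (fun s => s ∉ T ∧ c s ∉ T) = Φ₀.filter (fun s => s ∉ T ∧ c s ∉ T) := by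
        ext s
        simp only [mem_filter]
        constructor
        · rintro ⟨h4, h5, h6⟩; exact ⟨(hΦ2 s h5 h6).1 h4, h5, h6⟩
        · rintro ⟨h4, h5, h6⟩; exact ⟨(hΦ2 s h5 h6).2 h4, h5, h6⟩
      rw [h3] at h1
      have h4 : ∑ s ∈ T, (if s ∈ Φ then f' s else - f' s)
          - ∑ s ∈ T, (if s ∈ Φ₀ then f' s else - f' s) = 0 := by
        linear_combination h2 - h1
      rw [← sum_sub_distrib, sum_image hTinj] at h4
      rw [← h4]
      refine Finset.sum_congr rfl fun l _ => ?_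
      have h5 : f' (x ^ l • s₀) = f (τ • x ^ (k + l) • s₀) := by
        simp only [f']
        rw [pow_add, mul_smul, mul_smul]
      rw [h5]
      simp only [w]
      split_ifs <;> ring
    have hw : ∀ l < e, w l = 0 := by
      by_contra hcon
      push Not at hcon
      obtain ⟨l, hl, hl'⟩ := hcon
      have := const_of_recurrence R e i he2 heq he (fun k => f (τ • x ^ k • s₀))
        (fun k => by
          change f (τ • x ^ (k + q ^ i) • s₀) = f (τ • x ^ k • s₀)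
          rw [pow_add, hx, mul_one]) V hV (fun k => hfV _) w ⟨l, hl, hl'⟩ hrec 1
      apply hne
      simpa using this
    have hone : (1 : ZMod q) ≠ -1 := by
      intro h
      have h1 : ((2 : ℕ) : ZMod q) = 0 := by
        push_cast
        linear_combination h
      rw [ZMod.natCast_eq_zero_iff] at h1
      have := Nat.le_of_dvd (by norm_num) h1
      have := hq.1.two_le
      omega
    have hTT : ∀ s ∈ T, (s ∈ Φ ↔ s ∈ Φ₀) := by
      intro s hs
      obtain ⟨l, hl, rfl⟩ := mem_image.1 hs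
      have h1 := hw l (mem_range.1 hl)
      simp only [w] at h1
      by_cases h2 : x ^ l • s₀ ∈ Φ <;> by_cases h3 : x ^ l • s₀ ∈ Φ₀
      · exact ⟨fun _ => h3, fun _ => h2⟩
      · rw [if_pos h2, if_neg h3] at h1
        exact absurd (sub_eq_zero.1 h1) hone
      · rw [if_neg h2, if_pos h3] at h1
        exact absurd (sub_eq_zero.1 h1).symm hone
      · exact ⟨fun h => absurd h h2, fun h => absurd h h3⟩
    ext s
    by_cases hs : s ∈ T
    · exact hTT s hs
    · by_cases hcs : c s ∈ T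
      · rw [hΦc, hΦ₀c, hTT _ hcs]
      · exact hΦ2 s hs hcs
  intro a ha b hb
  rw [main a ha, main b hb]

open scoped Classical in
theorem caseB {q : ℕ} [hq : Fact q.Prime] (hq2 : q ≠ 2) (c : S → S) (hcc : ∀ s, c (c s) = s)
    (hc : ∀ s, c s ≠ s) (hcG : ∀ (g : G) s, c (g • s) = g • c s) (g : ℕ)
    (hg : Fintype.card S = 2 * g) (htr : ∀ s t : S, ∃ x : G, x • s = t) (r : ℕ)
    (W : Submodule (ZMod q) (S → ZMod q)) (hWodd : ∀ f ∈ W, ∀ s, f (c s) = - f s)
    (hWr : Module.finrank (ZMod q) W ≤ r) (T : Finset S) (hTcard : T.card = q - 1)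
    (hT : ∀ s ∈ T, c s ∉ T) (s₀ : S)
    (hTW : ∀ f ∈ W, ∀ (τ : G), ∀ s ∈ T, f (τ • s) = f (τ • s₀)) :
    (univ.filter fun Φ : Finset S => (∀ s, s ∈ Φ ↔ c s ∉ Φ) ∧
      ∃ f ∈ W, f ≠ 0 ∧ ∀ τ : G, ∑ s ∈ Φ, f (τ • s) = 0).card
      ≤ r * (q - 1).choose ((q - 1) / 2) * 2 ^ (g - (q - 1)) := by

  rw [← hTcard]
  have hqpos : 0 < q := hq.1.pos
  refine cnt c hcc hc g hg T hT _ (fun Φ hΦ => (mem_filter.1 hΦ).2.1) _ ?_
  intro Φ₀ hΦ₀
  set F : Finset (Finset S) := univ.filter fun Φ : Finset S => (∀ s, s ∈ Φ ↔ c s ∉ Φ) ∧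
      ∃ f ∈ W, f ≠ 0 ∧ ∀ τ : G, ∑ s ∈ Φ, f (τ • s) = 0 with hFdef
  set F₀ := F.filter fun Φ => ∀ s, s ∉ T → c s ∉ T → (s ∈ Φ ↔ s ∈ Φ₀) with hF₀
  let K₀ : Finset ℕ := F₀.image fun Φ => (Φ ∩ T).card
  have hF₀mem : ∀ Φ ∈ F₀, (∀ s, s ∈ Φ ↔ c s ∉ Φ) ∧
      (∃ f ∈ W, f ≠ 0 ∧ ∀ τ : G, ∑ s ∈ Φ, f (τ • s) = 0) ∧
      ∀ s, s ∉ T → c s ∉ T → (s ∈ Φ ↔ s ∈ Φ₀) := by
    intro Φ hΦ
    rw [hF₀, mem_filter, hFdef, mem_filter] at hΦ
    exact ⟨hΦ.1.2.1, hΦ.1.2.2, hΦ.2⟩
  have hK₀ : K₀.card ≤ r := by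
    -- the linear maps
    let Ev : W →ₗ[ZMod q] (G → ZMod q) :=
      { toFun := fun f τ => f.1 (τ • s₀)
        map_add' := fun _ _ => rfl
        map_smul' := fun _ _ => rfl }
    let ρ : Finset S := Φ₀.filter fun s => s ∉ T ∧ c s ∉ T
    let B : W →ₗ[ZMod q] (G → ZMod q) :=
      { toFun := fun f τ => ∑ s ∈ ρ, f.1 (τ • s)
        map_add' := fun f f' => by
          funext τ
          simp [Finset.sum_add_distrib]
        map_smul' := fun a f => by
          funext τ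
          simp [Finset.mul_sum] }
    have hEv : LinearMap.ker Ev = ⊥ := by
      rw [LinearMap.ker_eq_bot']
      intro f hf
      apply Subtype.ext
      funext s
      obtain ⟨τ, rfl⟩ := htr s₀ s
      exact congrFun hf τ
    obtain ⟨π, hπ⟩ := LinearMap.exists_leftInverse_of_injective Ev hEv
    have hex : ∀ k : K₀, ∃ f : W, f ≠ 0 ∧
        (2 * (k : ℕ) - (q - 1 : ℕ) : ZMod q) • Ev f + B f = 0 := by
      rintro ⟨k, hk⟩
      obtain ⟨Φ, hΦ, rfl⟩ := mem_image.1 hk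
      obtain ⟨hΦc, ⟨f, hfW, hf0, hfs⟩, hΦ2⟩ := hF₀mem Φ hΦ
      refine ⟨⟨f, hfW⟩, fun h => hf0 (congrArg Subtype.val h), ?_⟩
      funext τ
      have h1 := split c hcc T hT Φ hΦc (fun s => f (τ • s)) (fun s => by
        rw [← hcG, hWodd f hfW])
      rw [hfs τ] at h1
      have h3 : Φ.filter (fun s => s ∉ T ∧ c s ∉ T) = ρ := by
        ext s
        simp only [ρ, mem_filter]
        constructor
        · rintro ⟨h4, h5, h6⟩; exact ⟨(hΦ2 s h5 h6).1 h4, h5, h6⟩
        · rintro ⟨h4, h5, h6⟩; exact ⟨(hΦ2 s h5 h6).2 h4, h5, h6⟩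
      have h4 : ∑ s ∈ T, (if s ∈ Φ then f (τ • s) else - f (τ • s))
          = (2 * ((Φ ∩ T).card : ℕ) - (q - 1 : ℕ) : ZMod q) * f (τ • s₀) := by
        have h5 : ∀ s ∈ T, (if s ∈ Φ then f (τ • s) else - f (τ • s))
            = (if s ∈ Φ then 2 * f (τ • s₀) else 0) - f (τ • s₀) := by
          intro s hs
          rw [hTW f hfW τ s hs]
          split_ifs <;> ring
        rw [Finset.sum_congr rfl h5, sum_sub_distrib, ← sum_filter, sum_const, sum_const, hTcard,
          filter_mem_eq_inter, inter_comm]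
        simp only [nsmul_eq_mul]
        ring
      change (2 * ((Φ ∩ T).card : ℕ) - (q - 1 : ℕ) : ZMod q) * f (τ • s₀)
        + ∑ s ∈ ρ, f (τ • s) = 0
      rw [← h4, ← h3, ← h1]
    choose v hv0 hv using hex
    have hTm : ∀ k : K₀, (π ∘ₗ B) (v k) = (-(2 * (k : ℕ) - (q - 1 : ℕ) : ZMod q)) • v k := by
      intro k
      have h1 : B (v k) = (-(2 * (k : ℕ) - (q - 1 : ℕ) : ZMod q)) • Ev (v k) := by
        have := hv k
        rw [neg_smul]
        exact (neg_eq_of_add_eq_zero_right this).symm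
      rw [LinearMap.comp_apply, h1, map_smul]
      congr 1
      exact congrArg (fun φ : W →ₗ[ZMod q] W => φ (v k)) hπ
    have hμ : Function.Injective fun k : K₀ => (-(2 * (k : ℕ) - (q - 1 : ℕ) : ZMod q)) := by
      intro k k' h
      have h1 : ((2 * (k : ℕ) : ℕ) : ZMod q) = ((2 * (k' : ℕ) : ℕ) : ZMod q) := by
        push_cast
        simp only at h
        linear_combination -h
      have hle : ∀ k : K₀, (k : ℕ) < q := by
        rintro ⟨k, hk⟩
        obtain ⟨Φ, _, rfl⟩ := mem_image.1 hk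
        have := card_le_card (inter_subset_right (s₁ := Φ) (s₂ := T))
        change (Φ ∩ T).card < q
        omega
      have h2 := (ZMod.natCast_eq_natCast_iff _ _ _).1 h1
      have hcop : Nat.gcd q 2 = 1 := by
        rw [← Nat.coprime_iff_gcd_eq_one, Nat.coprime_primes hq.1 Nat.prime_two]
        exact hq2
      have h3 := Nat.ModEq.cancel_left_of_coprime hcop h2
      apply Subtype.ext
      exact Nat.ModEq.eq_of_lt_of_lt h3 (hle k) (hle k')
    have hli := Module.End.eigenvectors_linearIndependent' (π ∘ₗ B) _ hμ v (fun k =>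
      Module.End.hasEigenvector_iff.2 ⟨Module.End.mem_eigenspace_iff.2 (hTm k), hv0 k⟩)
    have h5 := hli.fintype_card_le_finrank
    rw [Fintype.card_coe] at h5
    exact h5.trans hWr
  have h1 : F₀.card = (F₀.image fun Φ => Φ ∩ T).card := by
    symm
    apply card_image_of_injOn
    intro Φ hΦ Φ' hΦ' h
    obtain ⟨hc1, _, h2⟩ := hF₀mem Φ hΦ
    obtain ⟨hc1', _, h2'⟩ := hF₀mem Φ' hΦ'
    have hTT : ∀ s ∈ T, (s ∈ Φ ↔ s ∈ Φ') := by
      intro s hs
      have h3 : s ∈ Φ ∩ T ↔ s ∈ Φ' ∩ T := by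
        have h4 : Φ ∩ T = Φ' ∩ T := h
        rw [h4]
      simpa only [mem_inter, hs, and_true] using h3
    ext s
    by_cases hs : s ∈ T
    · exact hTT s hs
    · by_cases hcs : c s ∈ T
      · rw [hc1, hc1', hTT _ hcs]
      · rw [h2 s hs hcs, h2' s hs hcs]
  have h2 : (F₀.image fun Φ => Φ ∩ T) ⊆ K₀.biUnion fun k => powersetCard k T := by
    intro D hD
    obtain ⟨Φ, hΦ, rfl⟩ := mem_image.1 hD
    rw [mem_biUnion]
    exact ⟨(Φ ∩ T).card, mem_image_of_mem _ hΦ, mem_powersetCard.2 ⟨inter_subset_right, rfl⟩⟩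
  rw [h1]
  refine (card_le_card h2).trans (card_biUnion_le.trans ?_)
  calc ∑ k ∈ K₀, (powersetCard k T).card
      ≤ ∑ k ∈ K₀, T.card.choose (T.card / 2) := by
        refine Finset.sum_le_sum fun k _ => ?_
        rw [card_powersetCard]
        exact Nat.choose_le_middle k _
    _ = K₀.card * T.card.choose (T.card / 2) := by rw [sum_const, smul_eq_mul]
    _ ≤ r * T.card.choose (T.card / 2) := Nat.mul_le_mul_right _ hK₀

end Pool.Agent.CMT.Large
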