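import Pool.Agent.Lib_helper86.CMT.Abel
import Pool.Agent.Lib_helper86.CM.AlmostAll

set_option autoImplicit false

namespace Pool.Agent.CMT

open NumberField Pool.Agent.CMT

theorem almost_all_abelian (K : Type) [Field K] [NumberField K] [IsCMField K] [IsGalois ℚ K]
    (hab : ∀ σ τ : Gal(K/ℚ), σ * τ = τ * σ) (g : ℕ) (hg : Module.finrank ℚ K = 2 * g) :
    (Nat.card {Φ : Finset (K →ₐ[ℚ] K) // IsCMType Φ ∧
        ¬ (Nondegenerate Φ ∧ HodgeGenerated Φ ∧ TateGenerated Φ)} : ℝ)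
      ≤ 434 * Nat.card {σ : Gal(K/ℚ) // σ ^ 12 = 1} / √g *
        Nat.card {Φ : Finset (K →ₐ[ℚ] K) // IsCMType Φ} := by
  classical
  let _ : CommGroup Gal(K/ℚ) :=
    { (inferInstance : Group Gal(K/ℚ)) with mul_comm := hab }
  have hcard : Fintype.card Gal(K/ℚ) = 2 * g := by
    rw [← hg, ← IsGalois.card_aut_eq_finrank ℚ K, Nat.card_eq_fintype_card]
  have h1 := CM.card_allGCM (cG K) cG_mul_self cG_ne_one
  have h2 := CM.almost_all (cG K) cG_mul_self g hcard
  rw [hcard, Nat.mul_div_cancel_left _ (by norm_num : 0 < 2)] at h1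
  have hall : Nat.card {Φ : Finset (K →ₐ[ℚ] K) // IsCMType Φ} = 2 ^ g := by
    rw [← h1, ← Fintype.card_coe, ← Nat.card_eq_fintype_card]
    refine Nat.card_congr (((eS K).subtypeEquiv fun Φ => ?_).symm)
    rw [isCMType_eS hab]
    unfold CM.allGCM
    rw [Finset.mem_filter]
    exact and_iff_right (Finset.mem_univ _)
  have hg0 : 0 < g := by
    have : 0 < Module.finrank ℚ K := Module.finrank_pos
    omega
  have hsg : 0 < √(g : ℝ) := Real.sqrt_pos.2 (by exact_mod_cast hg0)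
  rw [hall, div_mul_eq_mul_div, le_div_iff₀ hsg]
  push_cast
  refine le_trans (mul_le_mul_of_nonneg_right ?_ (Real.sqrt_nonneg _)) h2
  rw [Nat.cast_le, ← Fintype.card_coe, ← Nat.card_eq_fintype_card]
  refine Nat.card_le_card_of_injective
    (fun Φ => ⟨(eS K).symm Φ.1, ?_⟩) ?_
  · unfold CM.degGCM
    rw [Finset.mem_filter]
    have h3 : IsCMType (eS K ((eS K).symm Φ.1)) := by
      rw [Equiv.apply_symm_apply]; exact Φ.2.1
    refine ⟨Finset.mem_univ _, (isCMType_eS hab _).1 h3, fun h => Φ.2.2 ?_⟩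
    have h4 := (nondegenerate_eS hab _).2 h
    rw [Equiv.apply_symm_apply] at h4
    exact ⟨h4, hodge_of_nondegenerate Φ.2.1 h4, tate_of_nondegenerate Φ.2.1 h4⟩
  · intro Φ Ψ h
    have := congrArg (fun x => x.1) h
    exact Subtype.ext ((eS K).symm.injective this)

end Pool.Agent.CMT
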