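import Pool.Agent.Lib_helper86.CMT.LargeK
import Pool.Agent.Lib_helper86.CM.Count

set_option autoImplicit false

namespace Pool.Agent.CMT

open NumberField Pool.Agent.CMT

theorem large_prime_power (K L : Type) [Field K] [NumberField K] [IsCMField K] [Field L] [NumberField L]
    [Algebra K L] [IsGalois ℚ L] (q r m : ℕ) (hq : q.Prime) (hr : 2 * r < q) (hm : m ≠ 0)
    (hK : Module.finrank ℚ K = 2 * (r * q ^ m)) :
    (Nat.card {Φ : Finset (K →ₐ[ℚ] L) // IsCMType Φ ∧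
        ¬ (Nondegenerate Φ ∧ HodgeGenerated Φ ∧ TateGenerated Φ)} : ℝ)
      ≤ (r / √q + q ^ r / 2 ^ (q / (2 * r) + 2)) *
        Nat.card {Φ : Finset (K →ₐ[ℚ] L) // IsCMType Φ} := by
  classical
  rw [card_cmTypes (K := K) (L := L) (r * q ^ m) hK]
  have hBeq : Nat.card {Φ : Finset (K →ₐ[ℚ] L) // IsCMType Φ ∧
        ¬ (Nondegenerate Φ ∧ HodgeGenerated Φ ∧ TateGenerated Φ)}
      = Nat.card {Φ : Finset (K →ₐ[ℚ] L) // IsCMType Φ ∧ ¬ Nondegenerate Φ} := by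
    refine Nat.card_congr (Equiv.subtypeEquivRight fun Φ => ?_)
    constructor
    · rintro ⟨h1, h2⟩
      exact ⟨h1, fun h => h2 ⟨h, hodge_of_nondegenerate h1 h, tate_of_nondegenerate h1 h⟩⟩
    · rintro ⟨h1, h2⟩
      exact ⟨h1, fun h => h2 h.1⟩
  have hr0 : 0 < r := by
    rcases Nat.eq_zero_or_pos r with rfl | h
    · have : 0 < Module.finrank ℚ K := Module.finrank_pos
      omega
    · exact h
  rw [hBeq]
  have h1 := card_degenerate (K := K) (L := L) q r m hq hm hr hK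
  set g := r * q ^ m with hg
  have hqm : q ≤ q ^ m := by
    have : q ^ 1 ≤ q ^ m := Nat.pow_le_pow_right hq.pos (Nat.one_le_iff_ne_zero.2 hm)
    rwa [pow_one] at this
  have hgq : q ≤ g := hqm.trans (Nat.le_mul_of_pos_left _ hr0)
  have he : q / (2 * r) + 2 ≤ g := by
    have h2 : q / (2 * r) ≤ q / 2 := Nat.div_le_div_left (by omega) (by norm_num)
    omega
  have h2 : ((2 : ℝ) ^ (g - (q - 1))) = 2 ^ g / 2 ^ (q - 1) := by
    rw [eq_div_iff (by positivity), ← pow_add]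
    congr 1
    omega
  have h3 : ((2 : ℝ) ^ (g - (q / (2 * r) + 2))) = 2 ^ g / 2 ^ (q / (2 * r) + 2) := by
    rw [eq_div_iff (by positivity), ← pow_add]
    congr 1
    omega
  have h4 : (((q - 1).choose ((q - 1) / 2) : ℕ) : ℝ) / 2 ^ (q - 1) ≤ 1 / √q := by
    have h5 := CM.middle_sq_le (q - 1)
    rw [Nat.sub_add_cancel hq.one_lt.le] at h5
    have h6 : (((q - 1).choose ((q - 1) / 2) : ℕ) : ℝ) ^ 2 * q ≤ (2 ^ (q - 1)) ^ 2 := by
      have : (4 : ℝ) ^ (q - 1) = (2 ^ (q - 1)) ^ 2 := by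
        rw [← pow_mul, mul_comm, pow_mul]; norm_num
      rw [← this]
      exact_mod_cast h5
    have hsq : 0 < √(q : ℝ) := Real.sqrt_pos.2 (by exact_mod_cast hq.pos)
    rw [div_le_div_iff₀ (by positivity) hsq, one_mul]
    refine le_of_sq_le_sq ?_ (by positivity)
    rw [mul_pow, Real.sq_sqrt (by positivity)]
    exact h6
  have h7 : ((Nat.card {Φ : Finset (K →ₐ[ℚ] L) // IsCMType Φ ∧ ¬ Nondegenerate Φ} : ℕ) : ℝ)
      ≤ r * ((q - 1).choose ((q - 1) / 2) : ℕ) * 2 ^ (g - (q - 1))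
        + q ^ r * 2 ^ (g - (q / (2 * r) + 2)) := by exact_mod_cast h1
  rw [h2, h3] at h7
  refine h7.trans ?_
  push_cast
  rw [add_mul]
  refine add_le_add ?_ (le_of_eq ?_)
  · calc (r : ℝ) * ((q - 1).choose ((q - 1) / 2) : ℕ) * (2 ^ g / 2 ^ (q - 1))
        = r * ((((q - 1).choose ((q - 1) / 2) : ℕ) : ℝ) / 2 ^ (q - 1)) * 2 ^ g := by ring
      _ ≤ r * (1 / √q) * 2 ^ g := by gcongr
      _ = r / √q * 2 ^ g := by ring
  · ring

end Pool.Agent.CMT
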