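import Pool.Agent.Lib_helper86.CMT.HodgeP

set_option autoImplicit false
set_option linter.unusedSectionVars false

open NumberField

namespace Pool.Agent.CMT

section density

variable {L : Type} [Field L] [NumberField L] [IsGalois ℚ L]

theorem coe_gal_inj {g h : Gal(L/ℚ)} (e : (g : L →ₐ[ℚ] L) = h) : g = h := by
  ext x
  exact congrArg (fun f : L →ₐ[ℚ] L => f x) e

theorem orthG (g h : Gal(L/ℚ)) :
    ∑ l : LL L, g (dua L l) * h (integralBasis L l) = if g = h then 1 else 0 := by
  have h1 := orth2 (K := L) (L := L) (RingHom.id L) (g : L →ₐ[ℚ] L) (h : L →ₐ[ℚ] L)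
  have h2 : ((g : L →ₐ[ℚ] L) = h) ↔ g = h := ⟨coe_gal_inj, fun e => by rw [e]⟩
  simp only [h2] at h1
  exact h1

/-- Zariski density of the congruence subgroup `x ≡ 1 (mod m)`. -/
theorem density (m : ℕ) (hm : m ≠ 0) (N M : Gal(L/ℚ) → ℕ)
    (h : ∀ x : 𝓞 L, (m : 𝓞 L) ∣ x - 1 →
      ∏ g : Gal(L/ℚ), (g (x : L)) ^ N g = ∏ g : Gal(L/ℚ), (g (x : L)) ^ M g) : N = M := by
  classical
  let P : (Gal(L/ℚ) → ℕ) → MvPolynomial (LL L) L := fun N => ∏ g : Gal(L/ℚ),
    (1 + MvPolynomial.C (m : L) * ∑ l : LL L,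
      MvPolynomial.C (g (integralBasis L l)) * MvPolynomial.X l) ^ N g
  have hP : ∀ N (c : LL L → L), MvPolynomial.eval c (P N) = ∏ g : Gal(L/ℚ),
      (1 + (m : L) * ∑ l : LL L, g (integralBasis L l) * c l) ^ N g := by
    intro N c
    simp only [P, map_prod, map_pow, map_add, map_one, map_mul, map_sum, MvPolynomial.eval_C,
      MvPolynomial.eval_X]
  have hPN : P N = P M := by
    refine MvPolynomial.funext_set (fun _ => Set.range (Int.cast : ℤ → L))
      (fun _ => Set.infinite_range_of_injective Int.cast_injective) fun c hc => ?_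
    choose a ha using fun i => hc i (Set.mem_univ i)
    obtain rfl : (fun i => (a i : L)) = c := funext ha
    let x : 𝓞 L := 1 + (m : 𝓞 L) * ∑ l, (a l : 𝓞 L) * RingOfIntegers.basis L l
    have hx := h x ⟨∑ l, (a l : 𝓞 L) * RingOfIntegers.basis L l, by simp [x]⟩
    have hgx : ∀ g : Gal(L/ℚ), g (x : L) = 1 + (m : L) * ∑ l : LL L,
        g (integralBasis L l) * (a l : L) := by
      intro g
      have h1 : (x : L) = 1 + (m : L) * ∑ l, (a l : L) * integralBasis L l := by
        simp only [x, integralBasis_apply]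
        push_cast
        simp
      rw [h1, map_add, map_one, map_mul, map_natCast, map_sum]
      congr 2
      refine Finset.sum_congr rfl fun l _ => ?_
      rw [map_mul, map_intCast, mul_comm]
    simp only [hgx] at hx
    rw [hP, hP]
    exact hx
  funext h0
  have hm' : (m : L) ≠ 0 := Nat.cast_ne_zero.2 hm
  let y : Gal(L/ℚ) → L := fun g => if g = h0 then 2 else 1
  let c : LL L → L := fun l => ∑ g : Gal(L/ℚ), g (dua L l) * ((y g - 1) / m)
  have hc : ∀ g' : Gal(L/ℚ), 1 + (m : L) * ∑ l : LL L, g' (integralBasis L l) * c l = y g' := by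
    intro g'
    have h1 : ∑ l : LL L, g' (integralBasis L l) * c l = (y g' - 1) / m := by
      simp only [c, Finset.mul_sum]
      rw [Finset.sum_comm]
      have h2 : ∀ g : Gal(L/ℚ), ∑ l : LL L, g' (integralBasis L l) *
          (g (dua L l) * ((y g - 1) / m)) = (if g = g' then 1 else 0) * ((y g - 1) / m) := by
        intro g
        rw [← orthG g g', Finset.sum_mul]
        refine Finset.sum_congr rfl fun l _ => ?_
        ring
      simp only [h2]
      simp
    rw [h1]
    field_simp
    ring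
  have h2 := congrArg (MvPolynomial.eval c) hPN
  rw [hP, hP] at h2
  simp only [hc, y] at h2
  have h3 : ∀ N : Gal(L/ℚ) → ℕ, ∏ g : Gal(L/ℚ), (if g = h0 then (2 : L) else 1) ^ N g
      = 2 ^ N h0 := by
    intro N
    rw [Finset.prod_eq_single h0]
    · simp
    · intro b _ hb
      simp [hb]
    · intro h; exact absurd (Finset.mem_univ _) h
  rw [h3, h3] at h2
  have h4 : (2 : ℕ) ^ N h0 = 2 ^ M h0 := by
    exact_mod_cast h2
  exact Nat.pow_right_injective le_rfl h4


end density

variable {K : Type} [Field K] [NumberField K] [IsCMField K]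
variable {L : Type} [Field L] [NumberField L] [Algebra K L] [IsGalois ℚ L]
variable {k p : ℕ}

omit [IsCMField K] in
/-- every embedding of `K` is induced by an element of the Galois group -/
theorem exists_lift (s : K →ₐ[ℚ] L) :
    ∃ g : Gal(L/ℚ), (g : L →ₐ[ℚ] L).comp (IsScalarTower.toAlgHom ℚ K L) = s := by
  refine ⟨AlgEquiv.ofBijective (s.liftNormal L) (AlgHom.normal_bijective ℚ L L _), ?_⟩
  ext x
  exact s.liftNormal_commutes L x

omit [IsCMField K] in
/-- type norms exist -/
theorem exists_typeNorm (Φ : Finset (K →ₐ[ℚ] L)) (x : L) : ∃ y : K, IsTypeNorm Φ x y := by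
  classical
  have : IsGalois K L := IsGalois.tower_top_of_isGalois ℚ K L
  unfold IsTypeNorm
  have key := (IsGalois.mem_range_algebraMap_iff_fixed (F := K) (E := L)
    (∏ g ∈ Finset.univ.filter
    (fun g : Gal(L/ℚ) => (g : L →ₐ[ℚ] L).comp (IsScalarTower.toAlgHom ℚ K L) ∈ Φ), g⁻¹ x)).2
  refine (key fun h => ?_)
  let h' : Gal(L/ℚ) := h.restrictScalars ℚ
  have hh : ∀ z, h z = h' z := fun _ => rfl
  have hfix : ∀ y : K, h'⁻¹ (algebraMap K L y) = algebraMap K L y := by
    intro y
    have h1 : h' (algebraMap K L y) = algebraMap K L y := h.commutes y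
    have h2 : h'⁻¹ (h' (algebraMap K L y)) = algebraMap K L y := h'.symm_apply_apply _
    rwa [h1] at h2
  rw [hh, map_prod]
  refine Finset.prod_bij' (fun g _ => g * h'⁻¹) (fun g _ => g * h') ?_ ?_ ?_ ?_ ?_
  · intro g hg
    simp only [Finset.mem_filter, Finset.mem_univ, true_and] at hg ⊢
    have : ((g * h'⁻¹ : Gal(L/ℚ)) : L →ₐ[ℚ] L).comp (IsScalarTower.toAlgHom ℚ K L)
        = (g : L →ₐ[ℚ] L).comp (IsScalarTower.toAlgHom ℚ K L) := by
      ext y
      change g (h'⁻¹ (algebraMap K L y)) = g (algebraMap K L y)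
      rw [hfix]
    rw [this]
    exact hg
  · intro g hg
    simp only [Finset.mem_filter, Finset.mem_univ, true_and] at hg ⊢
    have : ((g * h' : Gal(L/ℚ)) : L →ₐ[ℚ] L).comp (IsScalarTower.toAlgHom ℚ K L)
        = (g : L →ₐ[ℚ] L).comp (IsScalarTower.toAlgHom ℚ K L) := by
      ext y
      change g (h (algebraMap K L y)) = g (algebraMap K L y)
      rw [h.commutes y]
    rw [this]
    exact hg
  · intro g _
    simp
  · intro g _
    simp
  · intro g _
    rw [mul_inv_rev, inv_inv, AlgEquiv.mul_apply]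

theorem tate_pohlmann {F C : Type} [Field F] [CharZero F] [Field C] [CharZero C]
    (φ : L →+* C) (ψ : F →+* C) (Φ : Finset (K →ₐ[ℚ] L)) (m : ℕ) (hm : m ≠ 0)
    (w : (Fin k → K) [⋀^(Fin p × Fin 2)]→ₗ[ℚ] F)
    (hw : ∀ x : 𝓞 L, (m : 𝓞 L) ∣ x - 1 → ∀ y : K, IsTypeNorm Φ (x : L) y → ∀ v,
      w (fun t => y • v t) = ((Algebra.norm ℚ (x : L) : ℚ) : F) ^ p * w v)
    (s : Fin p × Fin 2 → XX K L k) (hs : coef φ (fun v => ψ (w v)) s ≠ 0) (h0 : Gal(L/ℚ)) :
    (Finset.univ.filter fun t => (h0 : L →ₐ[ℚ] L).comp (s t).1 ∈ Φ).card = p := by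
  classical
  choose lift hlift using fun t => exists_lift (s t).1
  have h1 : ∀ x : 𝓞 L, (m : 𝓞 L) ∣ x - 1 → ∀ y : K, IsTypeNorm Φ (x : L) y →
      ∏ t, (s t).1 y = (∏ g : Gal(L/ℚ), g (x : L)) ^ p := by
    intro x hx y hy
    have h2 : ∀ v, ψ (w v) = ∑ s, coef φ (fun v => ψ (w v)) s * ∏ t, ev φ (s t) (v t) :=
      fun v => form_expand φ ψ w.toMultilinearMap v
    have h4 := coef_unique φ
      (fun s : Fin p × Fin 2 → XX K L k => coef φ (fun v => ψ (w v)) s *
        ∏ t, φ ((s t).1 y))
      (fun s => φ (∏ g : Gal(L/ℚ), g (x : L)) ^ p * coef φ (fun v => ψ (w v)) s)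
      (fun v => by
        have h5 := congrArg ψ (hw x hx y hy v)
        rw [map_mul, map_pow, map_ratCast, h2, h2 v] at h5
        have h6 : ((Algebra.norm ℚ (x : L) : ℚ) : C) = φ (∏ g : Gal(L/ℚ), g (x : L)) := by
          rw [← Algebra.norm_eq_prod_automorphisms]
          simp
        rw [h6] at h5
        simp only [mul_assoc]
        rw [← Finset.mul_sum, ← h5]
        refine Finset.sum_congr rfl fun s _ => ?_
        rw [← Finset.prod_mul_distrib]
        congr 1
        refine Finset.prod_congr rfl fun t _ => ?_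
        simp only [ev, Pi.smul_apply, smul_eq_mul, map_mul])
    have h5 : coef φ (fun v => ψ (w v)) s * ∏ t, φ ((s t).1 y)
        = φ (∏ g : Gal(L/ℚ), g (x : L)) ^ p * coef φ (fun v => ψ (w v)) s := congrFun h4 s
    rw [mul_comm] at h5
    have h6 := mul_right_cancel₀ hs h5
    rw [← map_prod, ← map_pow] at h6
    exact φ.injective h6
  have h2 := density m hm
    (fun h => (Finset.univ.filter fun t =>
      ((h⁻¹ : Gal(L/ℚ)) : L →ₐ[ℚ] L).comp (s t).1 ∈ Φ).card) (fun _ => p) (fun x hx => by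
      obtain ⟨y, hy⟩ := exists_typeNorm Φ (x : L)
      rw [Finset.prod_pow, ← h1 x hx y hy]
      have h3 : ∀ t, (s t).1 y
          = ∏ h : Gal(L/ℚ), if ((h⁻¹ : Gal(L/ℚ)) : L →ₐ[ℚ] L).comp (s t).1 ∈ Φ
            then h (x : L) else 1 := by
        intro t
        rw [← Finset.prod_filter]
        have h4 : (s t).1 y = lift t (algebraMap K L y) := by
          rw [← hlift t]; rfl
        rw [h4]
        unfold IsTypeNorm at hy
        rw [hy, map_prod]
        refine Finset.prod_bij' (fun g _ => lift t * g⁻¹) (fun h _ => h⁻¹ * lift t) ?_ ?_ ?_ ?_ ?_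
        · intro g hg
          simp only [Finset.mem_filter, Finset.mem_univ, true_and] at hg ⊢
          have e : (((lift t * g⁻¹)⁻¹ : Gal(L/ℚ)) : L →ₐ[ℚ] L).comp (s t).1
              = (g : L →ₐ[ℚ] L).comp (IsScalarTower.toAlgHom ℚ K L) := by
            rw [← hlift t]
            ext z
            change ((lift t * g⁻¹)⁻¹ * lift t) (algebraMap K L z) = g (algebraMap K L z)
            rw [mul_inv_rev, inv_inv, inv_mul_cancel_right]
          rw [e]
          exact hg
        · intro h hh
          simp only [Finset.mem_filter, Finset.mem_univ, true_and] at hh ⊢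
          have e : ((h⁻¹ * lift t : Gal(L/ℚ)) : L →ₐ[ℚ] L).comp (IsScalarTower.toAlgHom ℚ K L)
              = ((h⁻¹ : Gal(L/ℚ)) : L →ₐ[ℚ] L).comp (s t).1 := by
            rw [← hlift t]
            rfl
          rw [e]
          exact hh
        · intro g _
          simp
        · intro h _
          simp
        · intro g _
          rfl
      simp only [h3]
      rw [Finset.prod_comm]
      refine Finset.prod_congr rfl fun h _ => ?_
      rw [← Finset.prod_filter, Finset.prod_const])
  have h3 := congrFun h2 h0⁻¹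
  simp only [inv_inv] at h3
  exact h3

/-- Nondegenerate CM types: all Tate classes on all powers are generated by divisor classes. -/
theorem tate_of_nondegenerate {Φ : Finset (K →ₐ[ℚ] L)} (hΦ : IsCMType Φ)
    (hND : Nondegenerate Φ) : TateGenerated Φ := by
  intro ℓ _ φ₀ k p w hw
  obtain ⟨m, hm, hw⟩ := hw
  let C := AlgebraicClosure ℚ_[ℓ]
  have : CharZero C := charZero_of_injective_algebraMap (algebraMap ℚ_[ℓ] C).injective
  let φ : L →+* C := (IsAlgClosed.lift (R := ℚ) (S := L) (M := C)).toRingHom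
  refine generated_of_balanced hΦ φ (algebraMap ℚ_[ℓ] C) w (fun s hs g => ?_) φ₀
  exact balanced_of_pohlmann hND hΦ (fun t => (s t).1)
    (fun τ => tate_pohlmann φ (algebraMap ℚ_[ℓ] C) Φ m hm w hw s hs τ) g

end Pool.Agent.CMT
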